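import Mathlib

/-!
# [H60 MR Fsol] A linear system with a positive solution

Let `w : ι → ℝ` be positive.  There is `δ > 0` such that for every matrix `B` with `B i i = 1`, `|B i j| ≤ δ` for `i ≠ j` the system `∑ i, c i * B i j = w j` has a
solution with all `c i ≥ 0`.
PROOF.  `d = card ι`, `0 < m ≤ w i ≤ m'` for all `i`; `δ` with `δ d ≤ 1/2` and `2 δ d m' ≤ m`.  The transpose of `B` is invertible
(`det_ne_zero_of_sum_row_lt_diag`, `∑_{j ≠ i} |B i j| ≤ δ d < 1`), so there is a solution `c` (`Matrix.mulVec`, `Matrix.nonsing_inv`).  Let `|c i|` be maximal,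
`= μ` (`Finset.exists_max_image`): `c i = w i - ∑_{j ≠ i} c j B j i`, `μ ≤ m' + δ d μ`, so `μ ≤ 2 m'`.  For every `i`: `c i ≥ m - δ d 2 m' ≥ 0`.
(`ι` empty: trivial.)
-/

set_option autoImplicit false

namespace Pool.Agent.H60.MR

open Matrix

theorem fsol {ι : Type} [Fintype ι] {w : ι → ℝ} (hw : ∀ i, 0 < w i) :
    ∃ δ : ℝ, 0 < δ ∧ ∀ B : ι → ι → ℝ, (∀ i, B i i = 1) → (∀ i j, i ≠ j → |B i j| ≤ δ) →
      ∃ c : ι → ℝ, (∀ i, 0 ≤ c i) ∧ ∀ j, ∑ i, c i * B i j = w j := by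
  classical
  rcases isEmpty_or_nonempty ι with hι | hι
  · exact ⟨1, one_pos, fun B _ _ => ⟨fun _ => 0, fun _ => le_rfl, fun j => hι.elim j⟩⟩
  obtain ⟨i₁, -, hm⟩ := Finset.exists_min_image (Finset.univ : Finset ι) w Finset.univ_nonempty
  obtain ⟨i₂, -, hm'⟩ := Finset.exists_max_image (Finset.univ : Finset ι) w Finset.univ_nonempty
  obtain ⟨d, hd⟩ : ∃ d : ℝ, d = Fintype.card ι := ⟨_, rfl⟩
  have hd1 : 1 ≤ d := by
    rw [hd]
    exact_mod_cast Fintype.card_pos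
  obtain ⟨m, hmd⟩ : ∃ m : ℝ, m = w i₁ := ⟨_, rfl⟩
  obtain ⟨M, hMd⟩ : ∃ M : ℝ, M = w i₂ := ⟨_, rfl⟩
  have hm0 : 0 < m := by rw [hmd]; exact hw i₁
  have hmM : m ≤ M := by rw [hmd, hMd]; exact hm i₂ (Finset.mem_univ _)
  have hM0 : 0 < M := hm0.trans_le hmM
  obtain ⟨δ, hδ⟩ : ∃ δ : ℝ, δ = m / (2 * d * M) := ⟨_, rfl⟩
  have hδ0 : 0 < δ := by rw [hδ]; positivity
  have hδ1 : δ * d ≤ 1 / 2 := by
    have : δ * d = (m / M) / 2 := by rw [hδ]; field_simp
    rw [this]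
    have := (div_le_one hM0).2 hmM
    linarith
  have hδ2 : δ * d * (2 * M) = m := by rw [hδ]; field_simp
  refine ⟨δ, hδ0, fun B hB1 hB2 => ?_⟩
  have hrow : ∀ j (c : ι → ℝ) (μ : ℝ), (∀ i, |c i| ≤ μ) → |∑ i ∈ Finset.univ.erase j, c i * B i j| ≤ δ * d * μ := by
    intro j c μ hc
    have hμ : 0 ≤ μ := (abs_nonneg _).trans (hc j)
    calc |∑ i ∈ Finset.univ.erase j, c i * B i j| ≤ ∑ i ∈ Finset.univ.erase j, |c i * B i j| := Finset.abs_sum_le_sum_abs _ _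
      _ ≤ ∑ i ∈ Finset.univ.erase j, μ * δ := by
        refine Finset.sum_le_sum fun i hi => ?_
        rw [abs_mul]
        exact mul_le_mul (hc i) (hB2 i j (Finset.ne_of_mem_erase hi)) (abs_nonneg _) hμ
      _ ≤ δ * d * μ := by
        rw [Finset.sum_const, nsmul_eq_mul]
        have h1 : ((Finset.univ.erase j).card : ℝ) ≤ d := by
          rw [hd]
          exact_mod_cast Finset.card_le_univ _
        nlinarith [mul_nonneg hμ hδ0.le]
  have hdet : (Matrix.of B)ᵀ.det ≠ 0 := by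
    apply det_ne_zero_of_sum_row_lt_diag
    intro k
    have h1 : ∑ j ∈ Finset.univ.erase k, ‖(Matrix.of B)ᵀ k j‖ ≤ ∑ j ∈ Finset.univ.erase k, δ := by
      refine Finset.sum_le_sum fun j hj => ?_
      rw [Matrix.transpose_apply, Matrix.of_apply, Real.norm_eq_abs]
      exact hB2 j k (Finset.ne_of_mem_erase hj)
    rw [Finset.sum_const, nsmul_eq_mul] at h1
    have h2 : ((Finset.univ.erase k).card : ℝ) ≤ d := by
      rw [hd]
      exact_mod_cast Finset.card_le_univ _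
    rw [Matrix.transpose_apply, Matrix.of_apply, hB1, norm_one]
    nlinarith
  obtain ⟨c, hc⟩ : ∃ c : ι → ℝ, (Matrix.of B)ᵀ *ᵥ c = w := by
    refine ⟨(Matrix.of B)ᵀ⁻¹ *ᵥ w, ?_⟩
    rw [Matrix.mulVec_mulVec, Matrix.mul_nonsing_inv _ (isUnit_iff_ne_zero.2 hdet), Matrix.one_mulVec]
  have hc' : ∀ j, ∑ i, c i * B i j = w j := by
    intro j
    rw [← hc]
    simp only [Matrix.mulVec, dotProduct, Matrix.transpose_apply, Matrix.of_apply]
    exact Finset.sum_congr rfl fun i _ => mul_comm _ _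
  have hc'' : ∀ j, c j = w j - ∑ i ∈ Finset.univ.erase j, c i * B i j := by
    intro j
    have h1 := Finset.add_sum_erase Finset.univ (fun i => c i * B i j) (Finset.mem_univ j)
    rw [hc', hB1, mul_one] at h1
    linarith
  obtain ⟨i₃, -, hi₃⟩ := Finset.exists_max_image (Finset.univ : Finset ι) (fun i => |c i|) Finset.univ_nonempty
  obtain ⟨μ, hμd⟩ : ∃ μ : ℝ, μ = |c i₃| := ⟨_, rfl⟩
  have hμ : ∀ i, |c i| ≤ μ := fun i => by rw [hμd]; exact hi₃ i (Finset.mem_univ i)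
  have hμ0 : 0 ≤ μ := by rw [hμd]; exact abs_nonneg _
  have h1 : μ ≤ M + δ * d * μ := by
    have h2 := abs_sub (w i₃) (∑ i ∈ Finset.univ.erase i₃, c i * B i i₃)
    rw [← hc'', ← hμd, abs_of_pos (hw i₃)] at h2
    have h3 := hm' i₃ (Finset.mem_univ _)
    rw [← hMd] at h3
    linarith [hrow i₃ c μ hμ]
  have h2 : μ ≤ 2 * M := by nlinarith
  refine ⟨c, fun i => ?_, hc'⟩
  have h3 := (abs_le.1 (hrow i c μ hμ)).2
  have h4 := hm i (Finset.mem_univ _)
  rw [← hmd] at h4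
  have h5 : δ * d * μ ≤ δ * d * (2 * M) := mul_le_mul_of_nonneg_left h2 (by positivity)
  rw [hc'']
  linarith

end Pool.Agent.H60.MR
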