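import Pool.Agent.H60.MR.Fcov
import Pool.Agent.H60.MR.Fsol

/-!
# [H60 MR Feff] The field case: effective classes

* `feff_nn`: `d ∈ E`: `0 ≤ (X (toR d)).2 i`.  Let `A'` be integral in `C` (`exists_int`), `τ k = T A' A' (e k) > 0` (`f.pos`, `ei_mem`), `τ0 = T A' A' e0`.  For all `t`:
  `0 ≤ T A' A' (act (g t) (toR d)) = d_0 τ0 + ∑ k, lam t k d_k τ k` (`eff_nn'`: `EffD.pos`, `EffD.inv`; `X_sum`, `act_e0`, `act_ei`).  If `d_i < 0`: take `t` from `cov` with
  `y i = N (card - 1)`, `y j = -N` (as `ei_mem`): `lam t i → ∞`, `lam t j → 0` (`j ≠ i`): the sum is negative for large `N`.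
* `feff_hull`: `x ∈ closure C ∩ EffS E`, `x = ∑ c_k d_k`.  If all `(X x).2 i > 0`: `fcone`, `act (g t) x ∈ cone S`, `x ∈ Hull C` (`cone_hull`; `x = act (g t)⁻¹ (∑ …)`, the elements
  `act (g t)⁻¹ (toR s)` are integral in `closure C`: `hull_add`, `hull_smul`, `hull_int`).  If `(X x).2 i = 0` for some `i`: all `d_k` with `c_k ≠ 0` have
  `(X (toR d_k)).2 i = 0` (`feff_nn`), so `(X (toR d_k)).2 = 0` (`rat`; `toR d = qR d`); so `(X x).2 = 0`, `x = (X x).1 • e0`, `(X x).1 ≥ 0` (`c0_nn`).  If `(X x).1 = 0`: `x = 0`, `hull_zero`.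
  Otherwise `toR z = κ e0 ∈ closure C` (`FD.e0`), `x = ((X x).1 / κ) • toR z`: `hull_smul`, `hull_int`.
* `feff_all`: `w`, `w'` as stated.  `w' = 0`: `effS_zero`.  `(X (toR w)).1 = 0` (`l_X`), `(X (toR w)).2 i > 0` for all `i` (`co_nn`, `rat`, `w ≠ 0`), the same for `w'`.  Let `δ` be from `fsol` for
  `w'_i = (X (toR w')).2 i`.  For every `i` there is `t_i` with `lam t_i j w_j ≤ δ lam t_i i w_i` for all `j ≠ i` (`cov`, as `ei_mem`).  `B i j = lam t_i j w_j / (lam t_i i w_i)`: `c`; then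
  `toR w' = ∑ i, (c i / (lam t_i i w_i)) • act (g t_i) (toR w)` (compare coordinates, `X.injective`), in `EffS E` (`effS_act`, `effS_smul`, `effS_add`).
* `fin_fld`: `Concl`.
-/

set_option autoImplicit false

namespace Pool.Agent.H60.MR

open Pool.Agent.H57.KM Pool.Agent.H20.FV Pool.Agent.H60.P3

variable {n : ℕ} {C : Set (V n)} {G : Subgroup (GL (Fin n) ℤ)} {T : V n →ₗ[ℝ] V n →ₗ[ℝ] V n →ₗ[ℝ] ℝ} {l : V n →ₗ[ℝ] ℝ}
  {ι : Type} [Fintype ι] {Θ : Type} {g : Θ → GL (Fin n) ℤ} {lam : Θ → ι → ℝ} {X : V n ≃ₗ[ℝ] (ℝ × (ι → ℝ))}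

/-- one coordinate dominates the others -/
theorem dom_t (h : FD C G ι Θ g lam X) (i : ι) (R : ℝ) : ∃ t, R ≤ lam t i ∧ ∀ j, j ≠ i → R * lam t j ≤ 1 := by
  classical
  obtain ⟨M, hM⟩ := h.cov
  obtain ⟨R', hR'⟩ : ∃ R' : ℝ, R' = max R 1 := ⟨_, rfl⟩
  have hR1 : 1 ≤ R' := by
    rw [hR']
    exact le_max_right _ _
  have hR2 : R ≤ R' := by
    rw [hR']
    exact le_max_left _ _
  have hR0 : 0 < R' := lt_of_lt_of_le one_pos hR1
  have hlog : 0 ≤ Real.log R' := Real.log_nonneg hR1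
  obtain ⟨N, hN⟩ : ∃ N : ℝ, N = |M| + Real.log R' := ⟨_, rfl⟩
  have hN0 : 0 ≤ N := by
    rw [hN]
    positivity
  have hMN := le_abs_self M
  have hcard : (2 : ℝ) ≤ Fintype.card ι := by exact_mod_cast h.card
  obtain ⟨t, ht⟩ := hM (fun k => if k = i then N * ((Fintype.card ι : ℝ) - 1) else -N) (by
    rw [← Finset.add_sum_erase Finset.univ _ (Finset.mem_univ i), if_pos rfl]
    have h1 : ∑ k ∈ Finset.univ.erase i, (if k = i then N * ((Fintype.card ι : ℝ) - 1) else -N) =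
        ∑ k ∈ Finset.univ.erase i, (-N) :=
      Finset.sum_congr rfl fun k hk => if_neg (Finset.ne_of_mem_erase hk)
    rw [h1, Finset.sum_const, Finset.card_erase_of_mem (Finset.mem_univ i), Finset.card_univ,
      nsmul_eq_mul, Nat.cast_sub (by have := h.card; omega)]
    push_cast
    ring)
  refine ⟨t, ?_, fun j hj => ?_⟩
  · have h1 := (abs_le.1 (ht i)).1
    rw [if_pos rfl] at h1
    have h2 : N ≤ N * ((Fintype.card ι : ℝ) - 1) := by nlinarith
    have h3 : Real.log R' ≤ Real.log (lam t i) := by linarith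
    exact hR2.trans ((Real.log_le_log_iff hR0 (h.pos t i)).1 h3)
  · have h1 := (abs_le.1 (ht j)).2
    rw [if_neg hj] at h1
    have h2 : Real.log (R' * lam t j) ≤ 0 := by
      rw [Real.log_mul hR0.ne' (h.pos t j).ne']
      linarith
    have h3 : R' * lam t j ≤ 1 := by
      have h4 := mul_pos hR0 (h.pos t j)
      rw [← Real.log_one] at h2
      exact (Real.log_le_log_iff h4 one_pos).1 h2
    exact (mul_le_mul_of_nonneg_right hR2 (h.pos t j).le).trans h3

private theorem feff_act [DecidableEq ι] (h : FD C G ι Θ g lam X) (t : Θ) (v : V n) :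
    act (g t) v = (X v).1 • X.symm (1, 0) + ∑ i, (lam t i * (X v).2 i) • X.symm (0, Pi.single i 1) := by
  have h1 := X_sum X (act (g t) v)
  rw [h.X0] at h1
  rw [h1]
  congr 1
  exact Finset.sum_congr rfl fun i _ => by rw [h.X1]

theorem feff_nn (f : Fr C G T l) (h : FD C G ι Θ g lam X) {E : Set (Fin n → ℤ)} (hE : EffD C G T E) {d : Fin n → ℤ} (hd : d ∈ E)
    (i : ι) : 0 ≤ (X (toR d)).2 i := by
  classical
  obtain ⟨A, hA⟩ := f.amp.exists_int
  obtain ⟨τ, hτ⟩ : ∃ τ : ι → ℝ, τ = fun k => T (toR A) (toR A) (X.symm (0, Pi.single k 1)) := ⟨_, rfl⟩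
  obtain ⟨τ0, hτ0⟩ : ∃ τ0 : ℝ, τ0 = T (toR A) (toR A) (X.symm (1, 0)) := ⟨_, rfl⟩
  have hpos : ∀ k, 0 < τ k := by
    intro k
    rw [hτ]
    refine f.pos _ hA _ (ei_mem f h k) ?_
    rw [Ne, LinearEquiv.map_eq_zero_iff]
    intro h0
    have h1 := congrFun (congrArg Prod.snd h0) k
    simp at h1
  obtain ⟨x, hx⟩ : ∃ x : ι → ℝ, x = (X (toR d)).2 := ⟨_, rfl⟩
  obtain ⟨x0, hx0⟩ : ∃ x0 : ℝ, x0 = (X (toR d)).1 := ⟨_, rfl⟩
  have key : ∀ t, 0 ≤ x0 * τ0 + ∑ k, lam t k * x k * τ k := by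
    intro t
    have h1 := eff_nn hE hd (h.gG t) hA
    rw [feff_act h, map_add, map_smul, map_sum] at h1
    rw [smul_eq_mul, ← hτ0, ← hx0] at h1
    refine h1.trans (le_of_eq ?_)
    congr 1
    refine Finset.sum_congr rfl fun k _ => ?_
    rw [map_smul, smul_eq_mul, hτ, hx]
  rw [← hx]
  by_contra hneg
  push Not at hneg
  obtain ⟨B, hB⟩ : ∃ B : ℝ, B = |x0 * τ0| + ∑ k, |x k| * τ k := ⟨_, rfl⟩
  have hB0 : 0 ≤ B := by
    rw [hB]
    exact add_nonneg (abs_nonneg _) (Finset.sum_nonneg fun k _ => mul_nonneg (abs_nonneg _) (hpos k).le)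
  have hp : 0 < -x i * τ i := mul_pos (neg_pos.2 hneg) (hpos i)
  obtain ⟨t, ht1, ht2⟩ := dom_t h i (max 1 ((B + 1) / (-x i * τ i)))
  have hR1 : (1 : ℝ) ≤ max 1 ((B + 1) / (-x i * τ i)) := le_max_left _ _
  have h1 : B + 1 ≤ lam t i * (-x i * τ i) := by
    have h2 : (B + 1) / (-x i * τ i) ≤ lam t i := (le_max_right _ _).trans ht1
    rwa [div_le_iff₀ hp] at h2
  have h2 : ∀ j, j ≠ i → lam t j ≤ 1 := by
    intro j hj
    have h3 := ht2 j hj
    have h4 := h.pos t j
    nlinarith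
  have h3 := key t
  rw [← Finset.add_sum_erase Finset.univ _ (Finset.mem_univ i)] at h3
  have h4 : ∑ k ∈ Finset.univ.erase i, lam t k * x k * τ k ≤ ∑ k, |x k| * τ k := by
    calc ∑ k ∈ Finset.univ.erase i, lam t k * x k * τ k
        ≤ ∑ k ∈ Finset.univ.erase i, |x k| * τ k := by
          refine Finset.sum_le_sum fun k hk => ?_
          refine mul_le_mul_of_nonneg_right ?_ (hpos k).le
          have h5 := h2 k (Finset.ne_of_mem_erase hk)
          have h6 := h.pos t k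
          calc lam t k * x k ≤ lam t k * |x k| := mul_le_mul_of_nonneg_left (le_abs_self _) h6.le
            _ ≤ 1 * |x k| := mul_le_mul_of_nonneg_right h5 (abs_nonneg _)
            _ = |x k| := one_mul _
      _ ≤ ∑ k, |x k| * τ k := Finset.sum_le_sum_of_subset_of_nonneg (Finset.subset_univ _)
          fun k _ _ => mul_nonneg (abs_nonneg _) (hpos k).le
  have h5 := le_abs_self (x0 * τ0)
  have h6 : lam t i * x i * τ i = -(lam t i * (-x i * τ i)) := by ring
  rw [h6] at h3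
  linarith

private theorem feff_cone (f : Fr C G T l) {S : Finset (Fin n → ℤ)} (hS : ∀ s ∈ S, toR s ∈ closure C)
    {γ : GL (Fin n) ℤ} (hγ : γ ∈ G) {y : V n} (hy : y ∈ cone S) : act γ y ∈ Hull C := by
  classical
  obtain ⟨c, hc, rfl⟩ := hy
  have key : ∀ U : Finset (Fin n → ℤ), U ⊆ S → ∑ s ∈ U, c s • act γ (toR s) ∈ Hull C := by
    intro U
    induction U using Finset.induction_on with
    | empty =>
      intro _
      rw [Finset.sum_empty]
      exact hull_zero f.amp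
    | insert a U ha ih =>
      intro hU
      rw [Finset.sum_insert ha]
      refine hull_add f.amp (hull_smul f.amp (hc a) ?_)
        (ih (fun t ht => hU (Finset.mem_insert_of_mem ht)))
      obtain ⟨a', ha'⟩ := exists_toR_act γ a
      rw [← ha']
      refine hull_int ?_
      rw [ha']
      exact f.pres.closure _ hγ _ (hS a (hU (Finset.mem_insert_self a U)))
  have h1 := key S (Finset.Subset.refl S)
  rw [act_sum]
  refine (congrArg (· ∈ Hull C) ?_).mp h1
  exact Finset.sum_congr rfl fun s _ => (act_smul _ _ _).symm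

private theorem feff_rat (h : FD C G ι Θ g lam X) (d : Fin n → ℤ) (i : ι) (h0 : (X (toR d)).2 i = 0) :
    (X (toR d)).2 = 0 := by
  have e1 : (toR d : V n) = qR (fun j => (d j : ℚ)) := by
    funext j
    simp [toR, qR]
  rw [e1] at h0 ⊢
  exact h.rat _ ⟨i, h0⟩

theorem feff_hull (f : Fr C G T l) (h : FD C G ι Θ g lam X) {E : Set (Fin n → ℤ)} (hE : EffD C G T E) {x : V n}
    (hx : x ∈ closure C) (hxE : x ∈ EffS E) : x ∈ Hull C := by
  by_cases hpos : ∀ i, 0 < (X x).2 i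
  · obtain ⟨S, hS, h1⟩ := fcone f h
    obtain ⟨t, ht⟩ := h1 x hx hpos
    have h2 := feff_cone f hS (G.inv_mem (h.gG t)) ht
    rwa [act_inv_act] at h2
  · push Not at hpos
    obtain ⟨i, hi⟩ := hpos
    have hi0 : (X x).2 i = 0 := le_antisymm hi (co_nn f h hx i)
    obtain ⟨m, c, d, hc, hd, hxe⟩ := hxE
    have hXx : X x = ∑ k, c k • X (toR (d k)) := by
      rw [hxe, map_sum]
      exact Finset.sum_congr rfl fun k _ => map_smul _ _ _
    have hX2 : ∀ j, (X x).2 j = ∑ k, c k * (X (toR (d k))).2 j := by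
      intro j
      rw [hXx, Prod.snd_sum, Finset.sum_apply]
      rfl
    rw [hX2 i] at hi0
    have hz := (Finset.sum_eq_zero_iff_of_nonneg
      (fun k _ => mul_nonneg (hc k) (feff_nn f h hE (hd k) i))).1 hi0
    have hX0 : (X x).2 = 0 := by
      funext j
      rw [hX2 j]
      refine Finset.sum_eq_zero fun k hk => ?_
      rcases mul_eq_zero.1 (hz k hk) with h1 | h1
      · rw [h1, zero_mul]
      · rw [feff_rat h (d k) i h1]
        simp
    have hX1 := c0_nn f h hx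
    rcases hX1.eq_or_lt with h1 | h1
    · have h2 : X x = 0 := Prod.ext h1.symm hX0
      rw [(LinearEquiv.map_eq_zero_iff X).1 h2]
      exact hull_zero f.amp
    · obtain ⟨z, κ, hκ, hz⟩ := h.e0
      have h2 : x = ((X x).1 / κ) • toR z := by
        apply X.injective
        rw [map_smul, hz]
        refine Prod.ext ?_ ?_
        · show (X x).1 = (X x).1 / κ * κ
          rw [div_mul_cancel₀ _ hκ.ne']
        · rw [hX0]
          show (0 : ι → ℝ) = ((X x).1 / κ) • (0 : ι → ℝ)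
          rw [smul_zero]
      have h3 : 0 < (X x).1 / κ := div_pos h1 hκ
      have h4 : (toR z : V n) = ((X x).1 / κ)⁻¹ • x := by
        have h5 : ((X x).1 / κ)⁻¹ • x = ((X x).1 / κ)⁻¹ • (((X x).1 / κ) • (toR z : V n)) := by
          rw [← h2]
        rw [h5, smul_smul, inv_mul_cancel₀ h3.ne', one_smul]
      have h6 : (toR z : V n) ∈ closure C := by
        rw [h4]
        exact f.amp.closure_smul _ (inv_pos.2 h3).le _ hx
      rw [h2]
      exact hull_smul f.amp h3.le (hull_int h6)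

private theorem feff_pos (f : Fr C G T l) (h : FD C G ι Θ g lam X) {w : Fin n → ℤ} (hw : w ≠ 0)
    (hwC : toR w ∈ closure C) (hlw : l (toR w) = 0) : (X (toR w)).1 = 0 ∧ ∀ i, 0 < (X (toR w)).2 i := by
  have h1 := l_X f h (toR w)
  rw [hlw] at h1
  have h2 : (X (toR w)).1 = 0 := (mul_eq_zero.1 h1.symm).resolve_right (f.lpos _ h.AC).ne'
  refine ⟨h2, fun i => ?_⟩
  refine lt_of_le_of_ne (co_nn f h hwC i) fun h3 => ?_
  have h4 := feff_rat h w i h3.symm
  have h5 : X (toR w) = 0 := Prod.ext h2 h4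
  exact toR_ne_zero hw ((LinearEquiv.map_eq_zero_iff X).1 h5)

private theorem feff_sum {E : Set (Fin n → ℤ)} {κ : Type} (U : Finset κ) (v : κ → V n)
    (hv : ∀ i ∈ U, v i ∈ EffS E) : ∑ i ∈ U, v i ∈ EffS E := by
  classical
  induction U using Finset.induction_on with
  | empty =>
    rw [Finset.sum_empty]
    exact effS_zero
  | insert a U ha ih =>
    rw [Finset.sum_insert ha]
    exact effS_add (hv a (Finset.mem_insert_self a U)) (ih fun i hi => hv i (Finset.mem_insert_of_mem hi))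

theorem feff_all (f : Fr C G T l) (h : FD C G ι Θ g lam X) {E : Set (Fin n → ℤ)} (hE : EffD C G T E) {w : Fin n → ℤ} (hw : w ≠ 0)
    (hwC : toR w ∈ closure C) (hlw : l (toR w) = 0) (hwE : toR w ∈ EffS E) {w' : Fin n → ℤ} (hw' : toR w' ∈ closure C)
    (hlw' : l (toR w') = 0) : toR w' ∈ EffS E := by
  classical
  by_cases hw0 : w' = 0
  · rw [hw0, toR_zero]
    exact effS_zero
  obtain ⟨ha, hb⟩ := feff_pos f h hw hwC hlw
  obtain ⟨ha', hb'⟩ := feff_pos f h hw0 hw' hlw'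
  obtain ⟨y, hy⟩ : ∃ y : ι → ℝ, y = (X (toR w)).2 := ⟨_, rfl⟩
  obtain ⟨y', hy'⟩ : ∃ y' : ι → ℝ, y' = (X (toR w')).2 := ⟨_, rfl⟩
  rw [← hy] at hb
  rw [← hy'] at hb'
  obtain ⟨δ, hδ, hsol⟩ := fsol hb'
  have ht : ∀ i, ∃ t, ∀ j, j ≠ i → lam t j * y j ≤ δ * (lam t i * y i) := by
    intro i
    have hs : ∀ j, y j / (δ * y i) ≤ ∑ k, y k / (δ * y i) := fun j =>
      Finset.single_le_sum (f := fun k => y k / (δ * y i))
        (fun k _ => (div_pos (hb k) (mul_pos hδ (hb i))).le) (Finset.mem_univ j)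
    obtain ⟨t, ht1, ht2⟩ := dom_t h i (max 1 (∑ k, y k / (δ * y i)))
    have hR1 : (1 : ℝ) ≤ max 1 (∑ k, y k / (δ * y i)) := le_max_left _ _
    refine ⟨t, fun j hj => ?_⟩
    have h1 : lam t j ≤ 1 := by
      have h3 := ht2 j hj
      have h4 := h.pos t j
      nlinarith
    have h2 : y j ≤ lam t i * (δ * y i) := by
      rw [← div_le_iff₀ (mul_pos hδ (hb i))]
      exact (hs j).trans ((le_max_right _ _).trans ht1)
    calc lam t j * y j ≤ 1 * y j := mul_le_mul_of_nonneg_right h1 (hb j).le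
      _ = y j := one_mul _
      _ ≤ lam t i * (δ * y i) := h2
      _ = δ * (lam t i * y i) := by ring
  choose t ht using ht
  obtain ⟨c, hc, hcs⟩ := hsol (fun i j => lam (t i) j * y j / (lam (t i) i * y i))
    (fun i => div_self (mul_pos (h.pos _ i) (hb i)).ne')
    (fun i j hij => by
      have h1 := mul_pos (h.pos (t i) i) (hb i)
      have h2 := mul_pos (h.pos (t i) j) (hb j)
      rw [abs_of_pos (div_pos h2 h1), div_le_iff₀ h1]
      exact ht i j (Ne.symm hij))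
  have hsum : (toR w' : V n) = ∑ i, (c i / (lam (t i) i * y i)) • act (g (t i)) (toR w) := by
    apply X.injective
    rw [map_sum]
    refine Prod.ext ?_ ?_
    · rw [Prod.fst_sum, ha']
      refine (Finset.sum_eq_zero fun i _ => ?_).symm
      rw [map_smul]
      show c i / (lam (t i) i * y i) * (X (act (g (t i)) (toR w))).1 = 0
      rw [h.X0, ha, mul_zero]
    · rw [Prod.snd_sum, ← hy']
      funext j
      rw [Finset.sum_apply, ← hcs j]
      refine Finset.sum_congr rfl fun i _ => ?_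
      rw [map_smul]
      show c i * (lam (t i) j * y j / (lam (t i) i * y i)) =
        c i / (lam (t i) i * y i) * (X (act (g (t i)) (toR w))).2 j
      rw [h.X1, ← hy]
      ring
  rw [hsum]
  refine feff_sum _ _ fun i _ => ?_
  exact effS_smul (div_nonneg (hc i) (mul_pos (h.pos _ i) (hb i)).le)
    (effS_act (hE.inv _ (h.gG _)) hwE)

theorem fin_fld (f : Fr C G T l) (h : FD C G ι Θ g lam X) {E : Set (Fin n → ℤ)} (hE : EffD C G T E) : Concl C G l E :=
  ⟨fcov f h, fun x hx hxE => feff_hull f h hE hx hxE, fex f h,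
    fun ⟨w, hw, hwC, hlw, hwE⟩ w' hw' hlw' => feff_all f h hE hw hwC hlw hwE hw' hlw'⟩

end Pool.Agent.H60.MR
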