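import Pool.Agent.H60.MR.Def
import Pool.Agent.H57.KM.Cover

/-!
# [H60 MR Fld] The field case in real coordinates

`π : E ≃+* ℚ × K`, `(π e).1 = ε e`; `φ` bijective (`finrank E = n`); `π` is `ℚ`-linear (`map_rat_smul`; the two `ℚ`-algebra structures on `K`
agree, `Subsingleton`).  `ι = (K →+* ℝ)` (finite: `embEquiv`, `card_emb` of `H57/KM/Coord`: `r + 1 ≥ 2` elements).
`X`: as in `coord` (`H57/KM/Coord`): take a linear bijection `φK : K ≃ₗ[ℚ] (Fin (r + 1) → ℚ)` and `XK` from `coord`; or repeat the proof of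
`coord` for the `n` ring homomorphisms `e ↦ ε e`, `e ↦ σ (π e).2` from `E` to `ℝ`: `X v = (∑ i, v i * ε (b i), σ ↦ ∑ i, v i * σ (π (b i)).2)`,
`b i = φ⁻¹ (Pi.single i 1)`.  `X (qR (φ e)) = (ε e, σ ↦ σ (π e).2)`.  Bijective: the dimensions are equal (`1 + (r + 1) = n`) and `X` is
onto: the range contains all `(q, σ ↦ σ k)`, `q ∈ ℚ`, `k ∈ K` (`π` is onto) and the vectors `(σ k)_σ` span `ℝ ^ ι` (`coord` for `φK`).
`α t = (1, u t)` under `π` (`aug`), `u : ℤ ^ r → (𝓞 K)ˣ` injective (`ainj`), integral (`int`, also for the inverse).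
`Θ = {t // ∀ σ, 0 < σ (u t)}`, `g t = β t`, `lam t σ = σ (u t)`.
* `X0`, `X1`: linear in `v`, check on `v = qR (φ k)` with `mul`.
* `cov`: `cover` of `H57/KM/Cover`.
* `AC`: `X (qR (φ 1)) = (1, 1)`.
* `rat`: `q = φ e`: `σ (π e).2 = 0` gives `(π e).2 = 0` (`K` is a field).
* `e0`: `e = π⁻¹ (1, 0)`, `D φ e` integral, `κ = D`.
* `hyp`: `z i = D ε (b i)` integral for some `D ≥ 1`, `κ = D`.
-/

set_option autoImplicit false

namespace Pool.Agent.H60.MR

open Pool.Agent.H57.KM Pool.Agent.H20.FV Pool.Agent.H60.P3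

variable {n r : ℕ} {C : Set (V n)} {G : Subgroup (GL (Fin n) ℤ)} {l : V n →ₗ[ℝ] ℝ}
  {β : Multiplicative (Fin r → ℤ) →* GL (Fin n) ℤ}

/-- two real linear maps which agree on the rational vectors are equal -/
private theorem fld_ext {W : Type} [AddCommGroup W] [Module ℝ W] {f g : V n →ₗ[ℝ] W}
    (h : ∀ q : Fin n → ℚ, f (qR q) = g (qR q)) : f = g := by
  refine LinearMap.pi_ext' fun i => LinearMap.ext_ring ?_
  have h1 := h (Pi.single i 1)
  have h2 : qR (Pi.single i 1 : Fin n → ℚ) = (Pi.single i 1 : V n) := by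
    funext j
    change (((Pi.single i 1 : Fin n → ℚ) j : ℚ) : ℝ) = _
    by_cases hj : j = i
    · subst hj
      rw [Pi.single_eq_same, Pi.single_eq_same, Rat.cast_one]
    · rw [Pi.single_eq_of_ne hj, Pi.single_eq_of_ne hj, Rat.cast_zero]
  rw [h2] at h1
  exact h1

/-- coordinates of the values of a ring homomorphism -/
private theorem fld_sum {E : Type} [CommRing E] [Algebra ℚ E] (φ' : E ≃ₗ[ℚ] (Fin n → ℚ)) (τ : E →+* ℝ) (e : E) :
    ∑ i, ((φ' e i : ℚ) : ℝ) * τ (φ'.symm (Pi.single i 1)) = τ e := by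
  have h2 : ∀ i, ((φ' e i : ℚ) : ℝ) * τ (φ'.symm (Pi.single i 1)) = τ ((φ' e i) • φ'.symm (Pi.single i 1)) := by
    intro i
    rw [Algebra.smul_def, map_mul]
    congr 1
    exact (eq_ratCast (τ.comp (algebraMap ℚ E)) (φ' e i)).symm
  rw [Finset.sum_congr rfl fun i _ => h2 i, ← map_sum]
  congr 1
  apply φ'.injective
  rw [map_sum]
  funext j
  rw [Finset.sum_apply, Finset.sum_eq_single j]
  · rw [map_smul, φ'.apply_symm_apply, Pi.smul_apply, Pi.single_eq_same, smul_eq_mul, mul_one]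
  · intro i _ hij
    rw [map_smul, φ'.apply_symm_apply, Pi.smul_apply, Pi.single_eq_of_ne hij.symm, smul_zero]
  · intro h
    exact absurd (Finset.mem_univ _) h

theorem fld {E : Type} [CommRing E] [Algebra ℚ E] {α : Multiplicative (Fin r → ℤ) →* Eˣ} {φ : E →ₗ[ℚ] (Fin n → ℚ)}
    {ε : E →ₐ[ℚ] ℚ} (h : ED C l β E α φ ε) (hG : ∀ t, β t ∈ G) (hn : n = r + 2) (hr : 1 ≤ r) (hfin : Module.finrank ℚ E = n)
    {K : Type} [Field K] [NumberField K] (π : E ≃+* ℚ × K) (hπ : ∀ e, (π e).1 = ε e) (hK : Module.finrank ℚ K = r + 1)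
    (hreal : ∀ χ : K →+* ℂ, ∀ k, (χ k).im = 0) :
    ∃ (ι : Type) (_ : Fintype ι) (Θ : Type) (g : Θ → GL (Fin n) ℤ) (lam : Θ → ι → ℝ) (X : V n ≃ₗ[ℝ] (ℝ × (ι → ℝ))),
      FD C G ι Θ g lam X := by
  classical
  have hfinι : Finite (K →+* ℝ) := Finite.of_equiv _ (embEquiv hreal).symm
  have hft : Fintype (K →+* ℝ) := Fintype.ofFinite _
  have hcard : Fintype.card (K →+* ℝ) = r + 1 := by
    rw [← hK, ← card_emb hreal, Nat.card_eq_fintype_card]
  -- the bijection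
  have hEf : Module.Finite ℚ E := h.fin
  have hfr : Module.finrank ℚ E = Module.finrank ℚ (Fin n → ℚ) := by
    rw [hfin, Module.finrank_fintype_fun_eq_card, Fintype.card_fin]
  obtain ⟨φ', hφ'⟩ : ∃ φ' : E ≃ₗ[ℚ] (Fin n → ℚ), ∀ e, φ' e = φ e :=
    ⟨LinearEquiv.ofBijective φ ⟨h.pinj,
      (LinearMap.injective_iff_surjective_of_finrank_eq_finrank hfr).1 h.pinj⟩, fun _ => rfl⟩
  -- the ring homomorphisms
  obtain ⟨τ0, hτ0⟩ : ∃ τ0 : E →+* ℝ, ∀ e, τ0 e = ((ε e : ℚ) : ℝ) :=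
    ⟨(algebraMap ℚ ℝ).comp (ε : E →+* ℚ), fun _ => rfl⟩
  obtain ⟨τs, hτs⟩ : ∃ τs : (K →+* ℝ) → (E →+* ℝ), ∀ σ e, τs σ e = σ (π e).2 :=
    ⟨fun σ => σ.comp ((RingHom.snd ℚ K).comp (π : E →+* ℚ × K)), fun _ _ => rfl⟩
  obtain ⟨X0, hX0⟩ : ∃ X0 : V n →ₗ[ℝ] (ℝ × ((K →+* ℝ) → ℝ)), ∀ v, X0 v =
      (∑ i, v i * τ0 (φ'.symm (Pi.single i 1)), fun σ => ∑ i, v i * τs σ (φ'.symm (Pi.single i 1))) := by
    refine ⟨
      { toFun := fun v => (∑ i, v i * τ0 (φ'.symm (Pi.single i 1)),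
          fun σ => ∑ i, v i * τs σ (φ'.symm (Pi.single i 1)))
        map_add' := fun v w => ?_
        map_smul' := fun c v => ?_ }, fun _ => rfl⟩
    · refine Prod.ext ?_ (funext fun σ => ?_)
      · simp only [Pi.add_apply, add_mul, Finset.sum_add_distrib, Prod.fst_add]
      · simp only [Pi.add_apply, add_mul, Finset.sum_add_distrib, Prod.snd_add]
    · refine Prod.ext ?_ (funext fun σ => ?_)
      · simp only [Pi.smul_apply, smul_eq_mul, mul_assoc, Finset.mul_sum, Prod.smul_fst, RingHom.id_apply]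
      · simp only [Pi.smul_apply, smul_eq_mul, mul_assoc, Finset.mul_sum, Prod.smul_snd, RingHom.id_apply]
  have hXe : ∀ e, X0 (qR (φ e)) = (((ε e : ℚ) : ℝ), fun σ => σ (π e).2) := by
    intro e
    rw [hX0]
    refine Prod.ext ?_ (funext fun σ => ?_)
    · change ∑ i, ((φ e i : ℚ) : ℝ) * τ0 (φ'.symm (Pi.single i 1)) = _
      rw [← hφ', fld_sum, hτ0]
    · change ∑ i, ((φ e i : ℚ) : ℝ) * τs σ (φ'.symm (Pi.single i 1)) = _
      rw [← hφ', fld_sum, hτs]
  have hdim : Module.finrank ℝ (V n) = Module.finrank ℝ (ℝ × ((K →+* ℝ) → ℝ)) := by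
    rw [Module.finrank_fintype_fun_eq_card, Module.finrank_prod, Module.finrank_self,
      Module.finrank_fintype_fun_eq_card, Fintype.card_fin, hcard, hn]
    ring
  have hsurj : Function.Surjective X0 := by
    rw [← LinearMap.range_eq_top]
    by_contra hne
    obtain ⟨f, hf0, hf⟩ := Submodule.exists_le_ker_of_lt_top _ (lt_top_iff_ne_top.2 hne)
    have hfX : ∀ v, f (X0 v) = 0 := fun v => hf (LinearMap.mem_range_self X0 v)
    obtain ⟨τ, hτn, hτσ⟩ : ∃ τ : Option (K →+* ℝ) → (E →* ℝ), τ none = (τ0 : E →* ℝ) ∧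
        ∀ σ, τ (some σ) = (τs σ : E →* ℝ) := ⟨fun o => o.elim (τ0 : E →* ℝ) fun σ => (τs σ : E →* ℝ),
          rfl, fun _ => rfl⟩
    have hinj : Function.Injective τ := by
      have h0s : ∀ σ, τ none ≠ τ (some σ) := by
        intro σ hh
        have h1 := DFunLike.congr_fun hh (π.symm (1, 0))
        rw [hτn, hτσ] at h1
        change τ0 (π.symm (1, 0)) = τs σ (π.symm (1, 0)) at h1
        rw [hτ0, hτs, ← hπ, π.apply_symm_apply, map_zero, Rat.cast_one] at h1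
        exact one_ne_zero h1
      intro a b hab
      rcases a with _ | σ
      · rcases b with _ | σ'
        · rfl
        · exact absurd hab (h0s σ')
      · rcases b with _ | σ'
        · exact absurd hab.symm (h0s σ)
        · congr 1
          refine RingHom.ext fun k => ?_
          have h1 := DFunLike.congr_fun hab (π.symm (0, k))
          rw [hτσ, hτσ] at h1
          change τs σ (π.symm (0, k)) = τs σ' (π.symm (0, k)) at h1
          rw [hτs, hτs, π.apply_symm_apply] at h1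
          exact h1
    have hli : LinearIndependent ℝ (fun o : Option (K →+* ℝ) => ((τ o : E →* ℝ) : E → ℝ)) :=
      (linearIndependent_monoidHom E ℝ).comp _ hinj
    rw [Fintype.linearIndependent_iff] at hli
    obtain ⟨cf, hcn, hcs⟩ : ∃ cf : Option (K →+* ℝ) → ℝ, cf none = f (1, 0) ∧
        ∀ σ, cf (some σ) = f (0, Pi.single σ 1) :=
      ⟨fun o => o.elim (f (1, 0)) fun σ => f (0, Pi.single σ 1), rfl, fun _ => rfl⟩
    have hdec : ∀ x : ℝ × ((K →+* ℝ) → ℝ), x = x.1 • ((1, 0) : ℝ × ((K →+* ℝ) → ℝ)) +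
        ∑ σ, x.2 σ • ((0, Pi.single σ 1) : ℝ × ((K →+* ℝ) → ℝ)) := by
      intro x
      have h1 : ∀ σ, (x.2 σ • ((0, Pi.single σ 1) : ℝ × ((K →+* ℝ) → ℝ))).1 = 0 := fun σ =>
        smul_zero (x.2 σ)
      have h2 : ∀ σ' σ, (x.2 σ' • ((0, Pi.single σ' 1) : ℝ × ((K →+* ℝ) → ℝ))).2 σ =
          x.2 σ' * (Pi.single σ' 1 : (K →+* ℝ) → ℝ) σ := fun _ _ => rfl
      refine Prod.ext ?_ (funext fun σ => ?_)
      · rw [Prod.fst_add, Prod.fst_sum, Finset.sum_congr rfl fun σ _ => h1 σ, Finset.sum_const_zero,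
          add_zero]
        change x.1 = x.1 * 1
        rw [mul_one]
      · rw [Prod.snd_add, Prod.snd_sum, Pi.add_apply, Finset.sum_apply,
          Finset.sum_congr rfl fun σ' _ => h2 σ' σ, Finset.sum_eq_single σ, Pi.single_eq_same, mul_one]
        · change x.2 σ = x.1 * 0 + x.2 σ
          rw [mul_zero, zero_add]
        · intro σ' _ hne'
          rw [Pi.single_eq_of_ne hne'.symm, mul_zero]
        · intro hh
          exact absurd (Finset.mem_univ _) hh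
    have hc : ∀ o, cf o = 0 := by
      apply hli cf
      funext e
      have h1 := hfX (qR (φ e))
      rw [hdec (X0 (qR (φ e))), hXe, map_add, map_smul, map_sum] at h1
      rw [Finset.sum_apply, Fintype.sum_option, Pi.zero_apply, ← h1]
      congr 1
      · rw [Pi.smul_apply, hcn, hτn, smul_eq_mul, smul_eq_mul, mul_comm]
        congr 1
        exact hτ0 e
      · refine Finset.sum_congr rfl fun σ _ => ?_
        rw [Pi.smul_apply, hcs, hτσ, map_smul, smul_eq_mul, smul_eq_mul, mul_comm]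
        congr 1
        exact hτs σ e
    apply hf0
    refine LinearMap.ext fun x => ?_
    rw [hdec x, map_add, map_smul, map_sum, ← hcn, hc, smul_zero, zero_add, LinearMap.zero_apply]
    refine Finset.sum_eq_zero fun σ _ => ?_
    rw [map_smul, ← hcs, hc, smul_zero]
  have hbij : Function.Bijective X0 :=
    ⟨(LinearMap.injective_iff_surjective_of_finrank_eq_finrank hdim).2 hsurj, hsurj⟩
  obtain ⟨X, hX⟩ : ∃ X : V n ≃ₗ[ℝ] (ℝ × ((K →+* ℝ) → ℝ)), ∀ v, X v = X0 v :=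
    ⟨LinearEquiv.ofBijective X0 hbij, fun _ => rfl⟩
  have hX1 : ∀ e, (X (qR (φ e))).1 = ((ε e : ℚ) : ℝ) := fun e => by rw [hX, hXe]
  have hX2 : ∀ e σ, (X (qR (φ e))).2 σ = σ (π e).2 := fun e σ => by rw [hX, hXe]
  -- the units
  obtain ⟨f1, hf1⟩ : ∃ f1 : Multiplicative (Fin r → ℤ) →* K, ∀ t, f1 t = (π ((α t : Eˣ) : E)).2 :=
    ⟨{ toFun := fun t => (π ((α t : Eˣ) : E)).2
       map_one' := by rw [map_one, Units.val_one, map_one, Prod.snd_one]
       map_mul' := fun a b => by rw [map_mul, Units.val_mul, map_mul, Prod.snd_mul] }, fun _ => rfl⟩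
  have hint : ∀ t, IsIntegral ℤ (f1 t) := by
    intro t
    rw [hf1]
    exact (h.int t).map ((RingHom.snd ℚ K).comp (π : E →+* ℚ × K)).toIntAlgHom
  obtain ⟨u, hu⟩ : ∃ u : Multiplicative (Fin r → ℤ) →* (NumberField.RingOfIntegers K)ˣ,
      ∀ t, (((u t : (NumberField.RingOfIntegers K)ˣ) : NumberField.RingOfIntegers K) : K) =
        (π ((α t : Eˣ) : E)).2 :=
    ⟨(NumberField.RingOfIntegers.restrict_monoidHom f1 hint).toHomUnits, fun t => hf1 t⟩
  have huinj : Function.Injective u := by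
    intro t t' htt
    apply h.ainj
    apply Units.ext
    apply π.injective
    refine Prod.ext ?_ ?_
    · rw [hπ, hπ, h.aug, h.aug]
    · rw [← hu, ← hu, htt]
  obtain ⟨M, hM⟩ := cover hreal hK u huinj
  refine ⟨K →+* ℝ, hft, {t : Multiplicative (Fin r → ℤ) // ∀ σ : K →+* ℝ,
      0 < σ (((u t : (NumberField.RingOfIntegers K)ˣ) : NumberField.RingOfIntegers K) : K)},
    fun t => β t.1, fun t σ =>
      σ (((u t.1 : (NumberField.RingOfIntegers K)ˣ) : NumberField.RingOfIntegers K) : K), X, ?_⟩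
  have hact1 : ∀ t v, (X (act (β t) v)).1 = (X v).1 := by
    intro t v
    have h1 : ((LinearMap.fst ℝ ℝ ((K →+* ℝ) → ℝ)).comp (X : V n →ₗ[ℝ] (ℝ × ((K →+* ℝ) → ℝ)))).comp
        (⟨⟨act (β t), act_add (β t)⟩, act_smul (β t)⟩ : V n →ₗ[ℝ] V n) =
        (LinearMap.fst ℝ ℝ ((K →+* ℝ) → ℝ)).comp (X : V n →ₗ[ℝ] (ℝ × ((K →+* ℝ) → ℝ))) := by
      refine fld_ext fun q => ?_
      obtain ⟨e, rfl⟩ : ∃ e, φ e = q := ⟨φ'.symm q, by rw [← hφ', φ'.apply_symm_apply]⟩
      change (X (act (β t) (qR (φ e)))).1 = (X (qR (φ e))).1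
      rw [← h.mul, hX1, hX1, map_mul, h.aug, one_mul]
    exact congrArg (fun L : V n →ₗ[ℝ] ℝ => L v) h1
  have hact2 : ∀ t v σ, (X (act (β t) v)).2 σ =
      σ (((u t : (NumberField.RingOfIntegers K)ˣ) : NumberField.RingOfIntegers K) : K) * (X v).2 σ := by
    intro t v σ
    have h1 : ((LinearMap.proj (R := ℝ) (φ := fun _ : K →+* ℝ => ℝ) σ).comp
        ((LinearMap.snd ℝ ℝ ((K →+* ℝ) → ℝ)).comp (X : V n →ₗ[ℝ] (ℝ × ((K →+* ℝ) → ℝ))))).comp
        (⟨⟨act (β t), act_add (β t)⟩, act_smul (β t)⟩ : V n →ₗ[ℝ] V n) =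
        σ (((u t : (NumberField.RingOfIntegers K)ˣ) : NumberField.RingOfIntegers K) : K) •
        ((LinearMap.proj (R := ℝ) (φ := fun _ : K →+* ℝ => ℝ) σ).comp
        ((LinearMap.snd ℝ ℝ ((K →+* ℝ) → ℝ)).comp (X : V n →ₗ[ℝ] (ℝ × ((K →+* ℝ) → ℝ))))) := by
      refine fld_ext fun q => ?_
      obtain ⟨e, rfl⟩ : ∃ e, φ e = q := ⟨φ'.symm q, by rw [← hφ', φ'.apply_symm_apply]⟩
      change (X (act (β t) (qR (φ e)))).2 σ =
        σ (((u t : (NumberField.RingOfIntegers K)ˣ) : NumberField.RingOfIntegers K) : K) * (X (qR (φ e))).2 σ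
      rw [← h.mul, hX2, hX2, map_mul, Prod.snd_mul, map_mul, hu]
    exact congrArg (fun L : V n →ₗ[ℝ] ℝ => L v) h1
  refine ⟨?_, ?_, ?_, ?_, ?_, ?_, ?_, ?_, ?_, ?_⟩
  · rw [hcard]
    omega
  · intro t
    exact hG t.1
  · intro t σ
    exact t.2 σ
  · intro t v
    exact hact1 t.1 v
  · intro t v σ
    exact hact2 t.1 v σ
  · refine ⟨M, fun y hy => ?_⟩
    obtain ⟨t, ht⟩ := hM y hy
    exact ⟨⟨t, fun σ => (ht σ).1⟩, fun σ => (ht σ).2⟩
  · have h1 : X (qR (φ 1)) = (1, fun _ => 1) := by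
      refine Prod.ext ?_ (funext fun σ => ?_)
      · rw [hX1, map_one, Rat.cast_one]
      · rw [hX2, map_one, Prod.snd_one, map_one]
    rw [← h1, X.symm_apply_apply]
    exact h.amp
  · intro q hq
    obtain ⟨e, rfl⟩ : ∃ e, φ e = q := ⟨φ'.symm q, by rw [← hφ', φ'.apply_symm_apply]⟩
    obtain ⟨σ, hσ⟩ := hq
    rw [hX2] at hσ
    have h1 : (π e).2 = 0 := (map_eq_zero σ).1 hσ
    funext σ'
    rw [hX2, h1, map_zero, Pi.zero_apply]
  · obtain ⟨d, hd, z, hz⟩ := datum_clear (φ (π.symm (1, 0)))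
    refine ⟨z, d, by exact_mod_cast hd, ?_⟩
    rw [hz, map_smul]
    refine Prod.ext ?_ (funext fun σ => ?_)
    · rw [Prod.smul_fst, hX1, ← hπ, π.apply_symm_apply, Rat.cast_one, smul_eq_mul, mul_one]
    · rw [Prod.smul_snd, Pi.smul_apply, hX2, π.apply_symm_apply, map_zero, smul_zero]
      rfl
  · obtain ⟨d, hd, z, hz⟩ := datum_clear (fun i => ε (φ'.symm (Pi.single i 1)))
    refine ⟨z, d, by exact_mod_cast hd, fun v => ?_⟩
    rw [hz, smul_dotProduct, smul_eq_mul, hX, hX0]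
    congr 1
    change ∑ i, ((ε (φ'.symm (Pi.single i 1)) : ℚ) : ℝ) * v i = ∑ i, v i * τ0 (φ'.symm (Pi.single i 1))
    refine Finset.sum_congr rfl fun i _ => ?_
    rw [hτ0, mul_comm]

end Pool.Agent.H60.MR
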