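import Pool.Agent.H60.MR.Ptrk

/-!
# [H60 MR Plog] Logarithms in `ℝ ^ n`

`W m` = the span of the vectors `(s.map N).prod A`, `s` a list of length `≥ m`; `N i` maps `W m` to `W (m + 1)`, `W (m + 1) ≤ W m`, `W K = 0`.
`log_ex`: claim `P m` for `m = K, K - 1, …, 1` (descending induction): if `x - A ∈ W m + ℝ F` then `x = Ex K N c A + s F` for some `c`, `s`.
`P K`: `x = A + s F`, `c = 0`.  `P (m + 1) → P m`, `m ≥ 1`: `x - A = Nc N c A + s F` (`bas`; `lam (x - A) = 0`), so
`Nc N c A ∈ W m + ℝ F` (`W m` with `m ≥ 1` and `ℝ F`: `Nc N c A = (x - A) - s F`), `u = Nc N c`, `u (u A) ∈ W (m + 1)` (`u F = 0`).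
`Ex K N (-c) x = A + (terms)`: `Ex K N (-c) A = A - u A + (terms in W (m + 1))` (all `u ^ j A`, `j ≥ 2`, are in `W (m + 1)`),
`Ex K N (-c) (u A) = u A + (terms u ^ j A, j ≥ 2)`, `Ex K N (-c) F = F`.  So `Ex K N (-c) x - A ∈ W (m + 1) + ℝ F` and
`Ex K N (-c) x = Ex K N c' A + s' F`, `x = Ex K N (c + c') A + s' F` (`Ex_add`, `Ex_F`, `Ex_neg`).
`lam x = 1`: `x - A = Nc N c A + s F ∈ W 1 + ℝ F`.
`floor_ex`: `x = Ex K N c A + s F`, `c = tR t + b` (`round_ex`), `act (β (-t)) x = Ex K N (-tR t) x = Ex K N b A + s F`.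
-/

set_option autoImplicit false

namespace Pool.Agent.H60.MR

open Pool.Agent.H57.KM Pool.Agent.H20.FV Pool.Agent.H60.P3

variable {n r K : ℕ} {C : Set (V n)} {G : Subgroup (GL (Fin n) ℤ)} {T : V n →ₗ[ℝ] V n →ₗ[ℝ] V n →ₗ[ℝ] ℝ} {l : V n →ₗ[ℝ] ℝ}
  {β : Multiplicative (Fin r → ℤ) →* GL (Fin n) ℤ} {N : Fin r → Module.End ℝ (V n)} {A F : V n} {lam : V n →ₗ[ℝ] ℝ}

/-- the span of the long words at `A` and of `F` -/
private def Um (N : Fin r → Module.End ℝ (V n)) (A F : V n) (m : ℕ) : Submodule ℝ (V n) :=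
  Submodule.span ℝ ({y | ∃ s : List (Fin r), m ≤ s.length ∧ y = (s.map N).prod A} ∪ {F})

private theorem Um_F (m : ℕ) : F ∈ Um N A F m := Submodule.subset_span (Or.inr rfl)

private theorem Um_le (m : ℕ) : Um N A F (m + 1) ≤ Um N A F m := by
  refine Submodule.span_mono ?_
  rintro y (⟨s, hs, hy⟩ | hy)
  · exact Or.inl ⟨s, by omega, hy⟩
  · exact Or.inr hy

private theorem Um_N (h : PD C β K N A F lam) (m : ℕ) (i : Fin r) {y : V n} (hy : y ∈ Um N A F m) :
    N i y ∈ Um N A F (m + 1) := by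
  refine Submodule.span_induction (p := fun y _ => N i y ∈ Um N A F (m + 1)) ?_ ?_ ?_ ?_ hy
  · rintro y (⟨s, hs, rfl⟩ | hy)
    · refine Submodule.subset_span (Or.inl ⟨i :: s, ?_, ?_⟩)
      · rw [List.length_cons]
        omega
      · rw [List.map_cons, List.prod_cons, Module.End.mul_apply]
    · rw [Set.mem_singleton_iff.1 hy, h.NF i]
      exact Submodule.zero_mem _
  · rw [map_zero]
    exact Submodule.zero_mem _
  · intro a b _ _ ha hb
    rw [map_add]
    exact Submodule.add_mem _ ha hb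
  · intro c a _ ha
    rw [map_smul]
    exact Submodule.smul_mem _ _ ha

private theorem Um_Nc (h : PD C β K N A F lam) (m : ℕ) (c : Fin r → ℝ) {y : V n} (hy : y ∈ Um N A F m) :
    Nc N c y ∈ Um N A F (m + 1) := by
  rw [Nc_apply]
  exact Submodule.sum_mem _ fun i _ => Submodule.smul_mem _ _ (Um_N h m i hy)

private theorem Um_K (h : PD C β K N A F lam) {m : ℕ} (hm : K ≤ m) {y : V n} (hy : y ∈ Um N A F m) :
    ∃ s : ℝ, s • F = y := by
  have h1 : Um N A F m ≤ Submodule.span ℝ {F} := by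
    refine Submodule.span_le.2 ?_
    rintro y (⟨s, hs, rfl⟩ | hy)
    · rw [h.nil s (hm.trans hs)]
      exact Submodule.zero_mem _
    · rw [Set.mem_singleton_iff.1 hy]
      exact Submodule.mem_span_singleton_self F
  exact Submodule.mem_span_singleton.1 (h1 hy)

private theorem Um_pow (h : PD C β K N A F lam) (m : ℕ) (c : Fin r → ℝ) (j : ℕ) {y : V n} (hy : y ∈ Um N A F m) :
    ((Nc N c) ^ j) y ∈ Um N A F m := by
  induction j with
  | zero => exact hy
  | succ j ih =>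
    rw [pow_succ', Module.End.mul_apply]
    exact Um_le m (Um_Nc h m c ih)

private theorem Ex_two (h : PD C β K N A F lam) (m : ℕ) (c : Fin r → ℝ) {y : V n}
    (hy : Nc N c (Nc N c y) ∈ Um N A F m) : Ex K N c y - y - Nc N c y ∈ Um N A F m := by
  have hK : K ≠ 0 := by
    intro h0
    have h1 := h.nil [] (by rw [h0]; exact Nat.zero_le _)
    have h2 : (([] : List (Fin r)).map N).prod F = F := rfl
    rw [h1] at h2
    exact h.F0 h2.symm
  obtain ⟨k, rfl⟩ : ∃ k, K = k + 1 := ⟨K - 1, by omega⟩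
  rcases k with _ | k
  · have h1 : Nc N c = 0 := by
      have h2 := Nc_nil h c
      rwa [zero_add, pow_one] at h2
    have h3 : Ex (0 + 1) N c y = y := by
      unfold Ex
      rw [zero_add, Finset.sum_range_one, pow_zero, Nat.factorial_zero, Nat.cast_one, inv_one, one_smul]
      rfl
    rw [h3, h1, sub_self, LinearMap.zero_apply, sub_zero]
    exact Submodule.zero_mem _
  · have h3 : Ex (k + 1 + 1) N c y - y - Nc N c y =
        ∑ j ∈ Finset.range k, (((j + 1 + 1).factorial : ℝ))⁻¹ • ((Nc N c) ^ j) (Nc N c (Nc N c y)) := by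
      unfold Ex
      rw [Finset.sum_range_succ', Finset.sum_range_succ']
      simp only [LinearMap.add_apply, LinearMap.sum_apply, LinearMap.smul_apply, zero_add, pow_zero, pow_one,
        Nat.factorial_zero, Nat.factorial_one, Nat.cast_one, inv_one, one_smul, Module.End.one_apply]
      have h4 : ∀ j : ℕ, ((Nc N c) ^ (j + 1 + 1)) y = ((Nc N c) ^ j) (Nc N c (Nc N c y)) := by
        intro j
        rw [pow_succ, pow_succ]
        rfl
      simp only [h4]
      abel
    rw [h3]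
    exact Submodule.sum_mem _ fun j _ => Submodule.smul_mem _ _ (Um_pow h m c j hy)

private theorem Nc_neg' (c : Fin r → ℝ) (y : V n) : Nc N (-c) y = -Nc N c y := by
  rw [Nc_apply, Nc_apply, ← Finset.sum_neg_distrib]
  exact Finset.sum_congr rfl fun i _ => by rw [Pi.neg_apply, neg_smul]

private theorem log_aux (h : PD C β K N A F lam) (k : ℕ) : ∀ m : ℕ, K ≤ m + k → ∀ x : V n, lam x = 1 →
    x - A ∈ Um N A F m → ∃ (c : Fin r → ℝ) (s : ℝ), x = Ex K N c A + s • F := by
  induction k with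
  | zero =>
    intro m hm x _ hxm
    obtain ⟨s, hs⟩ := Um_K h (by omega) hxm
    refine ⟨0, s, ?_⟩
    rw [Ex_zero h, hs, Module.End.one_apply, add_sub_cancel]
  | succ k ih =>
    intro m hm x hx hxm
    obtain ⟨c, s, hcs⟩ := h.bas (x - A)
    rw [map_sub, hx, h.lA, sub_self, zero_smul, zero_add] at hcs
    have hx' : x = A + Nc N c A + s • F := by
      rw [add_assoc, ← hcs, add_sub_cancel]
    have h1 : Nc N c A ∈ Um N A F m := by
      have h2 : Nc N c A = (x - A) - s • F := by rw [hcs, add_sub_cancel_right]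
      rw [h2]
      exact Submodule.sub_mem _ hxm (Submodule.smul_mem _ _ (Um_F m))
    have h2 : Nc N c (Nc N c A) ∈ Um N A F (m + 1) := Um_Nc h m c h1
    have h3 : Ex K N (-c) A - A - Nc N (-c) A ∈ Um N A F (m + 1) := by
      refine Ex_two h (m + 1) (-c) ?_
      rw [Nc_neg', Nc_neg', map_neg, neg_neg]
      exact h2
    have h4 : Ex K N (-c) (Nc N c A) - Nc N c A - Nc N (-c) (Nc N c A) ∈ Um N A F (m + 1) := by
      refine Ex_two h (m + 1) (-c) ?_
      rw [Nc_neg', Nc_neg', map_neg, neg_neg]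
      exact Um_le _ (Um_Nc h _ c h2)
    have h5 : Ex K N (-c) x - A ∈ Um N A F (m + 1) := by
      have h6 : Ex K N (-c) x - A = (Ex K N (-c) A - A - Nc N (-c) A) +
          (Ex K N (-c) (Nc N c A) - Nc N c A - Nc N (-c) (Nc N c A)) - Nc N c (Nc N c A) + s • F := by
        rw [hx', map_add, map_add, map_smul, Ex_F h, Nc_neg', Nc_neg']
        abel
      rw [h6]
      exact Submodule.add_mem _ (Submodule.sub_mem _ (Submodule.add_mem _ h3 h4) h2)
        (Submodule.smul_mem _ _ (Um_F _))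
    obtain ⟨c', s', h7⟩ := ih (m + 1) (by omega) (Ex K N (-c) x) (by rw [lam_Ex h, hx]) h5
    refine ⟨c + c', s', ?_⟩
    have h8 := Ex_neg h (-c) x
    rw [neg_neg, h7] at h8
    rw [← h8, map_add, map_smul, Ex_F h, Ex_add h, Module.End.mul_apply]

theorem log_ex (h : PD C β K N A F lam) {x : V n} (hx : lam x = 1) : ∃ (c : Fin r → ℝ) (s : ℝ), x = Ex K N c A + s • F := by
  refine log_aux h K 0 (by omega) x hx ?_
  obtain ⟨c, s, hcs⟩ := h.bas (x - A)
  rw [map_sub, hx, h.lA, sub_self, zero_smul, zero_add] at hcs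
  rw [hcs]
  refine Submodule.add_mem _ (Um_le 0 (Um_Nc h 0 c ?_)) (Submodule.smul_mem _ _ (Um_F 0))
  exact Submodule.subset_span (Or.inl ⟨[], Nat.zero_le _, rfl⟩)

theorem floor_ex (h : PD C β K N A F lam) {x : V n} (hx : lam x = 1) :
    ∃ (t : Fin r → ℤ) (b : Fin r → ℝ) (s : ℝ), (∀ i, 0 ≤ b i ∧ b i ≤ 1) ∧
      act (β (Multiplicative.ofAdd t)) x = Ex K N b A + s • F := by
  obtain ⟨c, s, hcs⟩ := log_ex h hx
  obtain ⟨t, b, hb, htb⟩ := round_ex c 1
  rw [one_smul] at htb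
  refine ⟨-t, b, s, hb, ?_⟩
  have h1 : tR (-t) = -tR t := by
    funext i
    show ((-t i : ℤ) : ℝ) = -(t i : ℝ)
    push_cast
    rfl
  have h2 : b = -tR t + c := by rw [htb, neg_add_cancel_left]
  rw [h.act, h1, hcs, map_add, map_smul, Ex_F h]
  congr 1
  rw [← Module.End.mul_apply, ← Ex_add h, ← h2]

end Pool.Agent.H60.MR
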