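import Pool.Agent.H60.MR.Pray

/-!
# [H60 MR Ptri] The linear form and the trilinear form

`poly_zero`: the polynomial `∑_{j < m} a j X ^ j` has all the integers as roots, so it is zero (`Polynomial.eq_zero_of_infinite_isRoot`).
`l_N`: `l (act (β (k e_i)) x) = l x` (`f.linv`), `act (β (k e_i)) x = ∑_{j < K} (k ^ j / j!) • (N i) ^ j x`: `poly_zero`, coefficient of `k`
(`K ≥ 2` or `N i = 0`; see `Ex_line`).
`l_eq`: `l F = 0` because `F = κ⁻¹ (N i) ^ j A`, `j ≥ 1` (`top`); then `bas`.
`T_FF`: let `i`, `j`, `κ` be as in `top`, `u = N i`, `u ^ (j + 1) A = κ u F = 0`.  For `s ∈ ℕ`, `g = β (s e_i)`: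
`T (g A) (g A) A = T A A (g⁻¹ A)`; `g A = ∑_{a ≤ j} (s ^ a / a!) u ^ a A`, `g⁻¹ A = ∑_{a ≤ j} ((-s) ^ a / a!) u ^ a A`.  Divide by `s ^ (2 j)`, `s → ∞`
(or compare coefficients with `poly_zero`): `T (u ^ j A) (u ^ j A) A = 0` (`2 j > j`), so `T F F A = 0`.  `T F F x ≥ 0` on `closure C`
(`f.nn`, `F ∈ closure C`), `A ∈ C` open: `T F F = 0` (for every `x` there is `e > 0` with `A ± e x ∈ C`).
`T_eq`: `Q x y = T x y F` is symmetric, `Q (g x) (g y) = Q x y` for `g = β (s e_i)` (`g F = F`: `Ex_F`).  Coefficient of `s`: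
`Q (N i x) y + Q x (N i y) = 0` (`poly_zero` for the product of the two sums; or first `y` killed ...; for instance: `Q (g x) (g y)` is a polynomial in
`s` of degree `< 2 K - 1` with linear coefficient `Q (N i x) y + Q x (N i y)`).  By linearity the same for `u = Nc N c`.  `Q F x = T F x F = 0`
(`s12`, `s23`, `T_FF`).  For `u = Nc N c`, `v = Nc N c'`: `Q (u v x) y = Q x (v u y) = Q x (u v y)`; `u v = Nc N c'' + d lam(·) F` (`Nc_mul`):
`Q (u v x) y = Q (Nc N c'' x) y = - Q x (Nc N c'' y) = - Q x (u v y)`.  So `Q (u v x) y = 0`.  `Q (u A) A = - Q A (u A) = - Q (u A) A`, so zero;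
`Q (u A) (v A) = - Q (v u A) A = 0`.  With `bas` for `x` and `y`: `Q x y = lam x lam y Q A A`.
-/

set_option autoImplicit false

namespace Pool.Agent.H60.MR

open Pool.Agent.H57.KM Pool.Agent.H20.FV Pool.Agent.H60.P3

variable {n r K : ℕ} {C : Set (V n)} {G : Subgroup (GL (Fin n) ℤ)} {T : V n →ₗ[ℝ] V n →ₗ[ℝ] V n →ₗ[ℝ] ℝ} {l : V n →ₗ[ℝ] ℝ}
  {β : Multiplicative (Fin r → ℤ) →* GL (Fin n) ℤ} {N : Fin r → Module.End ℝ (V n)} {A F : V n} {lam : V n →ₗ[ℝ] ℝ}

theorem poly_zero {m : ℕ} {a : ℕ → ℝ} (h : ∀ s : ℕ, ∑ j ∈ Finset.range m, a j * (s : ℝ) ^ j = 0) :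
    ∀ j < m, a j = 0 := by
  obtain ⟨P, hP⟩ : ∃ P : Polynomial ℝ, P = ∑ j ∈ Finset.range m, Polynomial.C (a j) * Polynomial.X ^ j :=
    ⟨_, rfl⟩
  have h1 : ∀ s : ℕ, P.eval (s : ℝ) = 0 := fun s => by
    rw [hP, Polynomial.eval_finsetSum, ← h s]
    refine Finset.sum_congr rfl fun j _ => ?_
    rw [Polynomial.eval_mul, Polynomial.eval_C, Polynomial.eval_pow, Polynomial.eval_X]
  have h2 : P = 0 := by
    apply Polynomial.eq_zero_of_infinite_isRoot
    refine Set.Infinite.mono (s := Set.range (fun s : ℕ => (s : ℝ))) ?_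
      (Set.infinite_range_of_injective Nat.cast_injective)
    rintro _ ⟨s, rfl⟩
    exact h1 s
  intro j hj
  have h3 := congrArg (fun Q => Q.coeff j) h2
  simp only [hP, Polynomial.finsetSum_coeff, Polynomial.coeff_C_mul_X_pow, Polynomial.coeff_zero] at h3
  rw [Finset.sum_ite_eq, if_pos (Finset.mem_range.2 hj)] at h3
  exact h3

/-- comparison of the coefficients, double sums -/
private theorem poly_two {m : ℕ} {c : ℕ → ℕ → ℝ} {d : ℕ → ℝ}
    (h : ∀ s : ℕ, ∑ a ∈ Finset.range m, ∑ b ∈ Finset.range m, c a b * (s : ℝ) ^ (a + b) =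
      ∑ e ∈ Finset.range m, d e * (s : ℝ) ^ e) (k : ℕ) :
    ∑ a ∈ Finset.range m, ∑ b ∈ Finset.range m, (if k = a + b then c a b else 0) =
      if k < m then d k else 0 := by
  obtain ⟨P, hP⟩ : ∃ P : Polynomial ℝ, P = (∑ a ∈ Finset.range m, ∑ b ∈ Finset.range m,
      Polynomial.C (c a b) * Polynomial.X ^ (a + b)) -
        ∑ e ∈ Finset.range m, Polynomial.C (d e) * Polynomial.X ^ e := ⟨_, rfl⟩
  have h1 : ∀ s : ℕ, P.eval (s : ℝ) = 0 := fun s => by
    rw [hP, Polynomial.eval_sub, Polynomial.eval_finsetSum, Polynomial.eval_finsetSum, sub_eq_zero]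
    refine Eq.trans (Eq.trans ?_ (h s)) ?_
    · refine Finset.sum_congr rfl fun a _ => ?_
      rw [Polynomial.eval_finsetSum]
      refine Finset.sum_congr rfl fun b _ => ?_
      rw [Polynomial.eval_mul, Polynomial.eval_C, Polynomial.eval_pow, Polynomial.eval_X]
    · refine Finset.sum_congr rfl fun b _ => ?_
      rw [Polynomial.eval_mul, Polynomial.eval_C, Polynomial.eval_pow, Polynomial.eval_X]
  have h2 : P = 0 := by
    apply Polynomial.eq_zero_of_infinite_isRoot
    refine Set.Infinite.mono (s := Set.range (fun s : ℕ => (s : ℝ))) ?_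
      (Set.infinite_range_of_injective Nat.cast_injective)
    rintro _ ⟨s, rfl⟩
    exact h1 s
  have h3 := congrArg (fun Q => Q.coeff k) h2
  simp only [hP, Polynomial.coeff_sub, Polynomial.finsetSum_coeff, Polynomial.coeff_C_mul_X_pow,
    Polynomial.coeff_zero] at h3
  rw [Finset.sum_ite_eq, sub_eq_zero] at h3
  rw [h3]
  simp only [Finset.mem_range]

private theorem tR_single (i : Fin r) (s : ℤ) : tR (Pi.single i s) = (s : ℝ) • (Pi.single i 1 : Fin r → ℝ) := by
  funext j
  unfold tR
  rw [Pi.smul_apply, smul_eq_mul]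
  by_cases hj : j = i
  · subst hj
    rw [Pi.single_eq_same, Pi.single_eq_same, mul_one]
  · rw [Pi.single_eq_of_ne hj, Pi.single_eq_of_ne hj, Int.cast_zero, mul_zero]

/-- the exponential of a multiple of `N i` -/
private theorem Ex_single (K : ℕ) (N : Fin r → Module.End ℝ (V n)) (i : Fin r) (s : ℤ) (x : V n) :
    Ex K N (tR (Pi.single i s)) x =
      ∑ j ∈ Finset.range K, (((j.factorial : ℝ))⁻¹ * (s : ℝ) ^ j) • ((N i) ^ j) x := by
  unfold Ex
  rw [tR_single, Nc_smul, Nc_single, LinearMap.sum_apply]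
  refine Finset.sum_congr rfl fun j _ => ?_
  rw [smul_pow, LinearMap.smul_apply, LinearMap.smul_apply, smul_smul]

private theorem N_zero (h : PD C β K N A F lam) (hK : K < 2) (i : Fin r) (x : V n) : N i x = 0 := by
  have h1 := h.nil [i] (by
    change K ≤ 1
    omega)
  rw [List.map_cons, List.map_nil, List.prod_cons, List.prod_nil, mul_one] at h1
  rw [h1]
  rfl

theorem l_N (f : Fr C G T l) (h : PD C β K N A F lam) (hG : ∀ t, β t ∈ G) (i : Fin r) (x : V n) : l (N i x) = 0 := by
  rcases Nat.lt_or_ge K 2 with hK | hK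
  · rw [N_zero h hK, map_zero]
  · have h1 : ∀ s : ℕ, ∑ j ∈ Finset.range K, (((j.factorial : ℝ))⁻¹ * l (((N i) ^ j) x) -
        (if j = 0 then l x else 0)) * (s : ℝ) ^ j = 0 := by
      intro s
      have h2 := f.linv _ (hG (Multiplicative.ofAdd (Pi.single i (s : ℤ)))) x
      rw [h.act, Ex_single, map_sum] at h2
      have h3 : ∀ j ∈ Finset.range K, (((j.factorial : ℝ))⁻¹ * l (((N i) ^ j) x) -
          (if j = 0 then l x else 0)) * (s : ℝ) ^ j =
          l ((((j.factorial : ℝ))⁻¹ * (((s : ℕ) : ℤ) : ℝ) ^ j) • ((N i) ^ j) x) -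
            (if j = 0 then l x else 0) := by
        intro j _
        rw [map_smul, smul_eq_mul, Int.cast_natCast, sub_mul]
        congr 1
        · ring
        · by_cases hj : j = 0
          · rw [if_pos hj, hj, pow_zero, mul_one]
          · rw [if_neg hj, zero_mul]
      rw [Finset.sum_congr rfl h3, Finset.sum_sub_distrib, h2, Finset.sum_ite_eq',
        if_pos (Finset.mem_range.2 (by omega)), sub_self]
    have h4 := poly_zero h1 1 (by omega)
    rw [if_neg one_ne_zero, sub_zero, pow_one, Nat.factorial_one, Nat.cast_one, inv_one, one_mul] at h4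
    exact h4

theorem l_eq (f : Fr C G T l) (h : PD C β K N A F lam) (hG : ∀ t, β t ∈ G) (x : V n) : l x = lam x * l A := by
  obtain ⟨i, j, κ, hj, hκ, hA, -⟩ := top f h hG
  obtain ⟨j, rfl⟩ := Nat.exists_eq_add_of_le hj
  have h1 : l F = 0 := by
    have h2 : l (κ • F) = 0 := by
      rw [← hA, pow_add, pow_one]
      exact l_N f h hG i _
    rw [map_smul, smul_eq_mul] at h2
    exact (mul_eq_zero.1 h2).resolve_left hκ
  obtain ⟨c, s, hx⟩ := h.bas x
  have h3 : l (Nc N c A) = 0 := by
    rw [Nc_apply, map_sum]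
    refine Finset.sum_eq_zero fun i _ => ?_
    rw [map_smul, l_N f h hG, smul_zero]
  have h4 := congrArg l hx
  rw [map_add, map_add, map_smul, map_smul, h1, h3, smul_zero, add_zero, add_zero, smul_eq_mul] at h4
  exact h4

private theorem T_sum (T : V n →ₗ[ℝ] V n →ₗ[ℝ] V n →ₗ[ℝ] ℝ) {m : ℕ} (a b : ℕ → V n) (α γ : ℕ → ℝ) (z : V n) :
    T (∑ j ∈ Finset.range m, α j • a j) (∑ j ∈ Finset.range m, γ j • b j) z =
      ∑ j ∈ Finset.range m, ∑ k ∈ Finset.range m, α j * γ k * T (a j) (b k) z := by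
  have h1 : T (∑ j ∈ Finset.range m, α j • a j) = ∑ j ∈ Finset.range m, α j • T (a j) := by
    rw [map_sum]
    refine Finset.sum_congr rfl fun j _ => ?_
    rw [map_smul]
  rw [h1, LinearMap.sum_apply, LinearMap.sum_apply]
  refine Finset.sum_congr rfl fun j _ => ?_
  rw [LinearMap.smul_apply, LinearMap.smul_apply, map_sum, LinearMap.sum_apply, Finset.smul_sum]
  refine Finset.sum_congr rfl fun k _ => ?_
  rw [map_smul, LinearMap.smul_apply, smul_eq_mul, smul_eq_mul]
  ring

theorem T_FF (f : Fr C G T l) (h : PD C β K N A F lam) (hG : ∀ t, β t ∈ G) (hF : F ∈ closure C) (x : V n) :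
    T F F x = 0 := by
  -- first the case `x = A`
  have hA0 : T F F A = 0 := by
    obtain ⟨i, j, κ, hj, hκ, hA, -⟩ := top f h hG
    have hz : ∀ a, j < a → ((N i) ^ a) A = 0 := by
      intro a ha
      obtain ⟨b, rfl⟩ := Nat.exists_eq_add_of_lt ha
      rw [show j + b + 1 = b + (1 + j) by omega, pow_add, pow_add, Module.End.mul_apply,
        Module.End.mul_apply, hA, pow_one, map_smul, h.NF, smul_zero, map_zero]
    have hjK : j < K := by
      by_contra hc
      have h1 := h.nil (List.replicate j i) (by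
        rw [List.length_replicate]
        omega)
      rw [List.map_replicate, List.prod_replicate] at h1
      rw [h1] at hA
      rcases smul_eq_zero.1 hA.symm with h2 | h2
      · exact hκ h2
      · exact h.F0 h2
    have hE : ∀ s : ℤ, Ex K N (tR (Pi.single i s)) A =
        ∑ a ∈ Finset.range (j + 1), (((a.factorial : ℝ))⁻¹ * (s : ℝ) ^ a) • ((N i) ^ a) A := by
      intro s
      rw [Ex_single]
      symm
      refine Finset.sum_subset (fun a ha => ?_) fun a _ ha => ?_
      · rw [Finset.mem_range] at ha ⊢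
        omega
      · rw [hz a (by
          rw [Finset.mem_range] at ha
          omega), smul_zero]
    have hp := poly_two (m := j + 1) (c := fun a b => ((a.factorial : ℝ))⁻¹ * ((b.factorial : ℝ))⁻¹ *
        T (((N i) ^ a) A) (((N i) ^ b) A) A)
      (d := fun e => ((e.factorial : ℝ))⁻¹ * (-1) ^ e * T A A (((N i) ^ e) A)) (fun s => by
        have h1 := f.Tinv _ (hG (Multiplicative.ofAdd (Pi.single i (s : ℤ)))) A A
          (act (β (Multiplicative.ofAdd (Pi.single i (-(s : ℤ))))) A)
        have h2 : act (β (Multiplicative.ofAdd (Pi.single i (s : ℤ))))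
            (act (β (Multiplicative.ofAdd (Pi.single i (-(s : ℤ))))) A) = A := by
          have h3 : (tR (Pi.single i (s : ℤ)) : Fin r → ℝ) = -tR (Pi.single i (-(s : ℤ))) := by
            rw [tR_single, tR_single, Int.cast_neg, neg_smul, neg_neg]
          rw [h.act, h.act, h3]
          exact Ex_neg h _ _
        rw [h2, h.act, h.act, hE, hE, T_sum] at h1
        have h4 : T A A (∑ a ∈ Finset.range (j + 1), (((a.factorial : ℝ))⁻¹ * ((-(s : ℤ) : ℤ) : ℝ) ^ a) •
            ((N i) ^ a) A) = ∑ e ∈ Finset.range (j + 1),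
              ((e.factorial : ℝ))⁻¹ * (-1) ^ e * T A A (((N i) ^ e) A) * (s : ℝ) ^ e := by
          rw [map_sum]
          refine Finset.sum_congr rfl fun e _ => ?_
          rw [map_smul, smul_eq_mul, Int.cast_neg, Int.cast_natCast, neg_pow]
          ring
        rw [h4] at h1
        rw [← h1]
        refine Finset.sum_congr rfl fun a _ => Finset.sum_congr rfl fun b _ => ?_
        rw [Int.cast_natCast, pow_add]
        ring) (j + j)
    rw [if_neg (by omega)] at hp
    rw [Finset.sum_eq_single j, Finset.sum_eq_single j, if_pos rfl, hA] at hp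
    · simp only [map_smul, LinearMap.smul_apply, smul_eq_mul] at hp
      have h5 : ((j.factorial : ℝ))⁻¹ ≠ 0 := inv_ne_zero (by exact_mod_cast j.factorial_ne_zero)
      rcases mul_eq_zero.1 hp with h6 | h6
      · exact absurd h6 (mul_ne_zero h5 h5)
      · exact (mul_eq_zero.1 ((mul_eq_zero.1 h6).resolve_left hκ)).resolve_left hκ
    · intro b hb hbj
      rw [if_neg fun h => hbj (by omega)]
    · intro hb
      exact absurd (Finset.mem_range.2 (by omega)) hb
    · intro a ha haj
      refine Finset.sum_eq_zero fun b hb => ?_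
      rw [Finset.mem_range] at ha hb
      rw [if_neg (by omega)]
    · intro hb
      exact absurd (Finset.mem_range.2 (by omega)) hb
  -- `T F F` is nonnegative on `closure C` and zero at the interior point `A`
  obtain ⟨e, he, hball⟩ := Metric.isOpen_iff.1 f.amp.op A h.AC
  obtain ⟨δ, hδ, hδ1, hδ2⟩ : ∃ δ : ℝ, 0 < δ ∧ A + δ • x ∈ C ∧ A - δ • x ∈ C := by
    have hx : 0 < ‖x‖ + 1 := by positivity
    refine ⟨e / (2 * (‖x‖ + 1)), by positivity, hball ?_, hball ?_⟩
    · rw [Metric.mem_ball, dist_eq_norm, add_sub_cancel_left, norm_smul, Real.norm_of_nonneg (by positivity)]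
      calc e / (2 * (‖x‖ + 1)) * ‖x‖ ≤ e / (2 * (‖x‖ + 1)) * (‖x‖ + 1) :=
            mul_le_mul_of_nonneg_left (by linarith) (by positivity)
        _ = e / 2 := by field_simp
        _ < e := by linarith
    · rw [Metric.mem_ball, dist_eq_norm, sub_sub_cancel_left, norm_neg, norm_smul,
        Real.norm_of_nonneg (by positivity)]
      calc e / (2 * (‖x‖ + 1)) * ‖x‖ ≤ e / (2 * (‖x‖ + 1)) * (‖x‖ + 1) :=
            mul_le_mul_of_nonneg_left (by linarith) (by positivity)
        _ = e / 2 := by field_simp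
        _ < e := by linarith
  have h1 := f.nn F hF F hF _ (subset_closure hδ1)
  have h2 := f.nn F hF F hF _ (subset_closure hδ2)
  rw [map_add, hA0, map_smul, zero_add, smul_eq_mul] at h1
  rw [map_sub, hA0, map_smul, zero_sub, smul_eq_mul] at h2
  have h3 : δ * T F F x = 0 := by linarith
  exact (mul_eq_zero.1 h3).resolve_left hδ.ne'

theorem T_der (f : Fr C G T l) (h : PD C β K N A F lam) (hG : ∀ t, β t ∈ G) (i : Fin r) (x y : V n) :
    T (N i x) y F + T x (N i y) F = 0 := by
  rcases Nat.lt_or_ge K 2 with hK | hK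
  · rw [N_zero h hK, N_zero h hK, map_zero, map_zero, LinearMap.zero_apply, LinearMap.zero_apply, add_zero]
  · have hp := poly_two (m := K) (c := fun a b => ((a.factorial : ℝ))⁻¹ * ((b.factorial : ℝ))⁻¹ *
        T (((N i) ^ a) x) (((N i) ^ b) y) F) (d := fun e => if e = 0 then T x y F else 0) (fun s => by
        have h1 := f.Tinv _ (hG (Multiplicative.ofAdd (Pi.single i (s : ℤ)))) x y F
        rw [h.act, h.act, h.act, Ex_F h, Ex_single, Ex_single, T_sum] at h1
        have h2 : ∑ e ∈ Finset.range K, (if e = 0 then T x y F else 0) * (s : ℝ) ^ e = T x y F := by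
          rw [Finset.sum_eq_single 0]
          · rw [if_pos rfl, pow_zero, mul_one]
          · intro b _ hb
            rw [if_neg hb, zero_mul]
          · intro hb
            exact absurd (Finset.mem_range.2 (by omega)) hb
        rw [h2, ← h1]
        refine Finset.sum_congr rfl fun a _ => Finset.sum_congr rfl fun b _ => ?_
        rw [Int.cast_natCast, pow_add]
        ring) 1
    rw [if_pos (by omega), if_neg one_ne_zero] at hp
    obtain ⟨K, rfl⟩ := Nat.exists_eq_add_of_le hK
    rw [show 2 + K = K + 1 + 1 by omega, Finset.sum_range_succ', Finset.sum_range_succ'] at hp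
    have h3 : ∑ k ∈ Finset.range K, ∑ b ∈ Finset.range (K + 1 + 1), (if 1 = k + 1 + 1 + b then
        (((k + 1 + 1).factorial : ℝ))⁻¹ * ((b.factorial : ℝ))⁻¹ *
        T (((N i) ^ (k + 1 + 1)) x) (((N i) ^ b) y) F else 0) = 0 :=
      Finset.sum_eq_zero fun k _ => Finset.sum_eq_zero fun b _ => if_neg (by omega)
    rw [h3, zero_add, Finset.sum_range_succ', Finset.sum_range_succ', Finset.sum_range_succ',
      Finset.sum_range_succ'] at hp
    rw [Finset.sum_eq_zero fun k _ => if_neg (by omega), Finset.sum_eq_zero fun k _ => if_neg (by omega)] at hp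
    simp only [zero_add, add_zero, if_true, Nat.factorial_zero, Nat.factorial_one, Nat.cast_one, inv_one, one_mul,
      pow_zero, pow_one, Module.End.one_apply, one_ne_zero, if_false] at hp
    rw [if_neg (by omega), zero_add] at hp
    exact hp

theorem T_eq (f : Fr C G T l) (h : PD C β K N A F lam) (hG : ∀ t, β t ∈ G) (hF : F ∈ closure C) (x y : V n) :
    T x y F = lam x * lam y * T A A F := by
  have hQF : ∀ x, T F x F = 0 := fun x => by rw [f.s23, T_FF f h hG hF]
  have hQF' : ∀ x, T x F F = 0 := fun x => by rw [f.s12, hQF]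
  have hder : ∀ c x y, T (Nc N c x) y F + T x (Nc N c y) F = 0 := by
    intro c x y
    rw [Nc_apply, Nc_apply, map_sum, map_sum, LinearMap.sum_apply, LinearMap.sum_apply, LinearMap.sum_apply,
      ← Finset.sum_add_distrib]
    refine Finset.sum_eq_zero fun i _ => ?_
    rw [map_smul, map_smul, LinearMap.smul_apply, LinearMap.smul_apply, LinearMap.smul_apply, ← smul_add,
      T_der f h hG, smul_zero]
  have hcom : ∀ c c' x, Nc N c (Nc N c' x) = Nc N c' (Nc N c x) := fun c c' x =>
    congrArg (fun u : Module.End ℝ (V n) => u x) (Nc_comm h c c')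
  have huv : ∀ c c' x y, T x (Nc N c (Nc N c' y)) F = 0 := by
    intro c c' x y
    obtain ⟨c'', d, hm⟩ := Nc_mul h c c'
    have h1 := hder c (Nc N c' x) y
    have h2 := hder c' x (Nc N c y)
    have h3 := hder c'' x y
    rw [hm x, map_add, map_smul, LinearMap.add_apply, LinearMap.add_apply, LinearMap.smul_apply,
      LinearMap.smul_apply, hQF, smul_zero, add_zero] at h1
    have h4 : T x (Nc N c (Nc N c' y)) F = T x (Nc N c'' y) F := by
      rw [hm y, map_add, map_smul, LinearMap.add_apply, LinearMap.smul_apply, hQF', smul_zero, add_zero]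
    rw [hcom c' c y] at h2
    linarith
  have hA1 : ∀ c, T (Nc N c A) A F = 0 := by
    intro c
    have h1 := hder c A A
    rw [f.s12 A (Nc N c A) F] at h1
    linarith
  have hA2 : ∀ c, T A (Nc N c A) F = 0 := fun c => by rw [f.s12, hA1]
  have hA3 : ∀ c c', T (Nc N c A) (Nc N c' A) F = 0 := by
    intro c c'
    have h1 := hder c A (Nc N c' A)
    rw [huv, add_zero] at h1
    exact h1
  obtain ⟨c, s, hx⟩ := h.bas x
  obtain ⟨c', s', hy⟩ := h.bas y
  conv_lhs => rw [hx, hy]
  simp only [map_add, map_smul, LinearMap.add_apply, LinearMap.smul_apply, smul_eq_mul, hQF, hQF', hA1, hA2, hA3,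
    mul_zero, add_zero]
  ring

end Pool.Agent.H60.MR
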