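import Pool.Agent.H60.MR.Pdul
import Pool.Agent.H60.MR.Ptri
import Pool.Agent.H60.MR.Plog
import Pool.Agent.H60.P3.Lin
import Pool.Agent.H60.P3.Cover
import Pool.Agent.H60.P3.Hul

/-!
# [H60 MR Pcov] The parabolic case: `LocAt`, covering, conclusions

* `ploc`: `f.loc`: let `w ∈ closure C`, `w ≠ 0`, `T (p+w)³ = 0`, `l w ≤ 0`: `l w = lam w * l A` (`l_eq`), `lam w ≥ 0` (`lam_nn`), so `lam w = 0`,
  `w = s F` (`ray`), `s > 0` (`F ∈ closure C`, `ray_nn` of `H60/P3/Lin`).  `T (p+w)³ ≥ 3 T p p w = 3 s (lam p)² T A A F > 0` (`T_eq`, `f.pos`; as the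
  end of `H60/P3/ParB`).
* `pcone`: `B = [0, 1] ^ r` compact, for `b ∈ B` `lam (Ex K N b A) = 1` (`lam_Ex`), by `above` some `Ex K N b A + s_b F ∈ C` (open);
  compactness and `C + ℝ≥0 F ⊆ C` (`add_mem` of `H57/KM/Basic`): `s₀ ≥ 0` with `Ex K N b A + s₀ F ∈ closure C` for all `b ∈ B`.
  `M' = {Ex K N b A + s F : b ∈ B, -K' ≤ s ≤ s₀} ∩ closure C` is compact (continuous image of a compact set), where `K'` is such that
  `Ex K N b A + s F ∈ closure C`, `b ∈ B` gives `s ≥ -K'` (as `bdc` in `H60/P3/ParC`: `-F ∉ closure C`, `Ex_bdd`).  `cover` (`H60/P3/Cover`), `ploc`: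
  `S'`; `S = S' ∪ {F}`.  `x ∈ closure C`, `lam x > 0`: scale to `lam x = 1`, `floor_ex`: `y = Ex K N b A + s F`; `s ≤ s₀`: `y ∈ M'`;
  `s > s₀`: `y = (Ex K N b A + s₀ F) + (s - s₀) F`, the first point is in `M'`.
* `par_fin`: WLOG `F ∈ closure C` (`top`, `PD_neg`; `κ • F ∈ closure C`).  `Cov`: `pcone` (`x ∈ C`: `l x > 0`, so `lam x > 0`).  `closure C ⊆ Hull C`:
  `lam x > 0`: `ploc`, `loc_hull`; `lam x = 0`: `ray`, `hull_smul`, `hull_int`.  Existence, all: as `parC_ex`, `parC_all`.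
-/

set_option autoImplicit false

namespace Pool.Agent.H60.MR

open Pool.Agent.H57.KM Pool.Agent.H20.FV Pool.Agent.H60.P3

variable {n r K : ℕ} {C : Set (V n)} {G : Subgroup (GL (Fin n) ℤ)} {T : V n →ₗ[ℝ] V n →ₗ[ℝ] V n →ₗ[ℝ] ℝ} {l : V n →ₗ[ℝ] ℝ}
  {β : Multiplicative (Fin r → ℤ) →* GL (Fin n) ℤ} {N : Fin r → Module.End ℝ (V n)} {A F : V n} {lam : V n →ₗ[ℝ] ℝ}

theorem lam_nn (f : Fr C G T l) (h : PD C β K N A F lam) (hG : ∀ t, β t ∈ G) {x : V n} (hx : x ∈ closure C) :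
    0 ≤ lam x := by
  have h1 := l_nn f hx
  rw [l_eq f h hG] at h1
  exact nonneg_of_mul_nonneg_left h1 (f.lpos A h.AC)

theorem ploc (f : Fr C G T l) (h : PD C β K N A F lam) (hG : ∀ t, β t ∈ G) (hF : F ∈ closure C) {p : V n}
    (hp : p ∈ closure C) (hl : 0 < lam p) : LocAt (closure C) p := by
  have hlA := f.lpos A h.AC
  have hAAF : 0 < T A A F := f.pos A h.AC F hF h.F0
  refine f.loc p hp ?_ ?_
  · rintro rfl
    rw [map_zero] at hl
    exact lt_irrefl _ hl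
  intro w hw hw0 hT
  by_contra hlw
  push Not at hlw
  have hlw0 : lam w = 0 := by
    have h1 := lam_nn f h hG hw
    rw [l_eq f h hG] at hlw
    have h2 : lam w ≤ 0 := by
      by_contra h3
      push Not at h3
      exact absurd hlw (not_le.2 (mul_pos h3 hlA))
    exact le_antisymm h2 h1
  obtain ⟨s, hs⟩ := ray f h hG hw hlw0
  have hs0 : 0 ≤ s := ray_nn f.amp hF h.F0 (hs ▸ hw)
  have hs1 : 0 < s := by
    refine lt_of_le_of_ne hs0 ?_
    rintro rfl
    rw [zero_smul] at hs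
    exact hw0 hs
  have h2 : 0 < T p p w := by
    rw [hs, map_smul, smul_eq_mul, T_eq f h hG hF p p]
    positivity
  simp only [map_add, LinearMap.add_apply] at hT
  have n1 := f.nn p hp p hp p hp
  have n2 := f.nn p hp w hw w hw
  have n3 := f.nn w hw w hw w hw
  have n4 := f.nn p hp w hw p hp
  have n5 := f.nn w hw p hp p hp
  have n6 := f.nn w hw p hp w hw
  have n7 := f.nn w hw w hw p hp
  linarith

/-- the parallelotope -/
theorem box_cpt (r : ℕ) : IsCompact {b : Fin r → ℝ | ∀ i, 0 ≤ b i ∧ b i ≤ 1} := by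
  have h1 : {b : Fin r → ℝ | ∀ i, 0 ≤ b i ∧ b i ≤ 1} = Set.Icc 0 1 := by
    ext b
    simp only [Set.mem_setOf_eq, Set.mem_Icc, Pi.le_def, Pi.zero_apply, Pi.one_apply]
    exact forall_and
  rw [h1]
  exact isCompact_Icc

theorem Ex_contA (K : ℕ) (N : Fin r → Module.End ℝ (V n)) (A : V n) : Continuous fun b : Fin r → ℝ => Ex K N b A := by
  have h1 : Continuous fun b : Fin r → ℝ => ((b, A) : (Fin r → ℝ) × V n) := continuous_id.prodMk continuous_const
  have h2 := Continuous.comp (Ex_cont K N) h1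
  exact h2

theorem pbox (f : Fr C G T l) (h : PD C β K N A F lam) (hG : ∀ t, β t ∈ G) (hF : F ∈ closure C) :
    ∃ s₀ : ℝ, ∀ b : Fin r → ℝ, (∀ i, 0 ≤ b i ∧ b i ≤ 1) → Ex K N b A + s₀ • F ∈ closure C := by
  have hop : ∀ m : ℕ, IsOpen {b : Fin r → ℝ | Ex K N b A + (m : ℝ) • F ∈ C} := fun m =>
    f.amp.op.preimage ((Ex_contA K N A).add continuous_const)
  have hup : ∀ (s s' : ℝ), s ≤ s' → ∀ b : Fin r → ℝ, Ex K N b A + s • F ∈ C → Ex K N b A + s' • F ∈ C := by
    intro s s' hs b hb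
    have h1 := f.amp.add_mem _ (f.amp.closure_smul (s' - s) (sub_nonneg.2 hs) F hF) _ hb
    have h2 : (s' - s) • F + (Ex K N b A + s • F) = Ex K N b A + s' • F := by module
    rwa [h2] at h1
  obtain ⟨m, hm⟩ := (box_cpt r).elim_directed_cover (fun m : ℕ => {b : Fin r → ℝ | Ex K N b A + (m : ℝ) • F ∈ C}) hop
    (by
      intro b _
      have h1 : 0 < lam (Ex K N b A) := by
        rw [lam_Ex h, h.lA]
        exact one_pos
      obtain ⟨s, hs⟩ := above f h hG h1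
      obtain ⟨m, hm⟩ := exists_nat_ge s
      exact Set.mem_iUnion.2 ⟨m, hup s m hm b hs⟩)
    (by
      intro m m'
      refine ⟨max m m', ?_, ?_⟩
      · intro b hb
        exact hup _ _ (by exact_mod_cast le_max_left m m') b hb
      · intro b hb
        exact hup _ _ (by exact_mod_cast le_max_right m m') b hb)
  exact ⟨m, fun b hb => subset_closure (hm hb)⟩

/-- the lower bound -/
theorem plow (f : Fr C G T l) (h : PD C β K N A F lam) (hF : F ∈ closure C) :
    ∃ K' : ℝ, 0 < K' ∧ ∀ (b : Fin r → ℝ) (s : ℝ), (∀ i, 0 ≤ b i ∧ b i ≤ 1) →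
      Ex K N b A + s • F ∈ closure C → -K' ≤ s := by
  have hnF : -F ∉ closure C := fun hc => h.F0 (f.amp.pointed F hF hc)
  obtain ⟨ε, hε, hball⟩ := Metric.isOpen_iff.1 isClosed_closure.isOpen_compl (-F) hnF
  obtain ⟨R, hR⟩ := (box_cpt r).exists_bound_of_continuousOn (Ex_contA K N A).continuousOn
  refine ⟨(|R| + 1) / ε, by positivity, fun b s hb hx => ?_⟩
  by_contra hc
  push Not at hc
  have hcpos : 0 < -s := by
    have : 0 < (|R| + 1) / ε := by positivity
    linarith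
  have h1 : (-s)⁻¹ • (Ex K N b A + s • F) ∈ closure C := f.amp.closure_smul _ (inv_pos.2 hcpos).le _ hx
  refine hball ?_ h1
  rw [Metric.mem_ball, dist_eq_norm]
  have h2 : (-s)⁻¹ • (Ex K N b A + s • F) - -F = (-s)⁻¹ • Ex K N b A := by
    have h3 : (-s)⁻¹ * s = -1 := by
      have : s ≠ 0 := by
        intro h0
        rw [h0] at hcpos
        linarith
      field_simp
    rw [smul_add, smul_smul, h3, neg_smul, one_smul, sub_neg_eq_add, neg_add_cancel_right]
  rw [h2, norm_smul, Real.norm_eq_abs, abs_of_pos (inv_pos.2 hcpos), inv_mul_lt_iff₀ hcpos]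
  have h4 : ‖Ex K N b A‖ ≤ |R| := (hR b hb).trans (le_abs_self R)
  have h5 : (|R| + 1) / ε < -s := by linarith
  rw [div_lt_iff₀ hε] at h5
  linarith

theorem pcone (f : Fr C G T l) (h : PD C β K N A F lam) (hG : ∀ t, β t ∈ G) (hF : F ∈ closure C) :
    ∃ S : Finset (Fin n → ℤ), (∀ s ∈ S, toR s ∈ closure C) ∧
      ∀ x ∈ closure C, 0 < lam x → ∃ t : Fin r → ℤ, act (β (Multiplicative.ofAdd t)) x ∈ cone S := by
  classical
  obtain ⟨s₀, hs₀⟩ := pbox f h hG hF
  obtain ⟨K', hK', hlow⟩ := plow f h hF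
  obtain ⟨dF, hdF⟩ := h.intF
  obtain ⟨M', hM'⟩ : ∃ M' : Set (V n), M' = (fun q : (Fin r → ℝ) × ℝ => Ex K N q.1 A + q.2 • F) ''
      ({b : Fin r → ℝ | ∀ i, 0 ≤ b i ∧ b i ≤ 1} ×ˢ Set.Icc (-K') s₀) ∩ closure C := ⟨_, rfl⟩
  have hMc : IsCompact M' := by
    rw [hM']
    refine (((box_cpt r).prod isCompact_Icc).image ?_).inter_right isClosed_closure
    exact ((Ex_contA K N A).comp continuous_fst).add (continuous_snd.smul continuous_const)
  have hMs : M' ⊆ closure C := by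
    rw [hM']
    exact Set.inter_subset_right
  have hMl : ∀ p ∈ M', 0 < lam p := by
    rw [hM']
    rintro _ ⟨⟨q, _, rfl⟩, _⟩
    show 0 < lam (Ex K N q.1 A + q.2 • F)
    rw [map_add, lam_Ex h, h.lA, map_smul, h.lF, smul_zero, add_zero]
    exact one_pos
  have h0 : (0 : V n) ∉ M' := by
    intro h0
    have h1 := hMl 0 h0
    rw [map_zero] at h1
    exact lt_irrefl _ h1
  obtain ⟨S', hS', hMS⟩ := cover f.amp hMc hMs h0 (fun p hp => ploc f h hG hF (hMs hp) (hMl p hp))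
  refine ⟨S' ∪ {dF}, ?_, ?_⟩
  · intro s hs
    rw [Finset.mem_union, Finset.mem_singleton] at hs
    rcases hs with hs | rfl
    · exact hS' s hs
    · rw [hdF]
      exact hF
  · intro x hx hlx
    have h1 : lam ((lam x)⁻¹ • x) = 1 := by
      rw [map_smul, smul_eq_mul, inv_mul_cancel₀ hlx.ne']
    obtain ⟨t, b, s, hb, he⟩ := floor_ex h h1
    have hy : act (β (Multiplicative.ofAdd t)) ((lam x)⁻¹ • x) ∈ closure C :=
      f.pres.closure _ (hG _) _ (f.amp.closure_smul _ (inv_pos.2 hlx).le _ hx)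
    rw [he] at hy
    have hcone : Ex K N b A + s • F ∈ cone (S' ∪ {dF}) := by
      rcases le_or_gt s s₀ with hs | hs
      · refine cone_mono Finset.subset_union_left (hMS ?_)
        rw [hM']
        exact ⟨⟨(b, s), ⟨hb, hlow b s hb hy, hs⟩, rfl⟩, hy⟩
      · have h2 : Ex K N b A + s • F = (Ex K N b A + s₀ • F) + (s - s₀) • F := by module
        rw [h2]
        refine cone_add (cone_mono Finset.subset_union_left (hMS ?_)) (cone_smul (sub_nonneg.2 hs.le) ?_)
        · rw [hM']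
          exact ⟨⟨(b, s₀), ⟨hb, hlow b s₀ hb (hs₀ b hb), le_rfl⟩, rfl⟩, hs₀ b hb⟩
        · rw [← hdF]
          exact toR_mem_cone (by simp)
    refine ⟨t, ?_⟩
    have h3 : act (β (Multiplicative.ofAdd t)) x = lam x • (Ex K N b A + s • F) := by
      rw [← he, ← act_smul, smul_smul, mul_inv_cancel₀ hlx.ne', one_smul]
    rw [h3]
    exact cone_smul hlx.le hcone

theorem par_fin' (f : Fr C G T l) (h : PD C β K N A F lam) (hG : ∀ t, β t ∈ G) (hF : F ∈ closure C)
    (E : Set (Fin n → ℤ)) : Concl C G l E := by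
  have hlA := f.lpos A h.AC
  obtain ⟨dF, hdF⟩ := h.intF
  have key : ∀ x ∈ closure C, l x = 0 → ∃ c : ℝ, 0 ≤ c ∧ x = c • F := by
    intro x hx hlx
    rw [l_eq f h hG] at hlx
    obtain ⟨c, hc⟩ := ray f h hG hx ((mul_eq_zero.1 hlx).resolve_right hlA.ne')
    exact ⟨c, ray_nn f.amp hF h.F0 (hc ▸ hx), hc⟩
  refine ⟨?_, ?_, ?_, ?_⟩
  · obtain ⟨S, hS, hcov⟩ := pcone f h hG hF
    refine ⟨S, hS, fun x hx => ?_⟩
    have hlx : 0 < lam x := by
      have h1 := f.lpos x hx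
      rw [l_eq f h hG] at h1
      exact (mul_pos_iff_of_pos_right hlA).1 h1
    obtain ⟨t, ht⟩ := hcov x (subset_closure hx) hlx
    refine Set.mem_iUnion₂.2 ⟨(β (Multiplicative.ofAdd t))⁻¹, G.inv_mem (hG _), mem_image_act.2 ?_⟩
    rw [inv_inv]
    exact ht
  · intro x hx _
    rcases (lam_nn f h hG hx).eq_or_lt with h0 | h0
    · obtain ⟨c, hc, hxc⟩ := key x hx (by rw [l_eq f h hG, ← h0, zero_mul])
      rw [hxc, ← hdF]
      refine hull_smul f.amp hc (hull_int ?_)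
      rw [hdF]
      exact hF
    · refine loc_hull f.amp hx ?_ (ploc f h hG hF hx h0)
      intro hx0
      rw [hx0, map_zero] at h0
      exact lt_irrefl _ h0
  · refine ⟨dF, ?_, ?_, ?_⟩
    · rintro rfl
      rw [toR_zero] at hdF
      exact h.F0 hdF.symm
    · rw [hdF]
      exact hF
    · rw [hdF, l_eq f h hG, h.lF, zero_mul]
  · rintro ⟨w, hw, hwC, hlw, hwE⟩ w' hw' hlw'
    obtain ⟨c, hc, hwc⟩ := key _ hwC hlw
    obtain ⟨c', hc', hwc'⟩ := key _ hw' hlw'
    have hc0 : c ≠ 0 := by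
      rintro rfl
      rw [zero_smul] at hwc
      exact toR_ne_zero hw hwc
    have h1 : toR w' = (c' / c) • toR w := by
      rw [hwc', hwc, smul_smul, div_mul_cancel₀ _ hc0]
    rw [h1]
    exact effS_smul (div_nonneg hc' hc) hwE

theorem par_fin (f : Fr C G T l) (h : PD C β K N A F lam) (hG : ∀ t, β t ∈ G) (E : Set (Fin n → ℤ)) : Concl C G l E := by
  obtain ⟨_, _, κ, _, hκ, _, hκF⟩ := top f h hG
  rcases lt_or_gt_of_ne hκ with h1 | h1
  · have h2 : -F ∈ closure C := by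
      have h3 := f.amp.closure_smul (-κ)⁻¹ (inv_pos.2 (neg_pos.2 h1)).le _ hκF
      have e : (-κ)⁻¹ • κ • F = -F := by
        rw [smul_smul, inv_neg, neg_mul, inv_mul_cancel₀ hκ, neg_smul, one_smul]
      rwa [e] at h3
    exact par_fin' f (PD_neg h) hG h2 E
  · have h2 : F ∈ closure C := by
      have h3 := f.amp.closure_smul κ⁻¹ (inv_pos.2 h1).le _ hκF
      have e : κ⁻¹ • κ • F = F := by
        rw [smul_smul, inv_mul_cancel₀ hκ, one_smul]
      rwa [e] at h3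
    exact par_fin' f h hG h2 E

end Pool.Agent.H60.MR
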