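import Pool.Agent.H60.MR.Def

/-!
# [H60 MR Log] Logarithms in the algebra

`E` is a commutative `ℚ`-algebra, `J` an ideal with `J ^ k = ⊥`; `IsNilpotent.exp` of Mathlib.
* `exp_inj`: `u`, `v` nilpotent, `exp u = exp v`: `w = u - v` is nilpotent, `exp w = exp u * exp (-v) = 1`
  (`IsNilpotent.exp_add_of_commute`).  `exp w = 1 + w (1 + nilpotent)` (`w` times `∑_{j ≥ 1} w ^ (j-1) / j!`), so `w = 0` (a unit times
  `w` is zero).
* `log_ex`: for `a - 1 ∈ J` there is `u ∈ J` with `exp u = a`: for every `m ≥ 1` there is `u ∈ J` with `a exp (-u) - 1 ∈ J ^ m`: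
  induction on `m`; `w = a exp (-u) - 1 ∈ J ^ m`, `u' = u + w`: `a exp (-u') - 1 = (1 + w) exp (-w) - 1`, a multiple of `w ^ 2`
  (`exp (-w) = 1 - w + w ^ 2 s`), in `J ^ (2 m) ≤ J ^ (m + 1)`.  For `m = k`: `a exp (-u) = 1`.
* `lg`: `J = ker ε` is nil and finitely generated (`E` is Noetherian), so nilpotent (`Ideal.FG.isNilpotent_iff_le_nilradical` or
  `IsArtinianRing`).  `L t` := the logarithm of `α t` (`α t - 1 ∈ ker ε`).  Additive by `exp_inj`.
-/

set_option autoImplicit false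

namespace Pool.Agent.H60.MR

open Pool.Agent.H57.KM Pool.Agent.H20.FV Pool.Agent.H60.P3

private theorem exp_two {E : Type} [CommRing E] [Algebra ℚ E] {w : E} (hw : IsNilpotent w) :
    ∃ s, IsNilpotent.exp w = 1 + w + w ^ 2 * s := by
  obtain ⟨k, hk⟩ := hw
  have h2 : w ^ (k + 2) = 0 := by rw [pow_add, hk, zero_mul]
  refine ⟨∑ i ∈ Finset.range k, ((i + 2).factorial : ℚ)⁻¹ • w ^ i, ?_⟩
  rw [IsNilpotent.exp_eq_sum h2, Finset.sum_range_succ', Finset.sum_range_succ', Finset.mul_sum]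
  have h3 : ∑ i ∈ Finset.range k, ((i + 1 + 1).factorial : ℚ)⁻¹ • w ^ (i + 1 + 1) =
      ∑ i ∈ Finset.range k, w ^ 2 * (((i + 2).factorial : ℚ)⁻¹ • w ^ i) := by
    refine Finset.sum_congr rfl fun i _ => ?_
    rw [mul_smul_comm, ← pow_add, add_comm 2 i]
  rw [h3]
  simp
  ring

theorem exp_inj {E : Type} [CommRing E] [Algebra ℚ E] {u v : E} (hu : IsNilpotent u) (hv : IsNilpotent v)
    (h : IsNilpotent.exp u = IsNilpotent.exp v) : u = v := by
  have hv' : IsNilpotent (-v) := hv.neg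
  have hw : IsNilpotent (u + -v) := (Commute.all u (-v)).isNilpotent_add hu hv'
  have h1 : IsNilpotent.exp (u + -v) = 1 := by
    rw [IsNilpotent.exp_add_of_commute (Commute.all u (-v)) hu hv', h,
      IsNilpotent.exp_mul_exp_neg_self hv]
  obtain ⟨s, hs⟩ := exp_two hw
  rw [h1] at hs
  have h2 : (u + -v) * (1 + (u + -v) * s) = 0 := by linear_combination -hs
  have h3 : IsUnit (1 + (u + -v) * s) := by
    have h4 : IsNilpotent ((u + -v) * s) := (Commute.all _ _).isNilpotent_mul_right hw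
    exact IsNilpotent.isUnit_one_add h4
  have h5 : u + -v = 0 := (h3.mul_left_eq_zero).1 h2
  linear_combination h5

theorem log_alg {E : Type} [CommRing E] [Algebra ℚ E] {J : Ideal E} {k : ℕ} (hJ : J ^ k = ⊥) {a : E} (ha : a - 1 ∈ J) :
    ∃ u ∈ J, IsNilpotent.exp u = a := by
  have hnil : ∀ x ∈ J, IsNilpotent x := by
    intro x hx
    refine ⟨k, ?_⟩
    have h1 : x ^ k ∈ J ^ k := Ideal.pow_mem_pow hx k
    rw [hJ] at h1
    exact h1
  have key : ∀ m : ℕ, ∃ u ∈ J, a * IsNilpotent.exp (-u) - 1 ∈ J ^ (m + 1) := by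
    intro m
    induction m with
    | zero =>
      refine ⟨0, J.zero_mem, ?_⟩
      rw [neg_zero, IsNilpotent.exp_zero, mul_one, zero_add, pow_one]
      exact ha
    | succ m ih =>
      obtain ⟨u, hu, hw⟩ := ih
      obtain ⟨w, rfl⟩ : ∃ w, w = a * IsNilpotent.exp (-u) - 1 := ⟨_, rfl⟩
      set w := a * IsNilpotent.exp (-u) - 1 with hwd
      have hwJ : w ∈ J := (Ideal.pow_le_self (Nat.succ_ne_zero m)) hw
      refine ⟨u + w, J.add_mem hu hwJ, ?_⟩
      have e1 : -(u + w) = -u + -w := by ring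
      obtain ⟨s, hs⟩ := exp_two (hnil w hwJ).neg
      rw [e1, IsNilpotent.exp_add_of_commute (Commute.all _ _) (hnil u hu).neg (hnil w hwJ).neg, hs]
      have e2 : a * (IsNilpotent.exp (-u) * (1 + -w + (-w) ^ 2 * s)) - 1 =
          w ^ 2 * ((1 + w) * s - 1) := by
        have e3 : a * IsNilpotent.exp (-u) = 1 + w := by rw [hwd]; ring
        linear_combination (1 + -w + (-w) ^ 2 * s) * e3
      rw [e2]
      refine Ideal.mul_mem_right _ _ ?_
      have h2 : w ^ 2 ∈ (J ^ (m + 1)) ^ 2 := Ideal.pow_mem_pow hw 2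
      rw [← pow_mul] at h2
      exact Ideal.pow_le_pow_right (by omega) h2
  obtain ⟨u, hu, hw⟩ := key k
  refine ⟨u, hu, ?_⟩
  have h1 : a * IsNilpotent.exp (-u) - 1 = 0 := by
    have h2 := (Ideal.pow_le_pow_right (Nat.le_succ k)) hw
    rw [hJ] at h2
    exact h2
  have h3 := IsNilpotent.exp_mul_exp_neg_self (hnil u hu)
  linear_combination a * h3 - IsNilpotent.exp u * h1

variable {n r : ℕ} {C : Set (V n)} {l : V n →ₗ[ℝ] ℝ} {β : Multiplicative (Fin r → ℤ) →* GL (Fin n) ℤ}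

theorem lg {E : Type} [CommRing E] [Algebra ℚ E] {α : Multiplicative (Fin r → ℤ) →* Eˣ} {φ : E →ₗ[ℚ] (Fin n → ℚ)}
    {ε : E →ₐ[ℚ] ℚ} (h : ED C l β E α φ ε) (hnil : ∀ z, ε z = 0 → IsNilpotent z) :
    ∃ L : (Fin r → ℤ) →+ E, (∀ t, ε (L t) = 0) ∧
      ∀ t, IsNilpotent.exp (L t) = ((α (Multiplicative.ofAdd t) : Eˣ) : E) := by
  have hfin : Module.Finite ℚ E := h.fin
  have hno : IsNoetherianRing E := IsNoetherianRing.of_finite ℚ E
  set J : Ideal E := RingHom.ker ε with hJ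
  have hmem : ∀ z, z ∈ J ↔ ε z = 0 := fun z => RingHom.mem_ker
  have hJn : IsNilpotent J := by
    have hfg : J.FG := (isNoetherianRing_iff_ideal_fg E).1 hno J
    rw [Ideal.FG.isNilpotent_iff_le_nilradical hfg]
    intro z hz
    rw [mem_nilradical]
    exact hnil z ((hmem z).1 hz)
  obtain ⟨k, hk⟩ := hJn
  have hex : ∀ t : Fin r → ℤ, ∃ u ∈ J, IsNilpotent.exp u = ((α (Multiplicative.ofAdd t) : Eˣ) : E) := by
    intro t
    refine log_alg (k := k) hk ?_
    rw [hmem, map_sub, h.aug, map_one, sub_self]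
  choose L hL1 hL2 using hex
  have hn : ∀ t, IsNilpotent (L t) := fun t => hnil _ ((hmem _).1 (hL1 t))
  refine ⟨⟨⟨L, ?_⟩, ?_⟩, fun t => (hmem _).1 (hL1 t), hL2⟩
  · refine exp_inj (hn 0) (IsNilpotent.zero) ?_
    rw [hL2, IsNilpotent.exp_zero, ofAdd_zero, map_one, Units.val_one]
  · intro s t
    refine exp_inj (hn _) ((Commute.all _ _).isNilpotent_add (hn s) (hn t)) ?_
    rw [IsNilpotent.exp_add_of_commute (Commute.all _ _) (hn s) (hn t), hL2, hL2, hL2, ofAdd_add,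
      map_mul, Units.val_mul]

end Pool.Agent.H60.MR
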