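import Pool.Agent.H60.MR.Def

/-!
# [H60 MR Soc] The socle

`m = ker ε` (a `ℚ`-subspace of dimension `r + 1`, all elements nilpotent; `m ^ k = 0` for some `k`, since `E` is Noetherian),
`U` = the span of `e_i = L (Pi.single i 1)`.
(a) `∑ q_i e_i` with rational `q`: there are `N ≥ 1` and `t : Fin r → ℤ` with `N q = t` and `N ∑ q_i e_i = L t`.
(b) The `e_i` are independent: `∑ q_i e_i = 0` gives `L t = 0`, `α t = exp 0 = 1`, `t = 0` (`ainj`), `q = 0`.
(c) `s = ∑ q_i e_i` with `m s = 0`: `s ^ 2 = 0`, `L t = N s`, `(N s) ^ 2 = 0`, `α t = exp (N s) = 1 + N s` (`IsNilpotent.exp_eq_sum`), so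
`N s = 0` (`cond`), `s = 0`, and `q = 0` by (b).
(d) `S = {s ∈ m | m s = 0}` is not zero: `m ≠ 0` (dimension `r + 1`), `m ^ k ≠ 0 = m ^ (k + 1)` for some `k ≥ 1`, `m ^ k ⊆ S`.
Let `φ0 ∈ S`, `φ0 ≠ 0`.  `φ0 ∉ U` by (c).  So `e_1, …, e_r, φ0` are independent (`r + 1` vectors) in `m`, a basis of `m`.
(e) last claim: `e_i z = 0` for all `i`, `z = ∑ q_j e_j`: then `m z = 0` because `m = U + ℚ φ0` and `φ0 z = 0`; (c) gives `q = 0`.
-/

set_option autoImplicit false

namespace Pool.Agent.H60.MR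

open Pool.Agent.H57.KM Pool.Agent.H20.FV Pool.Agent.H60.P3

variable {n r : ℕ} {C : Set (V n)} {l : V n →ₗ[ℝ] ℝ} {β : Multiplicative (Fin r → ℤ) →* GL (Fin n) ℤ}

theorem soc {E : Type} [CommRing E] [Algebra ℚ E] {α : Multiplicative (Fin r → ℤ) →* Eˣ} {φ : E →ₗ[ℚ] (Fin n → ℚ)}
    {ε : E →ₐ[ℚ] ℚ} (h : ED C l β E α φ ε) (hnil : ∀ z, ε z = 0 → IsNilpotent z) (hfin : Module.finrank ℚ E = r + 2)
    {L : (Fin r → ℤ) →+ E} (hL0 : ∀ t, ε (L t) = 0)
    (hL : ∀ t, IsNilpotent.exp (L t) = ((α (Multiplicative.ofAdd t) : Eˣ) : E)) :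
    ∃ φ0 : E, φ0 ≠ 0 ∧ ε φ0 = 0 ∧ (∀ z, ε z = 0 → φ0 * z = 0) ∧
      (∀ z, ε z = 0 → ∃ (q : Fin r → ℚ) (s : ℚ), z = ∑ i, q i • L (Pi.single i 1) + s • φ0) ∧
      (∀ (q : Fin r → ℚ) (s : ℚ), ∑ i, q i • L (Pi.single i 1) + s • φ0 = 0 → q = 0 ∧ s = 0) ∧
      ∀ q : Fin r → ℚ, (∀ i, L (Pi.single i 1) * ∑ j, q j • L (Pi.single j 1) = 0) → q = 0 := by
  classical
  have hfinE : Module.Finite ℚ E := h.fin
  have hnt : Nontrivial E := by
    refine ⟨⟨0, 1, fun h0 => ?_⟩⟩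
    have h1 := congrArg ε h0
    rw [map_zero, map_one] at h1
    exact zero_ne_one h1
  obtain ⟨e, he⟩ : ∃ e : Fin r → E, ∀ i, e i = L (Pi.single i 1) := ⟨_, fun _ => rfl⟩
  simp only [← he]
  have hLe : ∀ t : Fin r → ℤ, L t = ∑ i, t i • e i := by
    intro t
    conv_lhs => rw [pi_eq_sum_univ' t]
    rw [map_sum]
    refine Finset.sum_congr rfl fun i _ => ?_
    rw [map_zsmul, he]
  have heps : ∀ i, ε (e i) = 0 := fun i => by rw [he, hL0]
  have hepsum : ∀ q : Fin r → ℚ, ε (∑ i, q i • e i) = 0 := by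
    intro q
    rw [map_sum]
    refine Finset.sum_eq_zero fun i _ => ?_
    rw [map_smul, heps, smul_zero]
  have hscale : ∀ q : Fin r → ℚ, ∃ (N : ℕ) (t : Fin r → ℤ), N ≠ 0 ∧ (∀ i, (t i : ℚ) = N * q i) := by
    intro q
    refine ⟨∏ j, (q j).den, fun i => (q i).num * ∏ j ∈ Finset.univ.erase i, ((q j).den : ℤ),
      Finset.prod_ne_zero_iff.2 fun j _ => (q j).den_nz, fun i => ?_⟩
    rw [← Finset.mul_prod_erase Finset.univ (fun j => (q j).den) (Finset.mem_univ i)]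
    push_cast
    have h1 : (q i) * ((q i).den : ℚ) = ((q i).num : ℚ) := Rat.mul_den_eq_num (q i)
    rw [← h1]
    ring
  have hNL : ∀ (q : Fin r → ℚ) (N : ℕ) (t : Fin r → ℤ), (∀ i, (t i : ℚ) = N * q i) →
      L t = (N : ℚ) • ∑ i, q i • e i := by
    intro q N t ht
    rw [hLe, Finset.smul_sum]
    refine Finset.sum_congr rfl fun i _ => ?_
    rw [smul_smul, ← ht i, Int.cast_smul_eq_zsmul]
  have hq0 : ∀ (q : Fin r → ℚ) (N : ℕ) (t : Fin r → ℤ), N ≠ 0 → (∀ i, (t i : ℚ) = N * q i) → t = 0 → q = 0 := by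
    intro q N t hN ht h0
    funext i
    have h1 := ht i
    rw [h0] at h1
    have h2 : (N : ℚ) * q i = 0 := by
      rw [← h1]
      simp
    exact (mul_eq_zero.1 h2).resolve_left (by exact_mod_cast hN)
  -- (b)
  have hb : ∀ q : Fin r → ℚ, ∑ i, q i • e i = 0 → q = 0 := by
    intro q hq
    obtain ⟨N, t, hN, ht⟩ := hscale q
    have h1 := hNL q N t ht
    rw [hq, smul_zero] at h1
    have h2 := hL t
    rw [h1, IsNilpotent.exp_zero] at h2
    have h3 : α (Multiplicative.ofAdd t) = 1 := Units.ext h2.symm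
    have h4 : Multiplicative.ofAdd t = 1 := h.ainj (by rw [h3, map_one])
    exact hq0 q N t hN ht h4
  -- (c)
  have hc : ∀ q : Fin r → ℚ, (∀ z, ε z = 0 → z * ∑ i, q i • e i = 0) → q = 0 := by
    intro q hq
    obtain ⟨N, t, hN, ht⟩ := hscale q
    have h1 := hNL q N t ht
    have h2 := hq _ (hepsum q)
    have h3 : ((N : ℚ) • ∑ i, q i • e i) ^ 2 = 0 := by
      rw [pow_two, smul_mul_smul_comm, h2, smul_zero]
    have h4 := hL t
    rw [h1, IsNilpotent.exp_eq_sum h3, Finset.sum_range_succ, Finset.sum_range_one] at h4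
    have h5 : ((α (Multiplicative.ofAdd t) : Eˣ) : E) = 1 + (N : ℚ) • ∑ i, q i • e i := by
      rw [← h4]
      simp
    have h6 := h.cond _ _ h3 h5
    apply hb
    exact (smul_eq_zero.1 h6).resolve_left (by exact_mod_cast hN)
  -- (d)
  obtain ⟨m, hm⟩ : ∃ m : Ideal E, ∀ z, z ∈ m ↔ ε z = 0 := ⟨RingHom.ker (ε : E →+* ℚ), fun z => RingHom.mem_ker⟩
  have hkerdim : Module.finrank ℚ (LinearMap.ker ε.toLinearMap) = r + 1 := by
    have h1 := LinearMap.finrank_range_add_finrank_ker ε.toLinearMap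
    have h2 : LinearMap.range ε.toLinearMap = ⊤ := by
      rw [LinearMap.range_eq_top]
      intro q
      exact ⟨algebraMap ℚ E q, by
        show ε (algebraMap ℚ E q) = q
        rw [AlgHom.commutes]
        rfl⟩
    rw [h2, finrank_top, Module.finrank_self, hfin] at h1
    omega
  have hm0 : m ≠ ⊥ := by
    intro h0
    have h1 : LinearMap.ker ε.toLinearMap = ⊥ := by
      rw [Submodule.eq_bot_iff]
      intro z hz
      have h2 : z ∈ m := (hm z).2 hz
      rw [h0] at h2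
      exact h2
    rw [h1, finrank_bot] at hkerdim
    omega
  have hnoe : IsNoetherianRing E := IsNoetherianRing.of_finite ℚ E
  have hmn : IsNilpotent m := by
    rw [Ideal.FG.isNilpotent_iff_le_nilradical (IsNoetherian.noetherian m)]
    intro z hz
    exact hnil z ((hm z).1 hz)
  obtain ⟨k, hk, hkmin⟩ : ∃ k, m ^ k = ⊥ ∧ ∀ j < k, m ^ j ≠ ⊥ := by
    have h1 : ∃ k, m ^ k = ⊥ := hmn
    exact ⟨Nat.find h1, Nat.find_spec h1, fun j hj => Nat.find_min h1 hj⟩
  have hk2 : 2 ≤ k := by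
    by_contra h1
    have h2 : k = 0 ∨ k = 1 := by omega
    rcases h2 with h2 | h2
    · rw [h2, pow_zero] at hk
      exact one_ne_zero (α := Ideal E) hk
    · rw [h2, pow_one] at hk
      exact hm0 hk
  obtain ⟨φ0, hφm, hφ0⟩ := Submodule.exists_mem_ne_zero_of_ne_bot (hkmin (k - 1) (by omega))
  have hφ1 : φ0 ∈ m := Ideal.pow_le_self (by omega) hφm
  have hφ2 : ∀ z, ε z = 0 → φ0 * z = 0 := by
    intro z hz
    have h1 : φ0 * z ∈ m ^ (k - 1) * m := Ideal.mul_mem_mul hφm ((hm z).2 hz)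
    rw [← pow_succ, show k - 1 + 1 = k by omega, hk] at h1
    exact h1
  have hind : ∀ (q : Fin r → ℚ) (s : ℚ), ∑ i, q i • e i + s • φ0 = 0 → q = 0 ∧ s = 0 := by
    intro q s hqs
    have hs : s = 0 := by
      by_contra hs
      have h1 : φ0 = ∑ i, (-s⁻¹ * q i) • e i := by
        have h2 : s • φ0 = -∑ i, q i • e i := by
          rw [eq_neg_iff_add_eq_zero, add_comm]
          exact hqs
        calc φ0 = s⁻¹ • (s • φ0) := by rw [smul_smul, inv_mul_cancel₀ hs, one_smul]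
          _ = ∑ i, (-s⁻¹ * q i) • e i := by
            rw [h2, smul_neg, Finset.smul_sum, ← Finset.sum_neg_distrib]
            refine Finset.sum_congr rfl fun i _ => ?_
            rw [smul_smul, ← neg_smul, neg_mul]
      have h3 := hc (fun i => -s⁻¹ * q i) (by
        intro z hz
        show z * ∑ i, (-s⁻¹ * q i) • e i = 0
        rw [← h1, mul_comm]
        exact hφ2 z hz)
      apply hφ0
      rw [h1]
      refine Finset.sum_eq_zero fun i _ => ?_
      rw [show (-s⁻¹ * q i) = 0 from congrFun h3 i, zero_smul]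
    rw [hs, zero_smul, add_zero] at hqs
    exact ⟨hb q hqs, hs⟩
  have hspan : ∀ z, ε z = 0 → ∃ (q : Fin r → ℚ) (s : ℚ), z = ∑ i, q i • e i + s • φ0 := by
    intro z hz
    obtain ⟨Ψ, hΨ⟩ : ∃ Ψ : ((Fin r → ℚ) × ℚ) →ₗ[ℚ] (LinearMap.ker ε.toLinearMap),
        ∀ x, ((Ψ x : LinearMap.ker ε.toLinearMap) : E) = ∑ i, x.1 i • e i + x.2 • φ0 := by
      refine ⟨LinearMap.codRestrict _
        { toFun := fun x => ∑ i, x.1 i • e i + x.2 • φ0
          map_add' := ?_
          map_smul' := ?_ } ?_, fun x => rfl⟩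
      · intro x y
        have h1 : ∑ i, (x + y).1 i • e i = ∑ i, x.1 i • e i + ∑ i, y.1 i • e i := by
          rw [← Finset.sum_add_distrib]
          exact Finset.sum_congr rfl fun i _ => add_smul _ _ _
        rw [h1, Prod.snd_add, add_smul]
        abel
      · intro c x
        have h1 : ∑ i, (c • x).1 i • e i = c • ∑ i, x.1 i • e i := by
          rw [Finset.smul_sum]
          exact Finset.sum_congr rfl fun i _ => mul_smul _ _ _
        rw [h1, Prod.smul_snd, RingHom.id_apply, smul_add, smul_assoc]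
      · intro x
        rw [LinearMap.mem_ker]
        show ε (∑ i, x.1 i • e i + x.2 • φ0) = 0
        rw [map_add, hepsum, map_smul, (hm φ0).1 hφ1, smul_zero, add_zero]
    have hinj : Function.Injective Ψ := by
      rw [← LinearMap.ker_eq_bot, Submodule.eq_bot_iff]
      intro x hx
      have h1 := hΨ x
      rw [LinearMap.mem_ker.1 hx] at h1
      obtain ⟨h2, h3⟩ := hind x.1 x.2 h1.symm
      exact Prod.ext h2 h3
    have hsurj : Function.Surjective Ψ := by
      refine (LinearMap.injective_iff_surjective_of_finrank_eq_finrank ?_).1 hinj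
      rw [hkerdim, Module.finrank_prod, Module.finrank_fin_fun, Module.finrank_self]
    obtain ⟨x, hx⟩ := hsurj ⟨z, hz⟩
    refine ⟨x.1, x.2, ?_⟩
    rw [← hΨ x, hx]
  refine ⟨φ0, hφ0, (hm φ0).1 hφ1, hφ2, hspan, hind, fun q hq => ?_⟩
  apply hc
  intro z hz
  obtain ⟨q', s', hz'⟩ := hspan z hz
  rw [hz', add_mul, Finset.sum_mul]
  have h1 : ∀ i, q' i • e i * ∑ j, q j • e j = 0 := by
    intro i
    rw [smul_mul_assoc, hq i, smul_zero]
  rw [Finset.sum_eq_zero fun i _ => h1 i, zero_add, smul_mul_assoc, hφ2 _ (hepsum q), smul_zero]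

end Pool.Agent.H60.MR
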