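import Pool.Agent.H60.MR.Rex
import Pool.Agent.H60.MR.Log
import Pool.Agent.H60.MR.Soc

/-!
# [H60 MR Pd] The parabolic case in real coordinates

`φ` is bijective (`finrank E = n`): `φ' : E ≃ₗ[ℚ] (Fin n → ℚ)` (`LinearEquiv.ofInjectiveOfFinrankEq`).  `M e := rx (φ' ∘ (multiplication by
e) ∘ φ'⁻¹)`, `M e (qR (φ k)) = qR (φ (e * k))`; `M` is additive and multiplicative (`rx_comp`, `rx_add`), `M (q • e) = q • M e`.
`A = qR (φ 1)`, `e_i = L (Pi.single i 1)`, `N i = M e_i`, `φ0` from `soc`; `D φ (φ0)` is integral for some `D ≥ 1`; `F = D qR (φ φ0)`.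
`lam` = the real linear map with `lam (qR (φ e)) = ε e` (real extension of the rational functional `ε ∘ φ'⁻¹`; as
`∑ i, v i * ε (φ'⁻¹ (Pi.single i 1))`).
* `nil`: the product of `K` elements of `ker ε` is zero (`ker ε` is a nilpotent ideal: `E` is Noetherian, `hnil`).
* `prd`: `e_i e_j = ∑ q_k e_k + s φ0`; `M φ0 x = lam x • qR (φ φ0)` (check on `x = qR (φ k)`: `φ0 k = ε k φ0`, since `k - ε k ∈ ker ε`).
* `bas`: `x ↦ (lam x, c, s)`: the real linear map `(a, c, s) ↦ a A + Nc N c A + s F` from `ℝ × (Fin r → ℝ) × ℝ` has all `qR q` in its range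
  (rational `q`: `φ'⁻¹ q = ε + ∑ q_k e_k + s φ0`), so it is onto (`ext_qR`-type argument: a subspace which contains all the
  `qR q` is everything); same dimension `n = r + 2`, so injective: `inj`.
* `soc`: the rational linear map `q ↦ (e_i ∑ q_j e_j)_i`, `(Fin r → ℚ) → (Fin r → E)`, is injective; the real extension is injective:
  with a left inverse (`LinearMap.exists_leftInverse_of_injective`) `σ`, components `σ_i : E → (Fin r → ℚ)`,
  `q = ∑ i, σ_i (e_i ∑ q_j e_j)`; so for real `c`: `c = ∑ i, rx (σ_i ∘ φ'⁻¹) (N i (Nc N c A))` (both sides are linear in `c` and agree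
  for `c = qR q`).
* `act`: both sides are linear in `x`; on `x = qR (φ k)`: `act (β t) x = qR (φ (α t k))`, `α t = exp (L t) = ∑_{j < K} (L t) ^ j / j!`
  (`IsNilpotent.exp_eq_sum`), `L t = ∑ t i • e_i`, `M (L t) = Nc N (tR t)`.
-/

set_option autoImplicit false

namespace Pool.Agent.H60.MR

open Pool.Agent.H57.KM Pool.Agent.H20.FV Pool.Agent.H60.P3

variable {n r : ℕ} {C : Set (V n)} {l : V n →ₗ[ℝ] ℝ} {β : Multiplicative (Fin r → ℤ) →* GL (Fin n) ℤ}

private theorem qR_add2 {n : ℕ} (a b : Fin n → ℚ) : qR (a + b) = qR a + qR b := by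
  funext i
  simp [qR]

private theorem qR_smul2 {n : ℕ} (c : ℚ) (a : Fin n → ℚ) : qR (c • a) = (c : ℝ) • qR a := by
  funext i
  simp [qR]

private theorem qR_zero2 {n : ℕ} : qR (0 : Fin n → ℚ) = 0 := by
  funext i
  simp [qR]

private theorem qR_sum2 {n : ℕ} {ι : Type} (s : Finset ι) (a : ι → Fin n → ℚ) : qR (∑ i ∈ s, a i) = ∑ i ∈ s, qR (a i) := by
  classical
  induction s using Finset.induction_on with
  | empty => rw [Finset.sum_empty, Finset.sum_empty, qR_zero2]
  | insert i s hi ih => rw [Finset.sum_insert hi, Finset.sum_insert hi, qR_add2, ih]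

private theorem qR_inj2 {n : ℕ} {a b : Fin n → ℚ} (h : (qR a : V n) = qR b) : a = b := by
  funext i
  have := congrFun h i
  simp only [qR] at this
  exact_mod_cast this

section alg

variable {E : Type} [CommRing E] [Algebra ℚ E] (ψ : E ≃ₗ[ℚ] (Fin n → ℚ))

private theorem extE {W : Type} [AddCommGroup W] [Module ℝ W] {f g : V n →ₗ[ℝ] W}
    (h : ∀ k : E, f (qR (ψ k)) = g (qR (ψ k))) : f = g := by
  refine ext_qR fun q => ?_
  have h1 := h (ψ.symm q)
  rwa [LinearEquiv.apply_symm_apply] at h1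

/-- multiplication by `e` in real coordinates -/
private noncomputable def Mu (e : E) : Module.End ℝ (V n) :=
  rx (ψ.toLinearMap ∘ₗ LinearMap.mulLeft ℚ e ∘ₗ ψ.symm.toLinearMap)

private theorem Mu_q (e k : E) : Mu ψ e (qR (ψ k)) = qR (ψ (e * k)) := by
  unfold Mu
  rw [rx_qR]
  simp

/-- as a ring homomorphism -/
private noncomputable def MH : E →+* Module.End ℝ (V n) where
  toFun := Mu ψ
  map_one' := extE ψ fun k => by rw [Mu_q, one_mul]; rfl
  map_zero' := extE ψ fun k => by rw [Mu_q, zero_mul, map_zero, qR_zero2]; rfl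
  map_mul' a b := extE ψ fun k => by
    rw [Mu_q, Module.End.mul_apply, Mu_q, Mu_q, mul_assoc]
  map_add' a b := extE ψ fun k => by
    rw [Mu_q, LinearMap.add_apply, Mu_q, Mu_q, add_mul, map_add, qR_add2]

private theorem MH_q (e k : E) : MH ψ e (qR (ψ k)) = qR (ψ (e * k)) := Mu_q ψ e k

private theorem MH_smul (q : ℚ) (e : E) : MH ψ (q • e) = (q : ℝ) • MH ψ e :=
  extE ψ fun k => by
    rw [MH_q, LinearMap.smul_apply, MH_q, smul_mul_assoc, map_smul, qR_smul2]

/-- a rational functional in real coordinates -/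
private noncomputable def Fu (f : E →ₗ[ℚ] ℚ) : V n →ₗ[ℝ] ℝ :=
  LinearMap.proj (R := ℝ) (φ := fun _ : Fin 1 => ℝ) 0 ∘ₗ rx (LinearMap.pi (fun _ : Fin 1 => f) ∘ₗ ψ.symm.toLinearMap)

private theorem Fu_q (f : E →ₗ[ℚ] ℚ) (k : E) : Fu ψ f (qR (ψ k)) = ((f k : ℚ) : ℝ) := by
  unfold Fu
  rw [LinearMap.comp_apply, rx_qR]
  simp [qR]

end alg

private theorem list_mem {E : Type} [CommRing E] {m : Ideal E} (s : List E) (hs : ∀ x ∈ s, x ∈ m) :
    s.prod ∈ m ^ s.length := by
  induction s with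
  | nil => simp
  | cons x s ih =>
    rw [List.prod_cons, List.length_cons, pow_succ']
    exact Ideal.mul_mem_mul (hs x (by simp)) (ih fun y hy => hs y (by simp [hy]))

theorem pd {E : Type} [CommRing E] [Algebra ℚ E] {α : Multiplicative (Fin r → ℤ) →* Eˣ} {φ : E →ₗ[ℚ] (Fin n → ℚ)}
    {ε : E →ₐ[ℚ] ℚ} (h : ED C l β E α φ ε) (hn : n = r + 2) (hr : 1 ≤ r) (hfin : Module.finrank ℚ E = n)
    (hnil : ∀ z, ε z = 0 → IsNilpotent z) :
    ∃ (K : ℕ) (N : Fin r → Module.End ℝ (V n)) (A F : V n) (lam : V n →ₗ[ℝ] ℝ), PD C β K N A F lam := by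
  classical
  have hfinE : Module.Finite ℚ E := h.fin
  have hnoe : IsNoetherianRing E := IsNoetherianRing.of_finite ℚ E
  obtain ⟨m, hm⟩ : ∃ m : Ideal E, ∀ z, z ∈ m ↔ ε z = 0 := ⟨RingHom.ker (ε : E →+* ℚ), fun z => RingHom.mem_ker⟩
  have hmn : IsNilpotent m := by
    rw [Ideal.FG.isNilpotent_iff_le_nilradical (IsNoetherian.noetherian m)]
    intro z hz
    exact hnil z ((hm z).1 hz)
  obtain ⟨K, hK⟩ := hmn
  obtain ⟨L, hL0, hL⟩ := lg h hnil
  obtain ⟨φ0, hφ0, hφ1, hφ2, hspan, hind, hsoc⟩ := soc h hnil (hfin.trans hn) hL0 hL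
  obtain ⟨ψ, hψ⟩ : ∃ ψ : E ≃ₗ[ℚ] (Fin n → ℚ), ∀ e, ψ e = φ e :=
    ⟨LinearEquiv.ofInjectiveOfFinrankEq φ h.pinj (by rw [hfin, Module.finrank_fin_fun]), fun e => rfl⟩
  obtain ⟨e, he⟩ : ∃ e : Fin r → E, ∀ i, e i = L (Pi.single i 1) := ⟨_, fun _ => rfl⟩
  simp only [← he] at hspan hind hsoc
  have heps : ∀ i, ε (e i) = 0 := fun i => by rw [he, hL0]
  obtain ⟨d, hd, z0, hz0⟩ := datum_clear (ψ φ0)
  have hdR : (d : ℝ) ≠ 0 := by exact_mod_cast hd.ne'
  -- the map `lam`
  obtain ⟨lam, hlam⟩ : ∃ lam : V n →ₗ[ℝ] ℝ, ∀ k, lam (qR (ψ k)) = ((ε k : ℚ) : ℝ) :=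
    ⟨Fu ψ ε.toLinearMap, fun k => Fu_q ψ _ k⟩
  -- `φ0` acts as `lam • φ0`
  have hM0 : ∀ x, MH ψ φ0 x = lam x • qR (ψ φ0) := by
    have h1 : MH ψ φ0 = lam.smulRight (qR (ψ φ0)) := extE ψ fun k => by
      rw [MH_q, LinearMap.smulRight_apply, hlam, ← qR_smul2, ← map_smul]
      congr 2
      have h2 := hφ2 (k - algebraMap ℚ E (ε k)) (by
        rw [map_sub, AlgHom.commutes]
        exact sub_self _)
      rw [mul_sub, sub_eq_zero] at h2
      rw [h2, Algebra.smul_def, mul_comm]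
    intro x
    rw [h1, LinearMap.smulRight_apply]
  have hMN : ∀ c : Fin r → ℚ, MH ψ (∑ i, c i • e i) = Nc (fun i => MH ψ (e i)) (fun i => (c i : ℝ)) := by
    intro c
    rw [map_sum]
    unfold Nc
    exact Finset.sum_congr rfl fun i _ => MH_smul ψ _ _
  have hlN : ∀ i x, lam (MH ψ (e i) x) = 0 := by
    intro i x
    have h1 : lam ∘ₗ (MH ψ (e i)) = 0 := extE ψ fun k => by
      rw [LinearMap.comp_apply, MH_q, hlam, map_mul, heps, zero_mul, Rat.cast_zero]
      rfl
    exact LinearMap.congr_fun h1 x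
  have hlA : lam (qR (ψ 1)) = 1 := by rw [hlam, map_one, Rat.cast_one]
  have hlF : lam ((d : ℝ) • qR (ψ φ0)) = 0 := by rw [map_smul, hlam, hφ1, Rat.cast_zero, smul_zero]
  -- the linear map `(a, c, s) ↦ a A + Nc N c A + s F`
  obtain ⟨Ψ, hΨ⟩ : ∃ Ψ : (ℝ × (Fin r → ℝ) × ℝ) →ₗ[ℝ] V n, ∀ y, Ψ y =
      y.1 • qR (ψ 1) + Nc (fun i => MH ψ (e i)) y.2.1 (qR (ψ 1)) + y.2.2 • ((d : ℝ) • qR (ψ φ0)) := by
    refine ⟨{ toFun := fun y => y.1 • qR (ψ 1) + Nc (fun i => MH ψ (e i)) y.2.1 (qR (ψ 1)) +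
                y.2.2 • ((d : ℝ) • qR (ψ φ0))
              map_add' := ?_
              map_smul' := ?_ }, fun y => rfl⟩
    · intro x y
      have h1 : Nc (fun i => MH ψ (e i)) (x + y).2.1 (qR (ψ 1)) =
          Nc (fun i => MH ψ (e i)) x.2.1 (qR (ψ 1)) + Nc (fun i => MH ψ (e i)) y.2.1 (qR (ψ 1)) := by
        unfold Nc
        rw [LinearMap.sum_apply, LinearMap.sum_apply, LinearMap.sum_apply, ← Finset.sum_add_distrib]
        exact Finset.sum_congr rfl fun i _ => add_smul (x.2.1 i) (y.2.1 i) (MH ψ (e i) (qR (ψ 1)))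
      rw [h1, Prod.fst_add, Prod.snd_add, Prod.snd_add, add_smul, add_smul]
      abel
    · intro c x
      have h1 : Nc (fun i => MH ψ (e i)) (c • x).2.1 (qR (ψ 1)) =
          c • Nc (fun i => MH ψ (e i)) x.2.1 (qR (ψ 1)) := by
        unfold Nc
        rw [LinearMap.sum_apply, LinearMap.sum_apply, Finset.smul_sum]
        exact Finset.sum_congr rfl fun i _ => mul_smul c (x.2.1 i) (MH ψ (e i) (qR (ψ 1)))
      rw [h1, Prod.smul_fst, Prod.smul_snd, Prod.smul_snd, RingHom.id_apply, smul_add, smul_add, smul_assoc, smul_assoc]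
  have hsurj : LinearMap.range Ψ = ⊤ := by
    rw [eq_top_iff]
    intro x _
    have hq : ∀ q : Fin n → ℚ, (qR q : V n) ∈ LinearMap.range Ψ := by
      intro q
      obtain ⟨k, rfl⟩ := ψ.surjective q
      have h0 : ε (k - algebraMap ℚ E (ε k)) = 0 := by
        rw [map_sub, AlgHom.commutes]
        exact sub_self _
      obtain ⟨c, s, hcs⟩ := hspan _ h0
      have hk : k = ε k • (1 : E) + ∑ i, c i • e i + s • φ0 := by
        rw [← Algebra.algebraMap_eq_smul_one, add_assoc, ← hcs]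
        ring
      refine ⟨((ε k : ℚ), fun i => (c i : ℝ), (s : ℝ) * (d : ℝ)⁻¹), ?_⟩
      rw [hΨ]
      have h2 : Nc (fun i => MH ψ (e i)) (fun i => (c i : ℝ)) (qR (ψ 1)) = qR (ψ (∑ i, c i • e i)) := by
        rw [← hMN, MH_q, mul_one]
      show ((ε k : ℚ) : ℝ) • qR (ψ 1) + Nc (fun i => MH ψ (e i)) (fun i => (c i : ℝ)) (qR (ψ 1)) +
        ((s : ℝ) * (d : ℝ)⁻¹) • ((d : ℝ) • qR (ψ φ0)) = qR (ψ k)
      rw [h2, smul_smul, mul_assoc, inv_mul_cancel₀ hdR, mul_one, ← qR_smul2, ← qR_smul2, ← qR_add2, ← qR_add2,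
        ← map_smul, ← map_smul, ← map_add, ← map_add, ← hk]
    have h3 : x = ∑ i, x i • qR (Pi.single i (1 : ℚ)) := by
      funext j
      rw [Finset.sum_apply, Finset.sum_eq_single j]
      · simp [qR]
      · intro i _ hij
        simp [qR, Pi.single_eq_of_ne hij.symm]
      · intro hj
        exact absurd (Finset.mem_univ j) hj
    rw [h3]
    exact Submodule.sum_mem _ fun i _ => Submodule.smul_mem _ _ (hq _)
  have hinj : Function.Injective Ψ := by
    have h1 : Module.finrank ℝ (ℝ × (Fin r → ℝ) × ℝ) = Module.finrank ℝ (V n) := by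
      rw [Module.finrank_prod, Module.finrank_prod, Module.finrank_self, Module.finrank_fin_fun, Module.finrank_fin_fun, hn]
      omega
    exact (LinearMap.injective_iff_surjective_of_finrank_eq_finrank h1).2 (LinearMap.range_eq_top.1 hsurj)
  have hlNc : ∀ (c : Fin r → ℝ) x, lam (Nc (fun i => MH ψ (e i)) c x) = 0 := by
    intro c x
    unfold Nc
    rw [LinearMap.sum_apply, map_sum]
    refine Finset.sum_eq_zero fun i _ => ?_
    rw [LinearMap.smul_apply, map_smul, hlN, smul_zero]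
  have hLe : ∀ t : Fin r → ℤ, L t = ∑ i, (t i : ℚ) • e i := by
    intro t
    conv_lhs => rw [pi_eq_sum_univ' t]
    rw [map_sum]
    refine Finset.sum_congr rfl fun i _ => ?_
    rw [map_zsmul, he, Int.cast_smul_eq_zsmul]
  refine ⟨K, fun i => MH ψ (e i), qR (ψ 1), (d : ℝ) • qR (ψ φ0), lam, ?_⟩
  refine
    { r1 := hr
      AC := by
        rw [hψ]
        exact h.amp
      comm := fun i j => by rw [← map_mul, ← map_mul, mul_comm]
      nil := ?_
      prd := ?_
      NF := ?_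
      lN := hlN
      lA := hlA
      lF := hlF
      F0 := ?_
      bas := ?_
      inj := ?_
      soc := ?_
      act := ?_
      intF := ⟨z0, hz0⟩ }
  · intro s hs
    have h1 : (s.map fun i => MH ψ (e i)) = (s.map e).map (MH ψ) := by rw [List.map_map]; rfl
    rw [h1, ← map_list_prod]
    have h2 : (s.map e).prod ∈ m ^ (s.map e).length := list_mem _ (by
      intro x hx
      obtain ⟨i, _, rfl⟩ := List.mem_map.1 hx
      exact (hm _).2 (heps i))
    rw [List.length_map] at h2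
    have h3 := (Ideal.pow_le_pow_right hs) h2
    rw [hK] at h3
    rw [show (s.map e).prod = 0 from h3, map_zero]
  · intro i j
    obtain ⟨c, s, hcs⟩ := hspan (e i * e j) (by rw [map_mul, heps, zero_mul])
    refine ⟨fun k => (c k : ℝ), (s : ℝ) * (d : ℝ)⁻¹, fun x => ?_⟩
    rw [← Module.End.mul_apply, ← map_mul, hcs, map_add, hMN, MH_smul, LinearMap.add_apply, LinearMap.smul_apply, hM0,
      smul_smul, smul_smul]
    congr 2
    rw [mul_assoc, mul_assoc, mul_comm (lam x) (d : ℝ), ← mul_assoc (d : ℝ)⁻¹, inv_mul_cancel₀ hdR, one_mul]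
  · intro i
    rw [map_smul, MH_q, mul_comm, hφ2 _ (heps i), map_zero, qR_zero2, smul_zero]
  · intro h0
    apply hφ0
    have h1 := (smul_eq_zero.1 h0).resolve_left hdR
    rw [← qR_zero2] at h1
    have h2 := qR_inj2 h1
    exact (map_eq_zero_iff ψ ψ.injective).1 h2
  · intro x
    have h1 : x ∈ LinearMap.range Ψ := by rw [hsurj]; trivial
    obtain ⟨y, rfl⟩ := h1
    refine ⟨y.2.1, y.2.2, ?_⟩
    have h2 : lam (Ψ y) = y.1 := by
      rw [hΨ, map_add, map_add, hlNc, map_smul, hlA, map_smul, hlF, smul_zero, add_zero, add_zero, smul_eq_mul, mul_one]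
    rw [h2, hΨ]
  · intro c s h0
    have h1 : Ψ (0, c, s) = 0 := by
      rw [hΨ, zero_smul, zero_add]
      exact h0
    have h2 := hinj (h1.trans (map_zero Ψ).symm)
    exact ⟨congrArg (fun y => y.2.1) h2, congrArg (fun y => y.2.2) h2⟩
  · intro c hc
    -- the rational map `q ↦ (e i * ∑ q j e j) i`
    obtain ⟨f, hf⟩ : ∃ f : (Fin r → ℚ) →ₗ[ℚ] (Fin (r * n) → ℚ), ∀ q p, f q p =
        ψ (e (finProdFinEquiv.symm p).1 * ∑ j, q j • e j) (finProdFinEquiv.symm p).2 := by
      refine ⟨{ toFun := fun q p => ψ (e (finProdFinEquiv.symm p).1 * ∑ j, q j • e j) (finProdFinEquiv.symm p).2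
                map_add' := ?_
                map_smul' := ?_ }, fun q p => rfl⟩
      · intro q q'
        funext p
        have h1 : ∑ j, (q + q') j • e j = ∑ j, q j • e j + ∑ j, q' j • e j := by
          rw [← Finset.sum_add_distrib]
          exact Finset.sum_congr rfl fun i _ => add_smul _ _ _
        rw [h1, mul_add, map_add]
        rfl
      · intro a q
        funext p
        have h1 : ∑ j, (a • q) j • e j = a • ∑ j, q j • e j := by
          rw [Finset.smul_sum]
          exact Finset.sum_congr rfl fun i _ => mul_smul _ _ _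
        rw [h1, mul_smul_comm, map_smul]
        rfl
    have hfi : Function.Injective f := by
      rw [← LinearMap.ker_eq_bot, LinearMap.ker_eq_bot']
      intro q hq
      apply hsoc
      intro i
      apply ψ.injective
      rw [map_zero]
      funext p
      have h1 := congrFun hq (finProdFinEquiv (i, p))
      rw [hf, Equiv.symm_apply_apply] at h1
      exact h1
    have hrx : ∀ (c : Fin r → ℝ) (p : Fin (r * n)), rx f c p =
        MH ψ (e (finProdFinEquiv.symm p).1) (Nc (fun i => MH ψ (e i)) c (qR (ψ 1))) (finProdFinEquiv.symm p).2 := by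
      intro c p
      obtain ⟨g, hg⟩ : ∃ g : V r →ₗ[ℝ] ℝ, ∀ c, g c =
          MH ψ (e (finProdFinEquiv.symm p).1) (Nc (fun i => MH ψ (e i)) c (qR (ψ 1))) (finProdFinEquiv.symm p).2 := by
        refine ⟨{ toFun := fun c => MH ψ (e (finProdFinEquiv.symm p).1) (Nc (fun i => MH ψ (e i)) c (qR (ψ 1)))
                    (finProdFinEquiv.symm p).2
                  map_add' := ?_
                  map_smul' := ?_ }, fun c => rfl⟩
        · intro c c'
          have h1 : Nc (fun i => MH ψ (e i)) (c + c') (qR (ψ 1)) =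
              Nc (fun i => MH ψ (e i)) c (qR (ψ 1)) + Nc (fun i => MH ψ (e i)) c' (qR (ψ 1)) := by
            unfold Nc
            rw [LinearMap.sum_apply, LinearMap.sum_apply, LinearMap.sum_apply, ← Finset.sum_add_distrib]
            exact Finset.sum_congr rfl fun i _ => add_smul (c i) (c' i) (MH ψ (e i) (qR (ψ 1)))
          rw [h1, map_add]
          rfl
        · intro a c
          have h1 : Nc (fun i => MH ψ (e i)) (a • c) (qR (ψ 1)) = a • Nc (fun i => MH ψ (e i)) c (qR (ψ 1)) := by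
            unfold Nc
            rw [LinearMap.sum_apply, LinearMap.sum_apply, Finset.smul_sum]
            exact Finset.sum_congr rfl fun i _ => mul_smul a (c i) (MH ψ (e i) (qR (ψ 1)))
          rw [h1, map_smul]
          rfl
      have h2 : LinearMap.proj (R := ℝ) (φ := fun _ : Fin (r * n) => ℝ) p ∘ₗ rx f = g := ext_qR fun q => by
        rw [LinearMap.comp_apply, rx_qR, LinearMap.proj_apply, hg]
        have h3 : Nc (fun i => MH ψ (e i)) (qR q) (qR (ψ 1)) = qR (ψ (∑ i, q i • e i)) := by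
          have h4 := hMN q
          rw [show (qR q : V r) = fun i => (q i : ℝ) from rfl, ← h4, MH_q, mul_one]
        rw [h3, MH_q]
        show ((f q p : ℚ) : ℝ) = _
        rw [hf]
        rfl
      rw [← hg c, ← h2]
      rfl
    apply rx_inj hfi
    rw [map_zero]
    funext p
    rw [hrx, hc]
    rfl
  · intro t x
    have hLt : MH ψ (L t) = Nc (fun i => MH ψ (e i)) (tR t) := by
      rw [hLe, hMN]
      congr 1
    have hLK : (L t) ^ K = 0 := by
      have h1 : (L t) ^ K ∈ m ^ K := Ideal.pow_mem_pow ((hm _).2 (hL0 t)) K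
      rw [hK] at h1
      exact h1
    have hEx : Ex K (fun i => MH ψ (e i)) (tR t) = MH ψ ((α (Multiplicative.ofAdd t) : Eˣ) : E) := by
      rw [← hL t, IsNilpotent.exp_eq_sum hLK, map_sum]
      unfold Ex
      refine Finset.sum_congr rfl fun j _ => ?_
      rw [MH_smul, map_pow, hLt]
      congr 1
      push_cast
      rfl
    rw [hEx]
    have h1 : actL (β (Multiplicative.ofAdd t)) = MH ψ ((α (Multiplicative.ofAdd t) : Eˣ) : E) := extE ψ fun k => by
      rw [MH_q, hψ, hψ, h.mul]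
      rfl
    rw [← h1]
    rfl

end Pool.Agent.H60.MR
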