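import Pool.Agent.H60.MR.Def
import Pool.Agent.H57.KM.RedRank
import Pool.Agent.H57.KM.Unip

/-!
# [H60 MR Two] The two cases

`red_rank`, `unip_rank` of `H57/KM` (`ν = dim nilradical`, `u = rank (sub α (nilradical))`, `k` the number of the maximal ideals):
`r + k + ν ≤ u + dim E`, and `+ 1` on the left side if there is a non-real `E → ℂ`; `u ≤ ν`, `u < ν` if the nilradical is not zero.
`dim E ≤ n = r + 2` (`pinj`), `k ≥ 1`.
(1) nilradical `≠ ⊥`: `u + 1 ≤ ν`, so `k = 1`, `dim E = r + 2`, and no non-real embedding.  `ker ε` is a maximal ideal (`ε` is onto a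
field), so it is the only prime ideal and equal to the nilradical: `ker ε` is nil.
(2) nilradical `= ⊥` (`E` is reduced), `k = 1`: `ker ε = nilradical = ⊥`, so `ε` is injective and `dim E ≤ 1`; but `r + 1 ≤ dim E`
and `r ≥ 1`: contradiction.
(3) nilradical `= ⊥`, `k = 2`: `dim E = r + 2`, no non-real embedding.  Let `m` be the maximal ideal different from `ker ε`;
`m ⊓ ker ε = ⊥`, coprime: `E ≃ E ⧸ ker ε × E ⧸ m` (`Ideal.quotientInfEquivQuotientProd`, `RingEquiv.quotientBot`), and
`E ⧸ ker ε ≃ ℚ` by `ε` (`Ideal.quotientKerAlgEquivOfSurjective`).  `F = E ⧸ m` with `Ideal.Quotient.field`; `NumberField F` as in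
`H57/KM/Struct` (`fd_aux`) or `H57/KM/RedRank`.  `finrank ℚ F = r + 1` (`Module.finrank_prod`).  An embedding of `F` into `ℂ` gives
one of `E`, so it is real.
-/

set_option autoImplicit false

namespace Pool.Agent.H60.MR

open Pool.Agent.H57.KM Pool.Agent.H20.FV Pool.Agent.H60.P3 Module

variable {n r : ℕ} {C : Set (V n)} {l : V n →ₗ[ℝ] ℝ} {β : Multiplicative (Fin r → ℤ) →* GL (Fin n) ℤ}

private theorem two_aux {E F : Type} [CommRing E] [Algebra ℚ E] [Module.Finite ℚ E] [Field F] (p : E →+* F)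
    (hp : Function.Surjective p) (ε : E →ₐ[ℚ] ℚ) (hinj : ∀ z, ε z = 0 → p z = 0 → z = 0)
    (hco : ∃ i j, i + j = 1 ∧ ε i = 0 ∧ p j = 0) (hreal : ∀ χ : E →+* ℂ, ∀ e, (χ e).im = 0) {d : ℕ}
    (hd : finrank ℚ E = d + 1) :
    ∃ (_ : NumberField F) (π : E ≃+* ℚ × F), (∀ e, (π e).1 = ε e) ∧ finrank ℚ F = d ∧
      ∀ χ : F →+* ℂ, ∀ k, (χ k).im = 0 := by
  haveI : CharZero F := charZero_of_injective_ringHom (p.comp (algebraMap ℚ E)).injective
  have hfF : Module.Finite ℚ F := Module.Finite.of_surjective p.toRatAlgHom.toLinearMap hp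
  haveI iN : NumberField F := { to_charZero := inferInstance, to_finiteDimensional := hfF }
  obtain ⟨i, j, hij, hi, hj⟩ := hco
  have hbij : Function.Bijective ((ε : E →+* ℚ).prod p) := by
    refine ⟨?_, ?_⟩
    · rw [injective_iff_map_eq_zero]
      intro z hz
      exact hinj z (congrArg Prod.fst hz) (congrArg Prod.snd hz)
    · rintro ⟨q, y⟩
      obtain ⟨b, rfl⟩ := hp y
      refine ⟨algebraMap ℚ E q * j + b * i, Prod.ext ?_ ?_⟩
      · show ε (algebraMap ℚ E q * j + b * i) = q
        have h1 : ε j = 1 := by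
          have h2 := congrArg ε hij
          rw [map_add, hi, zero_add, map_one] at h2
          exact h2
        rw [map_add, map_mul, map_mul, hi, h1, AlgHom.commutes, mul_zero, mul_one, add_zero]
        rfl
      · show p (algebraMap ℚ E q * j + b * i) = p b
        have h1 : p i = 1 := by
          have h2 := congrArg p hij
          rw [map_add, hj, add_zero, map_one] at h2
          exact h2
        rw [map_add, map_mul, map_mul, hj, h1, mul_zero, mul_one, zero_add]
  refine ⟨iN, RingEquiv.ofBijective _ hbij, fun e => rfl, ?_, fun χ k => ?_⟩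
  · have h1 : finrank ℚ E = finrank ℚ (ℚ × F) :=
      LinearEquiv.finrank_eq (LinearEquiv.ofBijective ((ε : E →+* ℚ).prod p).toRatAlgHom.toLinearMap hbij)
    rw [finrank_prod, finrank_self, hd] at h1
    omega
  · obtain ⟨e, rfl⟩ := hp k
    exact hreal (χ.comp p) e

theorem two {E : Type} [CommRing E] [Algebra ℚ E] {α : Multiplicative (Fin r → ℤ) →* Eˣ} {φ : E →ₗ[ℚ] (Fin n → ℚ)}
    {ε : E →ₐ[ℚ] ℚ} (h : ED C l β E α φ ε) (hn : n = r + 2) (hr : 1 ≤ r) :
    finrank ℚ E = n ∧ ((∀ z, ε z = 0 → IsNilpotent z) ∨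
      ∃ (F : Type) (_ : Field F) (_ : NumberField F) (π : E ≃+* ℚ × F), (∀ e, (π e).1 = ε e) ∧ finrank ℚ F = r + 1 ∧
        ∀ χ : F →+* ℂ, ∀ k, (χ k).im = 0) := by
  classical
  haveI hfin : Module.Finite ℚ E := h.fin
  have hart : IsArtinianRing E := IsArtinianRing.of_finite ℚ E
  have hdim : finrank ℚ E ≤ n := by
    have h1 := LinearMap.finrank_le_finrank_of_injective h.pinj
    rwa [finrank_fin_fun] at h1
  obtain ⟨h1, h2⟩ := red_rank α h.int
  obtain ⟨h3, h4⟩ := unip_rank α h.ainj h.cond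
  have hsur : Function.Surjective ε := fun q => ⟨algebraMap ℚ E q, by rw [AlgHom.commutes]; rfl⟩
  have hmax : (RingHom.ker (ε : E →+* ℚ)).IsMaximal := RingHom.ker_isMaximal_of_surjective (ε : E →+* ℚ) hsur
  have hmem : ∀ z, z ∈ RingHom.ker (ε : E →+* ℚ) ↔ ε z = 0 := fun z => RingHom.mem_ker
  obtain ⟨m0, hm0⟩ : ∃ m0 : MaximalSpectrum E, m0.asIdeal = RingHom.ker (ε : E →+* ℚ) := ⟨⟨_, hmax⟩, rfl⟩
  haveI : Nonempty (MaximalSpectrum E) := ⟨m0⟩
  have hk : 0 < Nat.card (MaximalSpectrum E) := Nat.card_pos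
  have hnil : ∀ z : E, (∀ m : MaximalSpectrum E, z ∈ m.asIdeal) → z ∈ nilradical E := by
    intro z hz
    rw [IsArtinianRing.nilradical_eq_iInf, Ideal.mem_iInf]
    exact hz
  by_cases hN : nilradical E = ⊥
  · have hk2 : Nat.card (MaximalSpectrum E) ≠ 1 := by
      intro hk1
      have h5 : Function.Injective ε := by
        rw [injective_iff_map_eq_zero]
        intro z hz
        have h6 : z ∈ nilradical E := by
          refine hnil z fun m => ?_
          have h7 : m = m0 := (Nat.card_eq_one_iff_unique.1 hk1).1.elim m m0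
          rw [h7, hm0]
          exact (hmem z).2 hz
        rw [hN] at h6
        exact h6
      have h8 := LinearMap.finrank_le_finrank_of_injective (f := ε.toLinearMap) h5
      rw [finrank_self] at h8
      omega
    have hk3 : Nat.card (MaximalSpectrum E) = 2 := by omega
    have hE : finrank ℚ E = n := by omega
    refine ⟨hE, Or.inr ?_⟩
    obtain ⟨m, hm, hm2⟩ := (Nat.card_eq_two_iff' m0).1 hk3
    have hreal : ∀ χ : E →+* ℂ, ∀ e, (χ e).im = 0 := by
      by_contra hc
      push Not at hc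
      have h5 := h2 hc
      omega
    haveI := m.isMaximal
    have hne : RingHom.ker (ε : E →+* ℚ) ≠ m.asIdeal := by
      intro h5
      apply hm
      apply MaximalSpectrum.ext
      rw [hm0, h5]
    have hsup := Ideal.IsMaximal.coprime_of_ne hmax m.isMaximal hne
    have h1s : (1 : E) ∈ RingHom.ker (ε : E →+* ℚ) ⊔ m.asIdeal := by
      rw [hsup]
      exact Submodule.mem_top
    obtain ⟨i, hi, j, hj, hij⟩ := Submodule.mem_sup.1 h1s
    letI : Field (E ⧸ m.asIdeal) := Ideal.Quotient.field m.asIdeal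
    have h6 := two_aux (F := E ⧸ m.asIdeal) (Ideal.Quotient.mk m.asIdeal) Ideal.Quotient.mk_surjective ε (by
      intro z hz hz2
      have h7 : z ∈ nilradical E := by
        refine hnil z fun m' => ?_
        by_cases h8 : m' = m0
        · rw [h8, hm0]
          exact (hmem z).2 hz
        · rw [hm2 m' h8]
          exact Ideal.Quotient.eq_zero_iff_mem.1 hz2
      rw [hN] at h7
      exact h7) ⟨i, j, hij, (hmem i).1 hi, Ideal.Quotient.eq_zero_iff_mem.2 hj⟩ hreal (d := r + 1) (by omega)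
    obtain ⟨iN, π, h7, h8, h9⟩ := h6
    exact ⟨E ⧸ m.asIdeal, _, iN, π, h7, h8, h9⟩
  · have h5 := h4 hN
    refine ⟨by omega, Or.inl fun z hz => ?_⟩
    have hk1 : Nat.card (MaximalSpectrum E) = 1 := by omega
    rw [← mem_nilradical]
    refine hnil z fun m => ?_
    have h7 : m = m0 := (Nat.card_eq_one_iff_unique.1 hk1).1.elim m m0
    rw [h7, hm0]
    exact (hmem z).2 hz

end Pool.Agent.H60.MR
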