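import Pool.Agent.H60.MR.Str
import Pool.Agent.H60.MR.Two
import Pool.Agent.H60.MR.Pd
import Pool.Agent.H60.MR.Pcov
import Pool.Agent.H60.MR.Fld
import Pool.Agent.H60.MR.Feff

/-!
# [H60 MR Abs] The abstract theorem of maximal rank
-/

set_option autoImplicit false

namespace Pool.Agent.H60.MR

open Pool.Agent.H57.KM Pool.Agent.H20.FV Pool.Agent.H60.P3

variable {n r : ℕ} {C : Set (V n)} {G : Subgroup (GL (Fin n) ℤ)} {T : V n →ₗ[ℝ] V n →ₗ[ℝ] V n →ₗ[ℝ] ℝ} {l : V n →ₗ[ℝ] ℝ}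
  {β : Multiplicative (Fin r → ℤ) →* GL (Fin n) ℤ}

/-- **the abstract theorem** -/
theorem absMR (f : Fr C G T l) (hn : n = r + 2) (hr : 1 ≤ r) (hβ : Function.Injective β) (hG : ∀ t, β t ∈ G)
    {E : Set (Fin n → ℤ)} (hE : EffD C G T E) : Concl C G l E := by
  obtain ⟨A, _, _, α, φ, ε, h⟩ := str f hβ hG
  obtain ⟨hfin, hnil | ⟨K, _, _, π, hπ, hK, hreal⟩⟩ := two h hn hr
  · obtain ⟨K, N, A, F, lam, hP⟩ := pd h hn hr hfin hnil
    exact par_fin f hP hG E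
  · obtain ⟨ι, _, Θ, g, lam, X, hF⟩ := fld h hG hn hr hfin π hπ hK hreal
    exact fin_fld f hF hE

end Pool.Agent.H60.MR
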