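import Pool.Agent.H60.P3.Hul

/-!
# [H60 MR Def] MAXIMAL RANK (MP_e49dc9_ag): definitions of the abstract theorem and plan

The frame `Fr C G T l` of `H60/P3/Def` for all `n`.  THEOREM (`absMR`): let `n = r + 2`, `r ≥ 1`, and let `β : ℤ ^ r → GL_n(ℤ)` be an
injective homomorphism with values in `G`.  Then `Cov C G`, and the other conclusions of `abs3`.

PLAN (think 1612).
* `Rex`: real extension of rational linear maps.
* `Str`: the `ℚ`-algebra `E` generated by the values of `β`, modulo the annihilator of an ample class; `φ : E → ℚ ^ n` injective,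
  `ε : E → ℚ` with `l (φ e) = ε e l (φ 1)` (structure `ED`).
* `Two`: (P) `ker ε` is nil, or (F) `E = ℚ × F`, `F` a totally real field of degree `r + 1`; `finrank E = n`.
* PARABOLIC CASE.  `Log`: logarithms in `E`.  `Soc`: the socle.  `Pd`: the structure `PD`.  `Pex`: the exponential `Ex`.
  `Plim`: limits.  `Ptrk`: the trick.  `Pray`: nef classes with `lam = 0`.  `Pdul`: functionals.  `Ptri`: `T`, `l`.  `Plog`:
  logarithms in `ℝ ^ n`.  `Pcov`: `LocAt`, `Cov`, `Hull`.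
* FIELD CASE.  `Fld`: the structure `FD`.  `Fort`: coordinates.  `Ftri`: `T`.  `Fcov`: `LocAt`, `Cov`.  `Fsol`: a linear system.
  `Feff`: effective classes.
* `Abs`: `absMR`.
-/

set_option autoImplicit false

namespace Pool.Agent.H60.MR

open Pool.Agent.H57.KM Pool.Agent.H20.FV Pool.Agent.H60.P3

variable {n r : ℕ}

/-- the algebra: `α : ℤ ^ r → Eˣ`, `φ : E → ℚ ^ n` linear, `ε : E → ℚ` -/
structure ED (C : Set (V n)) (l : V n →ₗ[ℝ] ℝ) (β : Multiplicative (Fin r → ℤ) →* GL (Fin n) ℤ) (E : Type) [CommRing E]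
    [Algebra ℚ E] (α : Multiplicative (Fin r → ℤ) →* Eˣ) (φ : E →ₗ[ℚ] (Fin n → ℚ)) (ε : E →ₐ[ℚ] ℚ) : Prop where
  fin : Module.Finite ℚ E
  ainj : Function.Injective α
  pinj : Function.Injective φ
  amp : qR (φ 1) ∈ C
  int : ∀ t, IsIntegral ℤ ((α t : Eˣ) : E)
  cond : ∀ t, ∀ z : E, z ^ 2 = 0 → ((α t : Eˣ) : E) = 1 + z → z = 0
  mul : ∀ t k, qR (φ (((α t : Eˣ) : E) * k)) = act (β t) (qR (φ k))
  aug : ∀ t, ε ((α t : Eˣ) : E) = 1
  lin : ∀ e, l (qR (φ e)) = (ε e : ℝ) * l (qR (φ 1))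

/-- `∑ c i • N i` -/
noncomputable def Nc (N : Fin r → Module.End ℝ (V n)) (c : Fin r → ℝ) : Module.End ℝ (V n) := ∑ i, c i • N i

/-- the exponential of `Nc N c`, if `(Nc N c) ^ K = 0` -/
noncomputable def Ex (K : ℕ) (N : Fin r → Module.End ℝ (V n)) (c : Fin r → ℝ) : Module.End ℝ (V n) :=
  ∑ j ∈ Finset.range K, ((j.factorial : ℝ))⁻¹ • (Nc N c) ^ j

/-- an integral vector as a real vector -/
def tR (t : Fin r → ℤ) : Fin r → ℝ := fun i => (t i : ℝ)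

/-- the parabolic case: commuting nilpotent maps `N i`; the vectors `A`, `N i A`, `F` are a basis of `ℝ ^ n`; `β t = exp (∑ t i N i)` -/
structure PD (C : Set (V n)) (β : Multiplicative (Fin r → ℤ) →* GL (Fin n) ℤ) (K : ℕ) (N : Fin r → Module.End ℝ (V n))
    (A F : V n) (lam : V n →ₗ[ℝ] ℝ) : Prop where
  r1 : 1 ≤ r
  AC : A ∈ C
  comm : ∀ i j, N i * N j = N j * N i
  nil : ∀ s : List (Fin r), K ≤ s.length → (s.map N).prod = 0
  prd : ∀ i j, ∃ (c : Fin r → ℝ) (d : ℝ), ∀ x, N i (N j x) = Nc N c x + (d * lam x) • F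
  NF : ∀ i, N i F = 0
  lN : ∀ i x, lam (N i x) = 0
  lA : lam A = 1
  lF : lam F = 0
  F0 : F ≠ 0
  bas : ∀ x : V n, ∃ (c : Fin r → ℝ) (s : ℝ), x = lam x • A + Nc N c A + s • F
  inj : ∀ (c : Fin r → ℝ) (s : ℝ), Nc N c A + s • F = 0 → c = 0 ∧ s = 0
  soc : ∀ c : Fin r → ℝ, (∀ i, N i (Nc N c A) = 0) → c = 0
  act : ∀ (t : Fin r → ℤ) x, act (β (Multiplicative.ofAdd t)) x = Ex K N (tR t) x
  intF : ∃ d : Fin n → ℤ, toR d = F

/-- the field case: coordinates `(X v).1` and `(X v).2 i`; `g t` is `1` on the first and `lam t i` on the other coordinates -/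
structure FD (C : Set (V n)) (G : Subgroup (GL (Fin n) ℤ)) (ι : Type) [Fintype ι] (Θ : Type) (g : Θ → GL (Fin n) ℤ)
    (lam : Θ → ι → ℝ) (X : V n ≃ₗ[ℝ] (ℝ × (ι → ℝ))) : Prop where
  card : 2 ≤ Fintype.card ι
  gG : ∀ t, g t ∈ G
  pos : ∀ t i, 0 < lam t i
  X0 : ∀ t v, (X (act (g t) v)).1 = (X v).1
  X1 : ∀ t v i, (X (act (g t) v)).2 i = lam t i * (X v).2 i
  cov : ∃ M : ℝ, ∀ y : ι → ℝ, ∑ i, y i = 0 → ∃ t, ∀ i, |Real.log (lam t i) - y i| ≤ M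
  AC : X.symm (1, fun _ => 1) ∈ C
  rat : ∀ q : Fin n → ℚ, (∃ i, (X (qR q)).2 i = 0) → (X (qR q)).2 = 0
  e0 : ∃ (z : Fin n → ℤ) (κ : ℝ), 0 < κ ∧ X (toR z) = (κ, 0)
  hyp : ∃ (z : Fin n → ℤ) (κ : ℝ), 0 < κ ∧ ∀ v, toR z ⬝ᵥ v = κ * (X v).1

/-- the conclusions of the theorem -/
def Concl (C : Set (V n)) (G : Subgroup (GL (Fin n) ℤ)) (l : V n →ₗ[ℝ] ℝ) (E : Set (Fin n → ℤ)) : Prop :=
  Cov C G ∧ (∀ x ∈ closure C, x ∈ EffS E → x ∈ Hull C) ∧
    (∃ w : Fin n → ℤ, w ≠ 0 ∧ toR w ∈ closure C ∧ l (toR w) = 0) ∧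
    ((∃ w : Fin n → ℤ, w ≠ 0 ∧ toR w ∈ closure C ∧ l (toR w) = 0 ∧ toR w ∈ EffS E) →
      ∀ w : Fin n → ℤ, toR w ∈ closure C → l (toR w) = 0 → toR w ∈ EffS E)

end Pool.Agent.H60.MR
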