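import Pool.Agent.H60.MR.Ftri

/-!
# [H60 MR Fcov] The field case: local structure and covering

* `floc`: `p ∈ closure C`, all coordinates (with the first) positive: `LocAt`.  `f.loc`: `w ∈ closure C`, `w ≠ 0`, `T (p+w)³ = 0`, `l w ≤ 0`: `l w = (X w).1 l A`
  (`l_X`), `(X w).1 ≥ 0`, so `(X w).1 = 0`; `T (p+w)³ ≥ 3 T p p w > 0` (`tpos`, `co_nn`, `f.nn`; as the end of `H60/P3/ParB`).
* `floc0`: `p` with `(X p).1 = 0`, all `(X p).2 i > 0`: near `p` the set `closure C` is `{(X q).1 ≥ 0}` (`c0_nn`; conversely, for `q` near `p`, `(X q).1 ≤ (X q).2 i`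
  for all `i`, `co_mem`), given by the integral functional of `FD.hyp`.
* `fcone`: `M` from `cov`; `Q = [exp (-M), exp M]`.  `x ∈ closure C`, `y i = (X x).2 i > 0`: `a` = the mean of `log (y i)`; `t` with `|log (lam t i) - (a - log (y i))| ≤ M`:
  `act (g t) x = exp a • X.symm (s, q)`, `q i ∈ Q`, `s ≥ 0` (as `coco` in `H57/KM/Orth`).  For `R > 0` the set `M' = {X.symm (s, q) : 0 ≤ s ≤ R, q i ∈ Q} ∩ closure C`
  is compact, `0 ∉ M'`, `LocAt` at all its points (`floc`, `floc0`): `cover`: `S'`.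
  (1) `e0 ∈ closure C`: `R = exp (-M)`: if `s ≤ R`: `X.symm (s, q) ∈ M'`; if `s > R`: `X.symm (s, q) = X.symm (R, q) + (s - R) e0`, `X.symm (R, q) ∈ closure C` (`co_mem`):
  `S = S' ∪ {z}` (`FD.e0`, `toR z = κ e0`).
  (2) `e0 ∉ closure C`: there is `R > 0` such that `X.symm (s, q) ∈ closure C`, `q i ∈ Q` gives `s ≤ R`: otherwise `s⁻¹ • X.symm (s, q) = X.symm (1, s⁻¹ q)` is close to
  `e0` (as `bdc` in `H60/P3/ParC`).  `S = S'`.
* `fcov`: `x ∈ C` (`co_pos`), `fcone`.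
* `fex`: `X.symm (0, 1) ∈ closure C` (`co_mem`); `fcone`: `act g x = ∑ c s • toR s`, first coordinates: `0 = ∑ c s (X (toR s)).1`, all terms `≥ 0` (`act` by elements `g`
  of `G`: `l` is invariant, `l_X`), not all `c s • toR s` are zero: some `s` with `toR s ≠ 0`, `(X (toR s)).1 = 0`, `l (toR s) = 0`.
-/

set_option autoImplicit false

namespace Pool.Agent.H60.MR

open Pool.Agent.H57.KM Pool.Agent.H20.FV Pool.Agent.H60.P3

variable {n : ℕ} {C : Set (V n)} {G : Subgroup (GL (Fin n) ℤ)} {T : V n →ₗ[ℝ] V n →ₗ[ℝ] V n →ₗ[ℝ] ℝ} {l : V n →ₗ[ℝ] ℝ}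
  {ι : Type} [Fintype ι] {Θ : Type} {g : Θ → GL (Fin n) ℤ} {lam : Θ → ι → ℝ} {X : V n ≃ₗ[ℝ] (ℝ × (ι → ℝ))}

private theorem contX (X : V n ≃ₗ[ℝ] (ℝ × (ι → ℝ))) : Continuous X :=
  LinearMap.continuous_of_finiteDimensional (X : V n →ₗ[ℝ] (ℝ × (ι → ℝ)))

private theorem contXs (X : V n ≃ₗ[ℝ] (ℝ × (ι → ℝ))) : Continuous X.symm :=
  LinearMap.continuous_of_finiteDimensional (X.symm : (ℝ × (ι → ℝ)) →ₗ[ℝ] V n)

theorem floc (f : Fr C G T l) (h : FD C G ι Θ g lam X) {p : V n} (hp : p ∈ closure C) (hp0 : 0 < (X p).1)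
    (hp1 : ∀ i, 0 < (X p).2 i) : LocAt (closure C) p := by
  refine f.loc p hp ?_ ?_
  · rintro rfl
    rw [map_zero] at hp0
    exact lt_irrefl _ hp0
  intro w hw hw0 hT
  by_contra hlw
  push Not at hlw
  have hA := f.lpos _ h.AC
  have hw1 : (X w).1 = 0 := by
    rw [l_X f h w] at hlw
    have h1 := c0_nn f h hw
    rcases h1.eq_or_lt with h2 | h2
    · exact h2.symm
    · exact absurd (mul_pos h2 hA) (not_lt.2 hlw)
  have h2 := tpos f h hp0 hp1 hw0 hw1 (fun i => co_nn f h hw i)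
  simp only [map_add, LinearMap.add_apply] at hT
  have n1 := f.nn p hp p hp p hp
  have n2 := f.nn p hp w hw w hw
  have n3 := f.nn w hw w hw w hw
  have n4 := f.nn p hp w hw p hp
  have n5 := f.nn w hw p hp p hp
  have n6 := f.nn w hw p hp w hw
  have n7 := f.nn w hw w hw p hp
  linarith

theorem floc0 (f : Fr C G T l) (h : FD C G ι Θ g lam X) {p : V n} (hp0 : (X p).1 = 0) (hp1 : ∀ i, 0 < (X p).2 i) :
    LocAt (closure C) p := by
  obtain ⟨z, κ, hκ, hz⟩ := h.hyp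
  have hU : IsOpen {q : V n | ∀ i, (X q).1 < (X q).2 i} := by
    have : {q : V n | ∀ i, (X q).1 < (X q).2 i} = ⋂ i, {q : V n | (X q).1 < (X q).2 i} := by
      ext v
      simp
    rw [this]
    exact isOpen_iInter_of_finite (fun i =>
      isOpen_lt (continuous_fst.comp (contX X)) ((continuous_apply i).comp (continuous_snd.comp (contX X))))
  obtain ⟨e, he, hball⟩ := Metric.isOpen_iff.1 hU p (fun i => by
    rw [hp0]
    exact hp1 i)
  refine ⟨{z}, e, he, fun q hq => ?_⟩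
  have hq1 : ∀ i, (X q).1 < (X q).2 i := hball (by
    rw [Metric.mem_ball, dist_eq_norm]
    exact hq)
  simp only [Finset.mem_singleton, forall_eq]
  rw [hz q]
  constructor
  · intro hqC
    exact mul_nonneg hκ.le (c0_nn f h hqC)
  · intro hq0
    have h0 : 0 ≤ (X q).1 := nonneg_of_mul_nonneg_right hq0 hκ
    have h1 := co_mem f h h0 (fun i => (hq1 i).le)
    have h2 : X.symm ((X q).1, (X q).2) = q := X.symm_apply_apply q
    rw [← h2]
    exact h1

/-- the compact set `M'` -/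
theorem fbox (f : Fr C G T l) (h : FD C G ι Θ g lam X) (a b R : ℝ) (ha : 0 < a) :
    ∃ S : Finset (Fin n → ℤ), (∀ s ∈ S, toR s ∈ closure C) ∧ ∀ (s : ℝ) (q : ι → ℝ), 0 ≤ s → s ≤ R → (∀ i, a ≤ q i ∧ q i ≤ b) →
      X.symm (s, q) ∈ closure C → X.symm (s, q) ∈ cone S := by
  obtain ⟨M', hM'⟩ : ∃ M' : Set (V n), M' = X.symm ''
      (Set.Icc (0 : ℝ) R ×ˢ Set.pi Set.univ (fun _ : ι => Set.Icc a b)) ∩ closure C := ⟨_, rfl⟩
  have hMc : IsCompact M' := by
    rw [hM']
    exact ((isCompact_Icc.prod (isCompact_univ_pi fun _ => isCompact_Icc)).image (contXs X)).inter_right isClosed_closure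
  have hMs : M' ⊆ closure C := by
    rw [hM']
    exact Set.inter_subset_right
  have hMp : ∀ p ∈ M', 0 ≤ (X p).1 ∧ ∀ i, 0 < (X p).2 i := by
    rw [hM']
    rintro _ ⟨⟨q, hq, rfl⟩, _⟩
    rw [LinearEquiv.apply_symm_apply]
    exact ⟨hq.1.1, fun i => lt_of_lt_of_le ha (hq.2 i (Set.mem_univ i)).1⟩
  have hne : Nonempty ι := Fintype.card_pos_iff.1 (lt_of_lt_of_le two_pos h.card)
  have h0 : (0 : V n) ∉ M' := by
    intro h0
    have h1 := (hMp 0 h0).2 (Classical.choice hne)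
    rw [map_zero] at h1
    exact lt_irrefl _ h1
  obtain ⟨S', hS', hMS⟩ := cover f.amp hMc hMs h0 (fun p hp => by
    obtain ⟨h1, h2⟩ := hMp p hp
    rcases h1.eq_or_lt with h3 | h3
    · exact floc0 f h h3.symm h2
    · exact floc f h (hMs hp) h3 h2)
  refine ⟨S', hS', fun s q hs hsR hq hC => hMS ?_⟩
  rw [hM']
  exact ⟨⟨(s, q), ⟨⟨hs, hsR⟩, fun i _ => hq i⟩, rfl⟩, hC⟩

/-- all the points, without bound on the first coordinate -/
theorem fbox' (f : Fr C G T l) (h : FD C G ι Θ g lam X) (a b : ℝ) (ha : 0 < a) :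
    ∃ S : Finset (Fin n → ℤ), (∀ s ∈ S, toR s ∈ closure C) ∧ ∀ (s : ℝ) (q : ι → ℝ), (∀ i, a ≤ q i ∧ q i ≤ b) →
      X.symm (s, q) ∈ closure C → X.symm (s, q) ∈ cone S := by
  classical
  by_cases he : X.symm ((1 : ℝ), (0 : ι → ℝ)) ∈ closure C
  · obtain ⟨S, hS, hbox⟩ := fbox f h a b a ha
    obtain ⟨z, κ, hκ, hz⟩ := h.e0
    have hze : toR z = κ • X.symm ((1 : ℝ), (0 : ι → ℝ)) := by
      apply X.injective
      rw [hz, map_smul, LinearEquiv.apply_symm_apply, Prod.smul_mk, smul_eq_mul, mul_one, smul_zero]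
    refine ⟨S ∪ {z}, ?_, fun s q hq hC => ?_⟩
    · intro s hs
      rw [Finset.mem_union, Finset.mem_singleton] at hs
      rcases hs with hs | rfl
      · exact hS s hs
      · rw [hze]
        exact f.amp.closure_smul _ hκ.le _ he
    · have hs0 : 0 ≤ s := by
        have h1 := c0_nn f h hC
        rwa [LinearEquiv.apply_symm_apply] at h1
      rcases le_or_gt s a with hsa | hsa
      · exact cone_mono Finset.subset_union_left (hbox s q hs0 hsa hq hC)
      · have h1 : X.symm (s, q) = X.symm (a, q) + ((s - a) / κ) • toR z := by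
          apply X.injective
          rw [map_add, map_smul, hz, LinearEquiv.apply_symm_apply, LinearEquiv.apply_symm_apply, Prod.smul_mk,
            smul_eq_mul, div_mul_cancel₀ _ hκ.ne', smul_zero, Prod.mk_add_mk, add_zero]
          congr 1
          ring
        rw [h1]
        refine cone_add (cone_mono Finset.subset_union_left (hbox a q ha.le le_rfl hq ?_))
          (cone_smul (div_nonneg (sub_pos.2 hsa).le hκ.le) (toR_mem_cone (by simp)))
        exact co_mem f h ha.le (fun i => (hq i).1)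
  · obtain ⟨ε, hε, hball⟩ := Metric.isOpen_iff.1 isClosed_closure.isOpen_compl _ he
    obtain ⟨B, hB⟩ := (isCompact_univ_pi (fun _ : ι => isCompact_Icc (a := a) (b := b))).exists_bound_of_continuousOn
      (f := fun q : ι → ℝ => X.symm ((0 : ℝ), q))
      (((contXs X).comp (continuous_const.prodMk continuous_id)).continuousOn)
    obtain ⟨S, hS, hbox⟩ := fbox f h a b (|B| / ε) ha
    refine ⟨S, hS, fun s q hq hC => ?_⟩
    have hs0 : 0 ≤ s := by
      have h1 := c0_nn f h hC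
      rwa [LinearEquiv.apply_symm_apply] at h1
    refine hbox s q hs0 ?_ hq hC
    by_contra hs
    rw [not_le] at hs
    have hs1 : 0 < s := lt_of_le_of_lt (div_nonneg (abs_nonneg B) hε.le) hs
    have h1 : s⁻¹ • X.symm (s, q) ∈ closure C := f.amp.closure_smul _ (inv_pos.2 hs1).le _ hC
    refine hball ?_ h1
    rw [Metric.mem_ball, dist_eq_norm]
    have h2 : s⁻¹ • X.symm (s, q) - X.symm ((1 : ℝ), (0 : ι → ℝ)) = s⁻¹ • X.symm ((0 : ℝ), q) := by
      apply X.injective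
      rw [map_sub, map_smul, map_smul, LinearEquiv.apply_symm_apply, LinearEquiv.apply_symm_apply,
        LinearEquiv.apply_symm_apply, Prod.smul_mk, Prod.smul_mk, Prod.mk_sub_mk, smul_eq_mul, inv_mul_cancel₀ hs1.ne',
        sub_self, sub_zero, smul_zero]
    rw [h2, norm_smul, Real.norm_eq_abs, abs_of_pos (inv_pos.2 hs1), inv_mul_lt_iff₀ hs1]
    have h3 : ‖X.symm ((0 : ℝ), q)‖ ≤ B := hB q (fun i _ => hq i)
    rw [div_lt_iff₀ hε] at hs
    exact lt_of_le_of_lt (h3.trans (le_abs_self B)) hs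

/-- normalization by the group -/
theorem fnorm (h : FD C G ι Θ g lam X) : ∃ a b : ℝ, 0 < a ∧ ∀ x : V n, (∀ i, 0 < (X x).2 i) →
    ∃ (t : Θ) (c : ℝ), 0 < c ∧ ∀ i, a ≤ (X (c • act (g t) x)).2 i ∧ (X (c • act (g t) x)).2 i ≤ b := by
  obtain ⟨M, hcov⟩ := h.cov
  refine ⟨Real.exp (-M), Real.exp M, Real.exp_pos _, fun x hx => ?_⟩
  have hk : (0 : ℝ) < Fintype.card ι := by exact_mod_cast lt_of_lt_of_le two_pos h.card
  obtain ⟨a, ha⟩ : ∃ a : ℝ, ∑ i, (a - Real.log ((X x).2 i)) = 0 := by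
    refine ⟨(∑ i, Real.log ((X x).2 i)) / Fintype.card ι, ?_⟩
    rw [Finset.sum_sub_distrib, Finset.sum_const, Finset.card_univ, nsmul_eq_mul]
    field_simp
    ring
  obtain ⟨t, ht⟩ := hcov _ ha
  refine ⟨t, Real.exp (-a), Real.exp_pos _, fun i => ?_⟩
  have h1 := abs_le.1 (ht i)
  have h2 : (X (Real.exp (-a) • act (g t) x)).2 i =
      Real.exp (Real.log (lam t i) + Real.log ((X x).2 i) - a) := by
    rw [map_smul, Prod.smul_snd, Pi.smul_apply, smul_eq_mul, h.X1, sub_eq_add_neg, Real.exp_add _ (-a), Real.exp_add,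
      Real.exp_log (h.pos t i), Real.exp_log (hx i)]
    ring
  rw [h2]
  constructor
  · apply Real.exp_le_exp.2
    linarith [h1.1]
  · apply Real.exp_le_exp.2
    linarith [h1.2]

theorem fcone (f : Fr C G T l) (h : FD C G ι Θ g lam X) :
    ∃ S : Finset (Fin n → ℤ), (∀ s ∈ S, toR s ∈ closure C) ∧
      ∀ x ∈ closure C, (∀ i, 0 < (X x).2 i) → ∃ t, act (g t) x ∈ cone S := by
  obtain ⟨a, b, ha, hn⟩ := fnorm h
  obtain ⟨S, hS, hbox⟩ := fbox' f h a b ha
  refine ⟨S, hS, fun x hx hpos => ?_⟩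
  obtain ⟨t, c, hc, hq⟩ := hn x hpos
  refine ⟨t, ?_⟩
  have h1 : c • act (g t) x ∈ closure C := f.amp.closure_smul _ hc.le _ (f.pres.closure _ (h.gG t) x hx)
  have h2 : X.symm ((X (c • act (g t) x)).1, (X (c • act (g t) x)).2) = c • act (g t) x := X.symm_apply_apply _
  have h3 := hbox (X (c • act (g t) x)).1 (X (c • act (g t) x)).2 hq (by rw [h2]; exact h1)
  rw [h2] at h3
  have h4 : act (g t) x = c⁻¹ • c • act (g t) x := by
    rw [smul_smul, inv_mul_cancel₀ hc.ne', one_smul]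
  rw [h4]
  exact cone_smul (inv_pos.2 hc).le h3

theorem fcov (f : Fr C G T l) (h : FD C G ι Θ g lam X) : Cov C G := by
  obtain ⟨S, hS, hc⟩ := fcone f h
  refine ⟨S, hS, fun x hx => ?_⟩
  obtain ⟨t, ht⟩ := hc x (subset_closure hx) (fun i => co_pos f h hx i)
  refine Set.mem_iUnion₂.2 ⟨(g t)⁻¹, G.inv_mem (h.gG t), mem_image_act.2 ?_⟩
  rw [inv_inv]
  exact ht

theorem fex (f : Fr C G T l) (h : FD C G ι Θ g lam X) :
    ∃ w : Fin n → ℤ, w ≠ 0 ∧ toR w ∈ closure C ∧ l (toR w) = 0 := by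
  classical
  obtain ⟨S, hS, hc⟩ := fcone f h
  obtain ⟨x, hxd⟩ : ∃ x : V n, x = X.symm ((0 : ℝ), fun _ : ι => (1 : ℝ)) := ⟨_, rfl⟩
  have hX : X x = ((0 : ℝ), fun _ : ι => (1 : ℝ)) := by rw [hxd, LinearEquiv.apply_symm_apply]
  have hx : x ∈ closure C := by
    rw [hxd]
    exact co_mem f h le_rfl (fun _ => zero_le_one)
  obtain ⟨t, c, hc0, hcs⟩ := hc x hx (fun i => by rw [hX]; exact one_pos)
  have hne : Nonempty ι := Fintype.card_pos_iff.1 (lt_of_lt_of_le two_pos h.card)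
  have hx0 : x ≠ 0 := by
    intro h0
    rw [h0, map_zero] at hX
    have h1 := congrFun (congrArg Prod.snd hX) (Classical.choice hne)
    exact zero_ne_one h1
  have hax : act (g t) x ≠ 0 := by
    intro h0
    apply hx0
    rw [← act_inv_act (g t) x, h0, act_zero]
  have hl : l (act (g t) x) = 0 := by
    rw [f.linv _ (h.gG t), l_X f h x, hX, zero_mul]
  have hsum : ∑ s ∈ S, c s * l (toR s) = 0 := by
    rw [hcs, map_sum] at hl
    rw [← hl]
    refine Finset.sum_congr rfl fun s _ => ?_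
    rw [map_smul, smul_eq_mul]
  have hterm := (Finset.sum_eq_zero_iff_of_nonneg (fun s hs => mul_nonneg (hc0 s) (l_nn f (hS s hs)))).1 hsum
  obtain ⟨s, hs, hs0⟩ : ∃ s ∈ S, c s • toR s ≠ 0 := by
    by_contra hcon
    push Not at hcon
    apply hax
    rw [hcs]
    exact Finset.sum_eq_zero hcon
  rw [smul_ne_zero_iff] at hs0
  refine ⟨s, ?_, hS s hs, (mul_eq_zero.1 (hterm s hs)).resolve_left hs0.1⟩
  rintro rfl
  exact hs0.2 toR_zero

end Pool.Agent.H60.MR
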