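import Pool.Agent.H60.MR.Def
import Pool.Agent.H60.P3.Lin

/-!
# [H60 MR Fort] The field case: coordinates of the nef classes, the linear form

`e i := X.symm (0, Pi.single i 1)`.
* `choose_t`: for `i ≠ j` and every `R` there is `t` with `R ≤ log (lam t i)`, `log (lam t j) ≤ -R`, `|log (lam t k)| ≤ M` for the others (`cov` with
  `y = (R + M) (Pi.single i 1 - Pi.single j 1)`); `M` is fixed.
* `ei_mem`: `e i ∈ closure C`: as `dir` in `H57/KM/Orth`: `d = card ι ≥ 2`, `y i = N (d - 1)`, `y j = -N`, `t` from `cov`, `w_N = (lam t i)⁻¹ • act (g t) A`,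
  `A = X.symm (1, 1)`; coordinates `(lam t i)⁻¹ → 0` (`d ≥ 2`: `log (lam t i) ≥ N - M`), `lam t j / lam t i → 0`, `1` at `i`.
* `co_nn`: `v ∈ closure C`, then `0 ≤ (X v).2 i`: if `v ∈ C` and `(X v).2 i < 0` then `w_N = (lam t i * |(X v).2 i|)⁻¹ • act (g t) v → -e i`, so
  `-e i ∈ closure C`, against `pointed` (`e i ≠ 0`); closure by continuity.
* `co_pos`: `v ∈ C` open, `v - s e i ∈ C` for a small `s > 0`.
* `l_ei`: `l (act (g t) (e i)) = lam t i * l (e i)` and `= l (e i)` (`f.linv`); some `lam t i ≠ 1` (`choose_t`).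
* `l_X`: `v = (X v).1 • e0 + ∑ (X v).2 i • e i`, `l v = (X v).1 * l e0`; for `v = A`: `l A = l e0`, `A = X.symm (1, 1)`.
* `c0_nn`: `l ≥ 0` on `closure C` (`l_nn`), `l A > 0`.
* `co_mem`: `0 ≤ y i`: `X.symm (0, y) ∈ closure C`; `co_mem1`: `0 ≤ a ≤ y i` for all `i`: `X.symm (a, y) = a A + X.symm (0, y - a)`.
-/

set_option autoImplicit false

namespace Pool.Agent.H60.MR

open Pool.Agent.H57.KM Pool.Agent.H20.FV Pool.Agent.H60.P3

variable {n : ℕ} {C : Set (V n)} {G : Subgroup (GL (Fin n) ℤ)} {T : V n →ₗ[ℝ] V n →ₗ[ℝ] V n →ₗ[ℝ] ℝ} {l : V n →ₗ[ℝ] ℝ}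
  {ι : Type} [Fintype ι] {Θ : Type} {g : Θ → GL (Fin n) ℤ} {lam : Θ → ι → ℝ} {X : V n ≃ₗ[ℝ] (ℝ × (ι → ℝ))}

private theorem contX (X : V n ≃ₗ[ℝ] (ℝ × (ι → ℝ))) : Continuous X :=
  LinearMap.continuous_of_finiteDimensional (X : V n →ₗ[ℝ] (ℝ × (ι → ℝ)))

private theorem contXs (X : V n ≃ₗ[ℝ] (ℝ × (ι → ℝ))) : Continuous X.symm :=
  LinearMap.continuous_of_finiteDimensional (X.symm : (ℝ × (ι → ℝ)) →ₗ[ℝ] V n)

theorem choose_t (h : FD C G ι Θ g lam X) : ∃ M : ℝ, 0 ≤ M ∧ ∀ i j : ι, i ≠ j → ∀ R : ℝ, ∃ t, R ≤ Real.log (lam t i) ∧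
    Real.log (lam t j) ≤ -R ∧ ∀ k, k ≠ i → k ≠ j → |Real.log (lam t k)| ≤ M := by
  classical
  obtain ⟨M, hM⟩ := h.cov
  refine ⟨|M|, abs_nonneg M, fun i j hij R => ?_⟩
  have hs : ∑ k : ι, ((if k = i then R + |M| else 0) - (if k = j then R + |M| else 0)) = 0 := by
    rw [Finset.sum_sub_distrib, Finset.sum_ite_eq' Finset.univ i, Finset.sum_ite_eq' Finset.univ j,
      if_pos (Finset.mem_univ i), if_pos (Finset.mem_univ j), sub_self]
  obtain ⟨t, ht⟩ := hM _ hs
  refine ⟨t, ?_, ?_, fun k hki hkj => ?_⟩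
  · have h1 := ht i
    simp only [if_true, if_neg hij, sub_zero] at h1
    have h2 := (abs_le.1 h1).1
    have h3 := le_abs_self M
    linarith
  · have h1 := ht j
    simp only [if_true, if_neg (Ne.symm hij), zero_sub] at h1
    have h2 := (abs_le.1 h1).2
    have h3 := le_abs_self M
    linarith
  · have h1 := ht k
    simp only [if_neg hki, if_neg hkj, sub_zero] at h1
    exact h1.trans (le_abs_self M)

private theorem dirF [DecidableEq ι] (f : Fr C G T l) (h : FD C G ι Θ g lam X) {v : V n} (hv : v ∈ closure C) (i : ι)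
    (hi : (X v).2 i ≠ 0) : X.symm (0, Pi.single i ((X v).2 i / |(X v).2 i|)) ∈ closure C := by
  obtain ⟨M, hcov⟩ := h.cov
  have hk' : (2 : ℝ) ≤ Fintype.card ι := by exact_mod_cast h.card
  have hy : ∀ N : ℕ, ∑ j : ι, (-(N : ℝ) + if j = i then (N : ℝ) * Fintype.card ι else 0) = 0 := by
    intro N
    rw [Finset.sum_add_distrib, Finset.sum_ite_eq' Finset.univ i, if_pos (Finset.mem_univ i),
      Finset.sum_const, Finset.card_univ, nsmul_eq_mul]
    ring
  choose t ht using fun N : ℕ => hcov _ (hy N)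
  have hiabs : 0 < |(X v).2 i| := abs_pos.2 hi
  have hexp0 : ∀ N : ℕ, (lam (t N) i)⁻¹ ≤ Real.exp M * Real.exp (-(N : ℝ)) := by
    intro N
    have h2 := (abs_le.1 (ht N i)).1
    rw [if_pos rfl] at h2
    rw [← Real.exp_log (h.pos (t N) i), ← Real.exp_neg, ← Real.exp_add]
    apply Real.exp_le_exp.2
    have h3 : (N : ℝ) * 2 ≤ N * Fintype.card ι := mul_le_mul_of_nonneg_left hk' (Nat.cast_nonneg N)
    linarith
  have hexp : ∀ N : ℕ, ∀ j, j ≠ i → lam (t N) j / lam (t N) i ≤ Real.exp (2 * M) * Real.exp (-(N : ℝ)) := by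
    intro N j hj
    have h1 := (abs_le.1 (ht N j)).2
    have h2 := (abs_le.1 (ht N i)).1
    rw [if_neg hj, add_zero] at h1
    rw [if_pos rfl] at h2
    rw [← Real.exp_log (h.pos (t N) j), ← Real.exp_log (h.pos (t N) i), ← Real.exp_sub, ← Real.exp_add]
    apply Real.exp_le_exp.2
    have h3 : (N : ℝ) * 2 ≤ N * Fintype.card ι := mul_le_mul_of_nonneg_left hk' (Nat.cast_nonneg N)
    have h4 : (0 : ℝ) ≤ N := Nat.cast_nonneg N
    linarith
  obtain ⟨w, hwd⟩ : ∃ w : ℕ → V n, w = fun N => (lam (t N) i * |(X v).2 i|)⁻¹ • act (g (t N)) v := ⟨_, rfl⟩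
  have hw : ∀ N, w N ∈ closure C := fun N => by
    rw [hwd]
    exact f.amp.closure_smul _ (inv_pos.2 (mul_pos (h.pos _ _) hiabs)).le _ (f.pres.closure _ (h.gG _) v hv)
  have hXw0 : ∀ N, (X (w N)).1 = (lam (t N) i)⁻¹ * ((X v).1 / |(X v).2 i|) := by
    intro N
    have h0 := (h.pos (t N) i).ne'
    have h1 := hiabs.ne'
    rw [hwd]
    simp only
    rw [map_smul, Prod.smul_fst, smul_eq_mul, h.X0]
    field_simp
  have hXw : ∀ N j, (X (w N)).2 j = lam (t N) j / lam (t N) i * ((X v).2 j / |(X v).2 i|) := by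
    intro N j
    have h0 := (h.pos (t N) i).ne'
    have h1 := hiabs.ne'
    rw [hwd]
    simp only
    rw [map_smul, Prod.smul_snd, Pi.smul_apply, smul_eq_mul, h.X1]
    field_simp
  have hE : Filter.Tendsto (fun N : ℕ => Real.exp (-(N : ℝ))) Filter.atTop (nhds 0) :=
    Real.tendsto_exp_neg_atTop_nhds_zero.comp tendsto_natCast_atTop_atTop
  have hlim0 : Filter.Tendsto (fun N => (X (w N)).1) Filter.atTop (nhds 0) := by
    refine squeeze_zero_norm (a := fun N : ℕ => Real.exp M * Real.exp (-(N : ℝ)) *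
      abs ((X v).1 / |(X v).2 i|)) (fun N => ?_) ?_
    · rw [hXw0, Real.norm_eq_abs, abs_mul, abs_of_pos (inv_pos.2 (h.pos _ _))]
      exact mul_le_mul_of_nonneg_right (hexp0 N) (abs_nonneg _)
    · have h2 := (hE.const_mul (Real.exp M)).mul_const (abs ((X v).1 / |(X v).2 i|))
      simpa using h2
  have hlim : Filter.Tendsto (fun N => (X (w N)).2) Filter.atTop
      (nhds (Pi.single i ((X v).2 i / |(X v).2 i|))) := by
    rw [tendsto_pi_nhds]
    intro j
    by_cases hj : j = i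
    · subst hj
      rw [Pi.single_eq_same]
      have h1 : (fun N => (X (w N)).2 j) = fun _ => (X v).2 j / |(X v).2 j| := by
        funext N
        rw [hXw, div_self (h.pos _ _).ne', one_mul]
      rw [h1]
      exact tendsto_const_nhds
    · rw [Pi.single_eq_of_ne hj]
      refine squeeze_zero_norm (a := fun N : ℕ => Real.exp (2 * M) * Real.exp (-(N : ℝ)) *
        abs ((X v).2 j / |(X v).2 i|)) (fun N => ?_) ?_
      · rw [hXw, Real.norm_eq_abs, abs_mul, abs_of_pos (div_pos (h.pos _ _) (h.pos _ _))]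
        exact mul_le_mul_of_nonneg_right (hexp N j hj) (abs_nonneg _)
      · have h2 := (hE.const_mul (Real.exp (2 * M))).mul_const (abs ((X v).2 j / |(X v).2 i|))
        simpa using h2
  have hlim2 : Filter.Tendsto w Filter.atTop (nhds (X.symm (0, Pi.single i ((X v).2 i / |(X v).2 i|)))) := by
    have h1 := ((contXs X).tendsto _).comp (hlim0.prodMk_nhds hlim)
    have h2 : (X.symm ∘ fun N => ((X (w N)).1, (X (w N)).2)) = w := by
      funext N
      simp
    rw [h2] at h1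
    exact h1
  exact isClosed_closure.mem_of_tendsto hlim2 (Filter.Eventually.of_forall hw)

private theorem X_A (i : ι) : (X (X.symm (1, fun _ => 1))).2 i = 1 := by
  rw [LinearEquiv.apply_symm_apply]

theorem ei_mem [DecidableEq ι] (f : Fr C G T l) (h : FD C G ι Θ g lam X) (i : ι) :
    X.symm (0, Pi.single i 1) ∈ closure C := by
  have h1 := dirF f h (subset_closure h.AC) i (by rw [X_A]; exact one_ne_zero)
  rw [X_A, abs_one, div_one] at h1
  exact h1

theorem co_nn (f : Fr C G T l) (h : FD C G ι Θ g lam X) {v : V n} (hv : v ∈ closure C) (i : ι) : 0 ≤ (X v).2 i := by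
  classical
  by_contra hlt
  rw [not_le] at hlt
  have h1 := dirF f h hv i hlt.ne
  rw [abs_of_neg hlt, div_neg, div_self hlt.ne] at h1
  have h2 : X.symm (0, Pi.single i (-1 : ℝ)) = -X.symm (0, Pi.single i 1) := by
    rw [← map_neg, Prod.neg_mk, neg_zero, ← Pi.single_neg]
  rw [h2] at h1
  have h3 := f.amp.pointed _ (ei_mem f h i) h1
  have h4 : ((0 : ℝ), (Pi.single i (1 : ℝ) : ι → ℝ)) = 0 := by
    have := congrArg X h3
    simpa using this
  have h5 := congrFun (congrArg Prod.snd h4) i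
  simp at h5

theorem co_pos (f : Fr C G T l) (h : FD C G ι Θ g lam X) {v : V n} (hv : v ∈ C) (i : ι) : 0 < (X v).2 i := by
  classical
  obtain ⟨ε, hε, h1⟩ := f.amp.oc.exists_sub hv (X.symm (0, Pi.single i 1))
  have h2 := co_nn f h (subset_closure h1) i
  rw [map_sub, map_smul, LinearEquiv.apply_symm_apply, Prod.snd_sub, Prod.smul_snd, Pi.sub_apply, Pi.smul_apply,
    smul_eq_mul] at h2
  have h3 : ((0 : ℝ), (Pi.single i 1 : ι → ℝ)).2 i = 1 := Pi.single_eq_same i 1
  rw [h3, mul_one] at h2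
  linarith

theorem X_sum [DecidableEq ι] (X : V n ≃ₗ[ℝ] (ℝ × (ι → ℝ))) (v : V n) :
    v = (X v).1 • X.symm (1, 0) + ∑ i, (X v).2 i • X.symm (0, Pi.single i 1) := by
  apply X.injective
  rw [map_add, map_sum]
  simp only [map_smul, LinearEquiv.apply_symm_apply]
  refine Prod.ext ?_ ?_
  · simp [Prod.fst_sum]
  · funext j
    simp [Prod.snd_sum, Finset.sum_apply, Pi.single_apply]

private theorem l_ei [DecidableEq ι] (f : Fr C G T l) (h : FD C G ι Θ g lam X) (i : ι) :
    l (X.symm (0, Pi.single i 1)) = 0 := by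
  obtain ⟨j, hj⟩ := Fintype.exists_ne_of_one_lt_card (lt_of_lt_of_le one_lt_two h.card) i
  obtain ⟨M, _, hM⟩ := choose_t h
  obtain ⟨t, ht, _⟩ := hM i j (Ne.symm hj) 1
  have hne : lam t i ≠ 1 := by
    intro h0
    rw [h0, Real.log_one] at ht
    linarith
  have h1 : act (g t) (X.symm (0, Pi.single i 1)) = lam t i • X.symm (0, Pi.single i 1) := by
    apply X.injective
    rw [map_smul, LinearEquiv.apply_symm_apply]
    refine Prod.ext ?_ ?_
    · rw [h.X0, LinearEquiv.apply_symm_apply]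
      simp
    · funext k
      rw [h.X1, LinearEquiv.apply_symm_apply]
      by_cases hk : k = i
      · subst hk
        simp
      · simp [Pi.single_eq_of_ne hk]
  have h2 := f.linv (g t) (h.gG t) (X.symm (0, Pi.single i 1))
  rw [h1, map_smul, smul_eq_mul] at h2
  have h3 : (lam t i - 1) * l (X.symm (0, Pi.single i 1)) = 0 := by
    rw [sub_mul, one_mul, h2, sub_self]
  exact (mul_eq_zero.1 h3).resolve_left (sub_ne_zero.2 hne)

private theorem l_aux [DecidableEq ι] (f : Fr C G T l) (h : FD C G ι Θ g lam X) (v : V n) :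
    l v = (X v).1 * l (X.symm (1, 0)) := by
  conv_lhs => rw [X_sum X v]
  rw [map_add, map_sum, map_smul, smul_eq_mul, Finset.sum_eq_zero, add_zero]
  intro i _
  rw [map_smul, l_ei f h i, smul_zero]

theorem l_X (f : Fr C G T l) (h : FD C G ι Θ g lam X) (v : V n) : l v = (X v).1 * l (X.symm (1, fun _ => 1)) := by
  classical
  rw [l_aux f h (X.symm (1, fun _ => 1)), LinearEquiv.apply_symm_apply, one_mul]
  exact l_aux f h v

theorem c0_nn (f : Fr C G T l) (h : FD C G ι Θ g lam X) {v : V n} (hv : v ∈ closure C) : 0 ≤ (X v).1 := by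
  have h1 := l_nn f hv
  rw [l_X f h] at h1
  exact nonneg_of_mul_nonneg_left h1 (f.lpos _ h.AC)

theorem co_mem (f : Fr C G T l) (h : FD C G ι Θ g lam X) {a : ℝ} {y : ι → ℝ} (ha : 0 ≤ a) (hy : ∀ i, a ≤ y i) :
    X.symm (a, y) ∈ closure C := by
  classical
  have h1 : X.symm (a, y) = a • X.symm (1, fun _ => 1) + ∑ i, (y i - a) • X.symm (0, Pi.single i 1) := by
    apply X.injective
    rw [map_add, map_sum]
    simp only [map_smul, LinearEquiv.apply_symm_apply]
    refine Prod.ext ?_ ?_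
    · simp [Prod.fst_sum]
    · funext j
      simp [Prod.snd_sum, Finset.sum_apply, Pi.single_apply]
  rw [h1]
  exact f.amp.closure_add _ (f.amp.closure_smul _ ha _ (subset_closure h.AC)) _
    (f.amp.oc.sum_closure _ _ fun i _ => f.amp.closure_smul _ (sub_nonneg.2 (hy i)) _ (ei_mem f h i))

end Pool.Agent.H60.MR
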