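import Pool.Agent.H60.MR.Fort

/-!
# [H60 MR Ftri] The field case: the trilinear form

`e0 = X.symm (1, 0)`, `e i = X.symm (0, Pi.single i 1)`; `act (g t) e0 = e0`, `act (g t) (e i) = lam t i • e i`, so `T (e a) (e b) (e c)` is multiplied
by the product of the eigenvalues and invariant (`Tinv`): zero if the product is `≠ 1` for some `t`.  By `choose_t` (large `R`):
(α) `T e0 e0 (e k) = 0`: `lam t k ≠ 1`.  (β) `T e0 (e k) (e k) = 0`: `(lam t k) ^ 2 ≠ 1`.
(γ) `T (e i) (e i) (e k) = 0` for `i ≠ k`: `choose_t` for the pair `(i, k)` gives only `log (lam t k) ≤ -R`; so use `cov` with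
`y = N (Pi.single i 1 - Pi.single k 1)`: `log ((lam t i) ^ 2 lam t k) ≥ 2 (N - M) - (N + M) = N - 3 M > 0`.
(δ) for `i ≠ k`, if there is `j ≠ i, k`: `T e0 (e i) (e k) = 0`: `choose_t` for `(i, j)`: `log (lam t i lam t k) ≥ R - M > 0`.
If there is no such `j`: `A = e0 + e i + e k`, so `T e0 (e i) (e k) = T A (e i) (e k) - T (e i) (e i) (e k) - T (e k) (e i) (e k) = T A (e i) (e k) ≥ 0`.
`tn`: all `T (e a) (e b) (e k) ≥ 0` for `k : ι` and `a`, `b` in `{0} ∪ ι` (`e i ∈ closure C`, `f.nn`, for `a`, `b : ι`).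
`tpos`: `p` with `0 < (X p).1`, `0 < (X p).2 i` for all `i`; `0 < m ≤` all coordinates of `p`; `T p p (e k) ≥ m² T A A (e k) > 0`: expand with `X_sum`
(both `p` and `A`): term by term `p_a p_b T (e a) (e b) (e k) ≥ m² T (e a) (e b) (e k)`; `f.pos`.  Tip: `p = m A + q`, `q` with coordinates `≥ 0`,
`T p p (e k) = m² T A A (e k) + 2 m T A q (e k) + T q q (e k)`, and `T x y (e k) ≥ 0` for `x`, `y` with all coordinates `≥ 0` (`tnn`).
`w = ∑ w_k e k`: `T p p w = ∑ w_k T p p (e k) > 0`.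
-/

set_option autoImplicit false

namespace Pool.Agent.H60.MR

open Pool.Agent.H57.KM Pool.Agent.H20.FV Pool.Agent.H60.P3

variable {n : ℕ} {C : Set (V n)} {G : Subgroup (GL (Fin n) ℤ)} {T : V n →ₗ[ℝ] V n →ₗ[ℝ] V n →ₗ[ℝ] ℝ} {l : V n →ₗ[ℝ] ℝ}
  {ι : Type} [Fintype ι] {Θ : Type} {g : Θ → GL (Fin n) ℤ} {lam : Θ → ι → ℝ} {X : V n ≃ₗ[ℝ] (ℝ × (ι → ℝ))}

private theorem X_ext (X : V n ≃ₗ[ℝ] (ℝ × (ι → ℝ))) {v w : V n} (h1 : (X v).1 = (X w).1)
    (h2 : ∀ i, (X v).2 i = (X w).2 i) : v = w :=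
  X.injective (Prod.ext h1 (funext h2))

theorem T_ev (f : Fr C G T l) (h : FD C G ι Θ g lam X) {t : Θ} {x y z : V n} {a b c : ℝ} (hx : act (g t) x = a • x)
    (hy : act (g t) y = b • y) (hz : act (g t) z = c • z) (hne : a * b * c ≠ 1) : T x y z = 0 := by
  have h1 := f.Tinv _ (h.gG t) x y z
  rw [hx, hy, hz] at h1
  simp only [map_smul, LinearMap.smul_apply, smul_eq_mul] at h1
  have h2 : (a * b * c - 1) * T x y z = 0 := by linear_combination h1
  exact (mul_eq_zero.1 h2).resolve_left (sub_ne_zero.2 hne)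

theorem act_e0 (h : FD C G ι Θ g lam X) (t : Θ) : act (g t) (X.symm (1, 0)) = X.symm (1, 0) := by
  refine X_ext X ?_ fun i => ?_
  · rw [h.X0]
  · rw [h.X1, X.apply_symm_apply]
    change lam t i * 0 = 0
    rw [mul_zero]

theorem act_ei [DecidableEq ι] (h : FD C G ι Θ g lam X) (t : Θ) (i : ι) :
    act (g t) (X.symm (0, Pi.single i 1)) = lam t i • X.symm (0, Pi.single i 1) := by
  refine X_ext X ?_ fun j => ?_
  · rw [h.X0, map_smul, X.apply_symm_apply]
    change (0 : ℝ) = lam t i * 0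
    rw [mul_zero]
  · rw [h.X1, map_smul, X.apply_symm_apply]
    change lam t j * (Pi.single i 1 : ι → ℝ) j = lam t i * (Pi.single i 1 : ι → ℝ) j
    by_cases hj : j = i
    · rw [hj]
    · rw [Pi.single_eq_of_ne hj, mul_zero, mul_zero]

private theorem act_e0' (h : FD C G ι Θ g lam X) (t : Θ) :
    act (g t) (X.symm (1, 0)) = (1 : ℝ) • X.symm (1, 0) := by
  rw [act_e0 h, one_smul]

private theorem ei_ne [DecidableEq ι] (X : V n ≃ₗ[ℝ] (ℝ × (ι → ℝ))) (i : ι) : X.symm (0, Pi.single i 1) ≠ 0 := by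
  intro h0
  have h1 := congrArg (fun v => (X v).2 i) h0
  simp only [X.apply_symm_apply, map_zero, Prod.snd_zero, Pi.zero_apply, Pi.single_eq_same] at h1
  exact one_ne_zero h1

private theorem ne_one_of_log {x : ℝ} (h : 0 < Real.log x) : x ≠ 1 := by
  rintro rfl
  rw [Real.log_one] at h
  exact lt_irrefl _ h

private theorem ex_ne (h : FD C G ι Θ g lam X) (k : ι) : ∃ j : ι, j ≠ k := by
  by_contra hc
  push Not at hc
  have h1 : Fintype.card ι ≤ 1 := Fintype.card_le_one_iff.2 fun a b => (hc a).trans (hc b).symm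
  have h2 := h.card
  omega

/-- `T e0 e0 (e k) = 0` -/
theorem T_00k [DecidableEq ι] (f : Fr C G T l) (h : FD C G ι Θ g lam X) (k : ι) :
    T (X.symm (1, 0)) (X.symm (1, 0)) (X.symm (0, Pi.single k 1)) = 0 := by
  obtain ⟨M, -, hM⟩ := choose_t h
  obtain ⟨j, hj⟩ := ex_ne h k
  obtain ⟨t, h1, -, -⟩ := hM k j hj.symm 1
  refine T_ev f h (act_e0' h t) (act_e0' h t) (act_ei h t k) ?_
  rw [one_mul, one_mul]
  exact ne_one_of_log (by linarith)

private theorem T_0kk [DecidableEq ι] (f : Fr C G T l) (h : FD C G ι Θ g lam X) (k : ι) :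
    T (X.symm (1, 0)) (X.symm (0, Pi.single k 1)) (X.symm (0, Pi.single k 1)) = 0 := by
  obtain ⟨M, -, hM⟩ := choose_t h
  obtain ⟨j, hj⟩ := ex_ne h k
  obtain ⟨t, h1, -, -⟩ := hM k j hj.symm 1
  refine T_ev f h (act_e0' h t) (act_ei h t k) (act_ei h t k) ?_
  rw [one_mul]
  apply ne_one_of_log
  rw [Real.log_mul (h.pos t k).ne' (h.pos t k).ne']
  linarith

/-- `T (e i) (e i) (e k) = 0` for `i ≠ k` -/
theorem T_iik [DecidableEq ι] (f : Fr C G T l) (h : FD C G ι Θ g lam X) {i k : ι} (hik : i ≠ k) :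
    T (X.symm (0, Pi.single i 1)) (X.symm (0, Pi.single i 1)) (X.symm (0, Pi.single k 1)) = 0 := by
  obtain ⟨M, hM⟩ := h.cov
  obtain ⟨t, ht⟩ := hM ((3 * |M| + 1) • (Pi.single i 1 - Pi.single k 1)) (by
    simp only [Pi.smul_apply, Pi.sub_apply, smul_eq_mul]
    rw [← Finset.mul_sum, Finset.sum_sub_distrib, Finset.sum_pi_single', Finset.sum_pi_single',
      if_pos (Finset.mem_univ _), if_pos (Finset.mem_univ _), sub_self, mul_zero])
  have h1 := ht i
  have h2 := ht k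
  simp only [Pi.smul_apply, Pi.sub_apply, smul_eq_mul, Pi.single_eq_same] at h1 h2
  rw [Pi.single_eq_of_ne hik, sub_zero, mul_one] at h1
  rw [Pi.single_eq_of_ne hik.symm, zero_sub, mul_neg, mul_one] at h2
  have h3 := (abs_le.1 h1).1
  have h4 := (abs_le.1 h2).1
  have h5 := le_abs_self M
  refine T_ev f h (act_ei h t i) (act_ei h t i) (act_ei h t k) ?_
  apply ne_one_of_log
  rw [Real.log_mul (mul_pos (h.pos t i) (h.pos t i)).ne' (h.pos t k).ne',
    Real.log_mul (h.pos t i).ne' (h.pos t i).ne']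
  linarith

/-- `T e0 (e i) (e k) ≥ 0` -/
theorem T_0ik [DecidableEq ι] (f : Fr C G T l) (h : FD C G ι Θ g lam X) (i k : ι) :
    0 ≤ T (X.symm (1, 0)) (X.symm (0, Pi.single i 1)) (X.symm (0, Pi.single k 1)) := by
  by_cases hik : i = k
  · subst hik
    rw [T_0kk f h]
  · by_cases hj : ∃ j : ι, j ≠ i ∧ j ≠ k
    · obtain ⟨j, hji, hjk⟩ := hj
      obtain ⟨M, hM0, hM⟩ := choose_t h
      obtain ⟨t, h1, -, h2⟩ := hM i j hji.symm (M + 1)
      have h3 := (abs_le.1 (h2 k (Ne.symm hik) hjk.symm)).1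
      rw [T_ev f h (act_e0' h t) (act_ei h t i) (act_ei h t k)]
      rw [one_mul]
      apply ne_one_of_log
      rw [Real.log_mul (h.pos t i).ne' (h.pos t k).ne']
      linarith
    · push Not at hj
      have hA : X.symm (1, fun _ => 1) = X.symm (1, 0) + X.symm (0, Pi.single i 1) + X.symm (0, Pi.single k 1) := by
        refine X_ext X ?_ fun a => ?_
        · rw [map_add, map_add, X.apply_symm_apply, X.apply_symm_apply, X.apply_symm_apply, X.apply_symm_apply]
          change (1 : ℝ) = 1 + 0 + 0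
          rw [add_zero, add_zero]
        · rw [map_add, map_add, X.apply_symm_apply, X.apply_symm_apply, X.apply_symm_apply, X.apply_symm_apply]
          change (1 : ℝ) = 0 + (Pi.single i 1 : ι → ℝ) a + (Pi.single k 1 : ι → ℝ) a
          by_cases ha : a = i
          · rw [ha, Pi.single_eq_same, Pi.single_eq_of_ne hik, add_zero, zero_add]
          · rw [Pi.single_eq_of_ne ha, hj a ha, Pi.single_eq_same, zero_add, zero_add]
      have h1 := f.nn _ (subset_closure h.AC) _ (ei_mem f h i) _ (ei_mem f h k)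
      rw [hA, map_add, map_add] at h1
      simp only [LinearMap.add_apply] at h1
      rw [T_iik f h hik, add_zero, f.s23 (X.symm (0, Pi.single k 1)) (X.symm (0, Pi.single i 1)),
        T_iik f h (Ne.symm hik), add_zero] at h1
      exact h1

theorem tnn [DecidableEq ι] (f : Fr C G T l) (h : FD C G ι Θ g lam X) {x y : V n} (hx0 : 0 ≤ (X x).1)
    (hx : ∀ i, 0 ≤ (X x).2 i) (hy0 : 0 ≤ (X y).1) (hy : ∀ i, 0 ≤ (X y).2 i) (k : ι) :
    0 ≤ T x y (X.symm (0, Pi.single k 1)) := by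
  have h0 : ∀ {y : V n}, 0 ≤ (X y).1 → (∀ i, 0 ≤ (X y).2 i) → ∀ k,
      0 ≤ T (X.symm (1, 0)) y (X.symm (0, Pi.single k 1)) := by
    intro y hy0 hy k
    rw [X_sum X y, map_add, map_smul, LinearMap.add_apply, LinearMap.smul_apply, T_00k f h, smul_zero, zero_add,
      map_sum, LinearMap.sum_apply]
    refine Finset.sum_nonneg fun i _ => ?_
    rw [map_smul, LinearMap.smul_apply, smul_eq_mul]
    exact mul_nonneg (hy i) (T_0ik f h i k)
  have h1 : ∀ i, 0 ≤ T (X.symm (0, Pi.single i 1)) y (X.symm (0, Pi.single k 1)) := by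
    intro i
    rw [X_sum X y, map_add, map_smul, LinearMap.add_apply, LinearMap.smul_apply,
      f.s12 (X.symm (0, Pi.single i 1)) (X.symm (1, 0)), map_sum, LinearMap.sum_apply, smul_eq_mul]
    refine add_nonneg (mul_nonneg hy0 (T_0ik f h i k)) (Finset.sum_nonneg fun j _ => ?_)
    rw [map_smul, LinearMap.smul_apply, smul_eq_mul]
    exact mul_nonneg (hy j) (f.nn _ (ei_mem f h i) _ (ei_mem f h j) _ (ei_mem f h k))
  rw [X_sum X x, map_add, map_smul, map_sum, LinearMap.add_apply, LinearMap.add_apply, LinearMap.smul_apply,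
    LinearMap.smul_apply, LinearMap.sum_apply, LinearMap.sum_apply, smul_eq_mul]
  refine add_nonneg (mul_nonneg hx0 (h0 hy0 hy k)) (Finset.sum_nonneg fun j _ => ?_)
  rw [map_smul, LinearMap.smul_apply, LinearMap.smul_apply, smul_eq_mul]
  exact mul_nonneg (hx j) (h1 j)

theorem tpos (f : Fr C G T l) (h : FD C G ι Θ g lam X) {p w : V n} (hp0 : 0 < (X p).1) (hp : ∀ i, 0 < (X p).2 i)
    (hw : w ≠ 0) (hw0 : (X w).1 = 0) (hw1 : ∀ i, 0 ≤ (X w).2 i) : 0 < T p p w := by
  classical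
  obtain ⟨m, hm, hm0, hm1⟩ : ∃ m : ℝ, 0 < m ∧ m ≤ (X p).1 ∧ ∀ i, m ≤ (X p).2 i := by
    have h1 : 0 < Fintype.card ι := by
      have := h.card
      omega
    obtain ⟨i₀⟩ := Fintype.card_pos_iff.1 h1
    obtain ⟨j, -, hj⟩ := Finset.exists_min_image Finset.univ (fun i => (X p).2 i) ⟨i₀, Finset.mem_univ _⟩
    exact ⟨min (X p).1 ((X p).2 j), lt_min hp0 (hp j), min_le_left _ _,
      fun i => (min_le_right _ _).trans (hj i (Finset.mem_univ _))⟩
  obtain ⟨A, hAd⟩ : ∃ A : V n, A = X.symm (1, fun _ => 1) := ⟨_, rfl⟩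
  have hAC : A ∈ C := by
    rw [hAd]
    exact h.AC
  have hA0 : (X A).1 = 1 := by rw [hAd, X.apply_symm_apply]
  have hA1 : ∀ i, (X A).2 i = 1 := fun i => by rw [hAd, X.apply_symm_apply]
  obtain ⟨q, hq⟩ : ∃ q : V n, q = p - m • A := ⟨_, rfl⟩
  have hpq : p = m • A + q := by rw [hq, add_sub_cancel]
  have hq0 : 0 ≤ (X q).1 := by
    rw [hq, map_sub, map_smul]
    change 0 ≤ (X p).1 - m * (X A).1
    rw [hA0, mul_one]
    linarith
  have hq1 : ∀ i, 0 ≤ (X q).2 i := by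
    intro i
    rw [hq, map_sub, map_smul]
    change 0 ≤ (X p).2 i - m * (X A).2 i
    rw [hA1, mul_one]
    linarith [hm1 i]
  have key : ∀ k, 0 < T p p (X.symm (0, Pi.single k 1)) := by
    intro k
    have h1 := f.pos A hAC _ (ei_mem f h k) (ei_ne X k)
    have h2 := tnn f h (x := A) (y := q) (by rw [hA0]; exact zero_le_one)
      (fun i => by rw [hA1]; exact zero_le_one) hq0 hq1 k
    have h3 := tnn f h hq0 hq1 hq0 hq1 k
    have h4 : T p p (X.symm (0, Pi.single k 1)) = m ^ 2 * T A A (X.symm (0, Pi.single k 1)) +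
        2 * m * T A q (X.symm (0, Pi.single k 1)) + T q q (X.symm (0, Pi.single k 1)) := by
      rw [hpq]
      simp only [map_add, map_smul, LinearMap.add_apply, LinearMap.smul_apply, smul_eq_mul]
      rw [f.s12 q A]
      ring
    rw [h4]
    have h5 : 0 < m ^ 2 * T A A (X.symm (0, Pi.single k 1)) := by positivity
    have h6 : 0 ≤ 2 * m * T A q (X.symm (0, Pi.single k 1)) := by positivity
    linarith
  have hex : ∃ k, 0 < (X w).2 k := by
    by_contra hc
    push Not at hc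
    apply hw
    refine X_ext X ?_ fun i => ?_
    · rw [hw0, map_zero]
      rfl
    · rw [map_zero]
      exact le_antisymm (hc i) (hw1 i)
  obtain ⟨k, hk⟩ := hex
  rw [X_sum X w, hw0, zero_smul, zero_add, map_sum]
  refine Finset.sum_pos' (fun i _ => ?_) ⟨k, Finset.mem_univ _, ?_⟩
  · rw [map_smul, smul_eq_mul]
    exact mul_nonneg (hw1 i) (key i).le
  · rw [map_smul, smul_eq_mul]
    exact mul_pos hk (key k)

end Pool.Agent.H60.MR
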