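import Pool.Agent.H60.MR.Pex

/-!
# [H60 MR Ptrk] The trick

For `s ∈ ℕ` let `t_s i = ⌊s c i⌋`, `b_s = s • c - tR t_s ∈ [0, 1] ^ r`.
`trk`: `Nc N c y = 0` (`y` is killed by all `N i`), so `Ex K N (s • c) w = w + s • y` (`Ex_line`) and
`Ex K N (tR t_s) w = Ex K N (-b_s) (Ex K N (s • c) w) = Ex K N (-b_s) w + s • y` (`Ex_add`, `Ex_fix`) is in `closure C` (`Ex_mem`).
`(b, w) ↦ Ex K N (-b) w` is bounded on the compact box (`Ex_cont`), so dividing by `s`, `s → ∞`: `y ∈ closure C`.  The same for `-c`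
(`Nc N (-c) w = -y`): `-y ∈ closure C`.  `y = 0` (`f.amp.pointed`).
`trk_dual`: `ψ (Nc N c (Nc N c x)) = κ lam (Nc N c x) = 0`, so `ψ (Ex K N (s • c) x) = ψ x + s κ lam x` (all higher terms are zero:
`ψ ((Nc N c) ^ j x) = κ lam ((Nc N c) ^ (j-1) x) = 0` for `j ≥ 2`).  `0 ≤ ψ (Ex K N (tR t_s) A) = ψ (Ex K N (s • c) (Ex K N (-b_s) A))
= ψ (Ex K N (-b_s) A) + s κ` (`lam_Ex`, `lA`): bounded `+ s κ ≥ 0` for all `s ∈ ℕ`: `κ ≥ 0`.  With `-c`: `κ ≤ 0`.
-/

set_option autoImplicit false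

namespace Pool.Agent.H60.MR

open Pool.Agent.H57.KM Pool.Agent.H20.FV Pool.Agent.H60.P3

variable {n r K : ℕ} {C : Set (V n)} {G : Subgroup (GL (Fin n) ℤ)} {T : V n →ₗ[ℝ] V n →ₗ[ℝ] V n →ₗ[ℝ] ℝ} {l : V n →ₗ[ℝ] ℝ}
  {β : Multiplicative (Fin r → ℤ) →* GL (Fin n) ℤ} {N : Fin r → Module.End ℝ (V n)} {A F : V n} {lam : V n →ₗ[ℝ] ℝ}

/-- the rounding of `s • c` -/
theorem round_ex (c : Fin r → ℝ) (s : ℝ) : ∃ (t : Fin r → ℤ) (b : Fin r → ℝ), (∀ i, 0 ≤ b i ∧ b i ≤ 1) ∧ s • c = tR t + b := by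
  refine ⟨fun i => ⌊s * c i⌋, fun i => Int.fract (s * c i), fun i => ⟨Int.fract_nonneg _, (Int.fract_lt_one _).le⟩, ?_⟩
  funext i
  show s * c i = ((⌊s * c i⌋ : ℤ) : ℝ) + Int.fract (s * c i)
  exact (Int.floor_add_fract _).symm

private theorem trk_cont (K : ℕ) (N : Fin r → Module.End ℝ (V n)) (w : V n) :
    Continuous fun b : Fin r → ℝ => Ex K N (-b) w := by
  have h2 : Continuous fun b : Fin r → ℝ => (-b, w) := by fun_prop
  have h3 := Continuous.comp (g := fun p : (Fin r → ℝ) × V n => Ex K N p.1 p.2) (Ex_cont K N) h2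
  exact h3

/-- boundedness -/
theorem Ex_bdd (K : ℕ) (N : Fin r → Module.End ℝ (V n)) (w : V n) :
    ∃ R : ℝ, ∀ b : Fin r → ℝ, (∀ i, 0 ≤ b i ∧ b i ≤ 1) → ‖Ex K N (-b) w‖ ≤ R := by
  have hc := trk_cont K N w
  obtain ⟨R, hR⟩ := (isCompact_Icc (a := (0 : Fin r → ℝ)) (b := 1)).exists_bound_of_continuousOn hc.continuousOn
  exact ⟨R, fun b hb => hR b ⟨fun i => (hb i).1, fun i => (hb i).2⟩⟩

private theorem trk_lim (h : IsAmp C) {y : V n} {R : ℝ} {z : ℕ → V n} (hz : ∀ s, ‖z s‖ ≤ R)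
    (hm : ∀ s : ℕ, z s + (s : ℝ) • y ∈ closure C) : y ∈ closure C := by
  have h1 : Filter.Tendsto (fun k : ℕ => ((1 : ℝ) / ((k : ℝ) + 1)) • z (k + 1)) Filter.atTop (nhds 0) := by
    rw [tendsto_zero_iff_norm_tendsto_zero]
    have h2 : Filter.Tendsto (fun k : ℕ => ((1 : ℝ) / ((k : ℝ) + 1)) * R) Filter.atTop (nhds 0) := by
      have := (tendsto_one_div_add_atTop_nhds_zero_nat (𝕜 := ℝ)).mul_const R
      rwa [zero_mul] at this
    refine squeeze_zero (fun k => norm_nonneg _) (fun k => ?_) h2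
    rw [norm_smul, Real.norm_eq_abs, abs_of_nonneg (by positivity)]
    exact mul_le_mul_of_nonneg_left (hz _) (by positivity)
  have h3 := h1.add_const y
  rw [zero_add] at h3
  refine isClosed_closure.mem_of_tendsto h3 (Filter.Eventually.of_forall fun k => ?_)
  have h4 := h.closure_smul (1 / ((k : ℝ) + 1)) (by positivity) _ (hm (k + 1))
  have h5 : (0 : ℝ) < (k : ℝ) + 1 := by positivity
  rw [smul_add, smul_smul] at h4
  push_cast at h4
  rwa [one_div_mul_cancel h5.ne', one_smul] at h4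

private theorem trk_one (f : Fr C G T l) (h : PD C β K N A F lam) (hG : ∀ t, β t ∈ G) {w y : V n} (hw : w ∈ closure C)
    {c : Fin r → ℝ} (hy : Nc N c w = y) (h0 : ∀ i, N i y = 0) : y ∈ closure C := by
  obtain ⟨R, hR⟩ := Ex_bdd K N w
  have h1 : Nc N c y = 0 := by
    rw [Nc_apply]
    exact Finset.sum_eq_zero fun i _ => by rw [h0, smul_zero]
  choose t b hb htb using fun s : ℕ => round_ex c (s : ℝ)
  refine trk_lim f.amp (z := fun s => Ex K N (-(b s)) w) (fun s => hR _ (hb s)) fun s => ?_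
  have h2 : Ex K N (tR (t s)) w = Ex K N (-(b s)) w + (s : ℝ) • y := by
    have e1 : tR (t s) = -(b s) + (s : ℝ) • c := by
      rw [htb s]
      abel
    rw [e1, Ex_add h, Module.End.mul_apply, Ex_line h hy h1, map_add, map_smul, Ex_fix h _ h0]
  rw [← h2]
  exact Ex_mem f h hG (t s) hw

theorem trk (f : Fr C G T l) (h : PD C β K N A F lam) (hG : ∀ t, β t ∈ G) {w y : V n} (hw : w ∈ closure C) {c : Fin r → ℝ}
    (hy : Nc N c w = y) (h0 : ∀ i, N i y = 0) : y = 0 := by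
  refine f.amp.pointed y (trk_one f h hG hw hy h0) (trk_one f h hG hw (c := -c) ?_ fun i => by rw [map_neg, h0, neg_zero])
  have e : -c = (-1 : ℝ) • c := by rw [neg_one_smul]
  rw [e, Nc_smul, LinearMap.smul_apply, neg_one_smul, hy]

private theorem trk_done (f : Fr C G T l) (h : PD C β K N A F lam) (hG : ∀ t, β t ∈ G) {ψ : V n →ₗ[ℝ] ℝ}
    (hψ : ∀ x ∈ closure C, 0 ≤ ψ x) {c : Fin r → ℝ} {κ : ℝ} (hc : ∀ x, ψ (Nc N c x) = κ * lam x) : 0 ≤ κ := by
  obtain ⟨R, hR⟩ := Ex_bdd K N A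
  have hcont : Continuous ψ := ψ.continuous_of_finiteDimensional
  -- the values of `ψ` on the box are bounded
  obtain ⟨B, hB⟩ : ∃ B : ℝ, ∀ b : Fin r → ℝ, (∀ i, 0 ≤ b i ∧ b i ≤ 1) → ψ (Ex K N (-b) A) ≤ B := by
    have hc1 : Continuous fun b : Fin r → ℝ => ψ (Ex K N (-b) A) := by
      have h3 := Continuous.comp (g := fun v : V n => ψ v) hcont (trk_cont K N A)
      exact h3
    obtain ⟨R', hR'⟩ := (isCompact_Icc (a := (0 : Fin r → ℝ)) (b := 1)).exists_bound_of_continuousOn hc1.continuousOn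
    exact ⟨R', fun b hb => (le_abs_self _).trans (hR' b ⟨fun i => (hb i).1, fun i => (hb i).2⟩)⟩
  -- the line
  have hj : ∀ (j : ℕ) (x : V n), 2 ≤ j → ψ (((Nc N c) ^ j) x) = 0 := by
    intro j x hj
    obtain ⟨k, rfl⟩ := Nat.exists_eq_add_of_le hj
    have e1 : ((Nc N c) ^ (2 + k)) x = Nc N c (Nc N c (((Nc N c) ^ k) x)) := by
      rw [pow_add, pow_two]
      rfl
    rw [e1, hc, lam_Nc h, mul_zero]
  have hline : ∀ (s : ℝ) (x : V n), ψ (Ex K N (s • c) x) = ψ x + s * (κ * lam x) := by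
    intro s x
    have hK : (Nc N c) ^ K = 0 := Nc_nil h c
    have e1 : ∀ m : ℕ, ψ ((∑ j ∈ Finset.range (m + 2), ((j.factorial : ℝ))⁻¹ • (Nc N (s • c)) ^ j) x) =
        ψ x + s * (κ * lam x) := by
      intro m
      rw [LinearMap.sum_apply, map_sum, Finset.sum_range_succ', Finset.sum_range_succ', Finset.sum_eq_zero]
      · rw [zero_add, Nc_smul]
        simp only [LinearMap.smul_apply, map_smul, smul_eq_mul, smul_pow, pow_zero, pow_one, Nat.factorial_zero,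
          Nat.cast_one, inv_one, one_mul, Nat.factorial_one, zero_add, Module.End.one_apply, hc]
        ring
      · intro j _
        rw [Nc_smul, smul_pow, LinearMap.smul_apply, LinearMap.smul_apply, map_smul, map_smul, hj (j + 1 + 1) x (by omega),
          smul_zero, smul_zero]
    have e2 : Ex K N (s • c) = ∑ j ∈ Finset.range (K + 2), ((j.factorial : ℝ))⁻¹ • (Nc N (s • c)) ^ j := by
      unfold Ex
      refine Finset.sum_subset (Finset.range_mono (by omega)) fun j _ hj' => ?_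
      rw [Finset.mem_range, not_lt] at hj'
      rw [Nc_smul, smul_pow, pow_eq_zero_of_le hj' hK, smul_zero, smul_zero]
    rw [e2, e1 K]
  by_contra hneg
  rw [not_le] at hneg
  obtain ⟨s, hs⟩ := exists_nat_gt (B / (-κ))
  have hs2 : B < s * (-κ) := by
    rwa [div_lt_iff₀ (by linarith)] at hs
  obtain ⟨t, b, hb, htb⟩ := round_ex c (s : ℝ)
  have h1 := hψ _ (Ex_mem f h hG t (subset_closure h.AC))
  have e1 : tR t = (s : ℝ) • c + -b := by
    rw [htb]
    abel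
  rw [e1, Ex_add h, Module.End.mul_apply, hline, lam_Ex h, h.lA, mul_one] at h1
  have h2 := hB b hb
  linarith

theorem trk_dual (f : Fr C G T l) (h : PD C β K N A F lam) (hG : ∀ t, β t ∈ G) {ψ : V n →ₗ[ℝ] ℝ}
    (hψ : ∀ x ∈ closure C, 0 ≤ ψ x) {c : Fin r → ℝ} {κ : ℝ} (hc : ∀ x, ψ (Nc N c x) = κ * lam x) : κ = 0 := by
  refine le_antisymm ?_ (trk_done f h hG hψ hc)
  have h1 := trk_done f h hG hψ (c := -c) (κ := -κ) fun x => by
    have e : -c = (-1 : ℝ) • c := by rw [neg_one_smul]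
    rw [e, Nc_smul, LinearMap.smul_apply, neg_one_smul, map_neg, hc]
    ring
  linarith

end Pool.Agent.H60.MR
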