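import Pool.Agent.H60.MR.Plim
import Pool.Agent.H60.MR.Ptrk

/-!
# [H60 MR Pdul] Functionals

`dray`: `ψ ≥ 0` on `closure C`, `ψ F = 0`: `ψ = ψ A • lam`.  Induction on `m`, claim `P m`: for all `ψ` with `ψ ≥ 0` on `closure C`, `ψ F = 0`
and `ψ ∘ (s.map N).prod = 0` for all lists `s` of length `≥ m` (`m = 0`: `ψ = 0`).
`P m → P (m + 1)`: if `ψ ∘ N i = 0` for all `i`: `ψ x = lam x ψ A + ψ (Nc N c A) + s ψ F` (`bas`) `= lam x ψ A`.  Otherwise choose `i` with
`ψ ∘ N i ≠ 0` and `j ≥ 1` maximal with `ψ' = ψ ∘ (N i) ^ j ≠ 0` (`(N i) ^ K = 0`); `ψ' ≥ 0` on `closure C` (`lim_dual`), `ψ' F = 0` (`j ≥ 1`),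
`ψ' ∘ (s.map N).prod = 0` for `s` of length `≥ m`, so `ψ' = κ lam`, `κ = ψ' A ≠ 0`.  By `Nc_pow` `(N i) ^ j x = Nc N c' x + (d lam x) F`, so
`ψ (Nc N c' x) = κ lam x` (`ψ F = 0`): `trk_dual` gives `κ = 0`: contradiction.
`above`: if `C` does not meet the line `x + ℝ F` then (`geometric_hahn_banach_open`, `C` open convex, the line convex) there are a continuous linear
`g` and `u` with `g < u` on `C` and `u ≤ g` on the line.  `C` is a cone: `g ≤ 0` on `C` (`smul`, large factors) and `0 ≤ u` (small factors);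
`u ≤ g x + s g F` for all `s`: `g F = 0`.  `ψ = -g`: `ψ ≥ 0` on `closure C`, `ψ F = 0`: `g y = g A lam y`.  `u ≤ g x = g A lam x`, `g A < u`,
`g A ≤ 0`, `lam x > 0`, `u ≥ 0`: `g A lam x ≥ u ≥ 0` forces `g A = 0` and `u ≤ 0`, against `g A < u`.
-/

set_option autoImplicit false

namespace Pool.Agent.H60.MR

open Pool.Agent.H57.KM Pool.Agent.H20.FV Pool.Agent.H60.P3

variable {n r K : ℕ} {C : Set (V n)} {G : Subgroup (GL (Fin n) ℤ)} {T : V n →ₗ[ℝ] V n →ₗ[ℝ] V n →ₗ[ℝ] ℝ} {l : V n →ₗ[ℝ] ℝ}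
  {β : Multiplicative (Fin r → ℤ) →* GL (Fin n) ℤ} {N : Fin r → Module.End ℝ (V n)} {A F : V n} {lam : V n →ₗ[ℝ] ℝ}

private theorem tR_single (i : Fin r) : tR (Pi.single i 1 : Fin r → ℤ) = Pi.single i 1 := by
  funext k
  unfold tR
  by_cases hk : k = i
  · subst hk
    rw [Pi.single_eq_same, Pi.single_eq_same, Int.cast_one]
  · rw [Pi.single_eq_of_ne hk, Pi.single_eq_of_ne hk, Int.cast_zero]

private theorem Nc_tR (N : Fin r → Module.End ℝ (V n)) (i : Fin r) : Nc N (tR (Pi.single i 1)) = N i := by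
  rw [tR_single, Nc_single]

private theorem pow_words (N : Fin r → Module.End ℝ (V n)) (i : Fin r) (j : ℕ) :
    ((List.replicate j i).map N).prod = (N i) ^ j := by
  rw [List.map_replicate, List.prod_replicate]

/-- the last power which does not vanish -/
private theorem last_dual (h : PD C β K N A F lam) (i : Fin r) {ψ : V n →ₗ[ℝ] ℝ} (hψ : ¬ ∀ x, ψ (N i x) = 0) :
    ∃ j : ℕ, 1 ≤ j ∧ (¬ ∀ x, ψ (((N i) ^ j) x) = 0) ∧ ∀ x, ψ (((N i) ^ (j + 1)) x) = 0 := by
  classical
  have hK : ∀ x, ψ (((N i) ^ K) x) = 0 := by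
    intro x
    have := h.nil (List.replicate K i) (by rw [List.length_replicate])
    rw [pow_words] at this
    rw [this, LinearMap.zero_apply, map_zero]
  have hex : ∃ m : ℕ, ∀ x, ψ (((N i) ^ m) x) = 0 := ⟨K, hK⟩
  have hm := Nat.find_spec hex
  have hmin : ∀ m, m < Nat.find hex → ¬ ∀ x, ψ (((N i) ^ m) x) = 0 := fun m hm => Nat.find_min hex hm
  have h0 : Nat.find hex ≠ 0 := by
    intro h0
    rw [h0] at hm
    refine hψ fun x => ?_
    have := hm (N i x)
    rwa [pow_zero, Module.End.one_apply] at this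
  have h1 : Nat.find hex ≠ 1 := by
    intro h1
    rw [h1] at hm
    refine hψ fun x => ?_
    have := hm x
    rwa [pow_one] at this
  refine ⟨Nat.find hex - 1, by omega, hmin _ (by omega), ?_⟩
  rw [Nat.sub_add_cancel (by omega)]
  exact hm

theorem dray (f : Fr C G T l) (h : PD C β K N A F lam) (hG : ∀ t, β t ∈ G) {ψ : V n →ₗ[ℝ] ℝ}
    (hψ : ∀ x ∈ closure C, 0 ≤ ψ x) (hF : ψ F = 0) : ∀ x, ψ x = ψ A * lam x := by
  have key : ∀ (m : ℕ) (ψ : V n →ₗ[ℝ] ℝ), (∀ x ∈ closure C, 0 ≤ ψ x) → ψ F = 0 →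
      (∀ s : List (Fin r), m ≤ s.length → ∀ x, ψ ((s.map N).prod x) = 0) → ∀ x, ψ x = ψ A * lam x := by
    intro m
    induction m with
    | zero =>
      intro ψ _ _ hm x
      have h1 : ∀ x, ψ x = 0 := fun x => by
        have := hm [] le_rfl x
        rwa [List.map_nil, List.prod_nil, Module.End.one_apply] at this
      rw [h1 x, h1 A, zero_mul]
    | succ m ih =>
      intro ψ hψ hF hm
      by_cases hN : ∀ i, ∀ x, ψ (N i x) = 0
      · intro x
        obtain ⟨c, s, hcs⟩ := h.bas x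
        conv_lhs => rw [hcs]
        rw [map_add, map_add, map_smul, map_smul, hF, smul_zero, add_zero, Nc_apply, map_sum, Finset.sum_eq_zero, add_zero,
          smul_eq_mul, mul_comm]
        intro i _
        rw [map_smul, hN, smul_zero]
      · push Not at hN
        obtain ⟨i, x₀, hi⟩ := hN
        obtain ⟨j, hj1, hj2, hj3⟩ := last_dual h i (ψ := ψ) fun hall => hi (hall x₀)
        exfalso
        obtain ⟨ψ', hψ'⟩ : ∃ ψ' : V n →ₗ[ℝ] ℝ, ψ' = ψ.comp ((N i) ^ j) := ⟨_, rfl⟩
        have ev : ∀ x, ψ' x = ψ (((N i) ^ j) x) := fun x => by rw [hψ']; rfl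
        have hpos : ∀ x ∈ closure C, 0 ≤ ψ' x := by
          have := lim_dual f h hG hψ (Pi.single i 1) j (by rw [Nc_tR]; exact hj3)
          rw [Nc_tR] at this
          intro x hx
          rw [ev]
          exact this x hx
        have hF' : ψ' F = 0 := by
          rw [ev]
          obtain ⟨k, rfl⟩ := Nat.exists_eq_add_of_le hj1
          rw [add_comm, pow_add, pow_one, Module.End.mul_apply, h.NF, map_zero, map_zero]
        have hκ := ih ψ' hpos hF' fun s hs x => by
          rw [ev]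
          have := hm (List.replicate j i ++ s) (by
            rw [List.length_append, List.length_replicate]
            omega) x
          rw [List.map_append, List.prod_append, pow_words, Module.End.mul_apply] at this
          exact this
        obtain ⟨c', d, hcd⟩ := Nc_pow h (Pi.single i 1) hj1
        have h1 : ∀ x, ψ (Nc N c' x) = ψ' A * lam x := by
          intro x
          rw [← hκ x, ev]
          have := hcd x
          rw [Nc_single] at this
          rw [this, map_add, map_smul, hF, smul_zero, add_zero]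
        have h2 := trk_dual f h hG hψ h1
        refine hj2 fun x => ?_
        rw [← ev, hκ x, h2, zero_mul]
  exact key K ψ hψ hF fun s hs x => by rw [h.nil s hs, LinearMap.zero_apply, map_zero]

theorem above (f : Fr C G T l) (h : PD C β K N A F lam) (hG : ∀ t, β t ∈ G) {x : V n} (hx : 0 < lam x) :
    ∃ s : ℝ, x + s • F ∈ C := by
  by_contra hcon
  push Not at hcon
  have hdis : Disjoint C (Set.range fun s : ℝ => x + s • F) := by
    rw [Set.disjoint_left]
    rintro y hy ⟨s, rfl⟩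
    exact hcon s hy
  have hconv : Convex ℝ (Set.range fun s : ℝ => x + s • F) := by
    rintro _ ⟨s, rfl⟩ _ ⟨s', rfl⟩ a b ha hb hab
    refine ⟨a * s + b * s', ?_⟩
    have : x = (a + b) • x := by rw [hab, one_smul]
    show x + (a * s + b * s') • F = a • (x + s • F) + b • (x + s' • F)
    nth_rewrite 1 [this]
    module
  obtain ⟨g, u, hg1, hg2⟩ := geometric_hahn_banach_open f.amp.convex f.amp.op hconv hdis
  -- `g ≤ 0` on `C`
  have hgC : ∀ y ∈ C, g y ≤ 0 := by
    intro y hy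
    by_contra hc
    rw [not_le] at hc
    obtain ⟨k, hk⟩ := exists_nat_gt (|u| / g y)
    have h1 := hg1 _ (f.amp.smul ((k : ℝ) + 1) (by positivity) y hy)
    rw [map_smul, smul_eq_mul] at h1
    rw [div_lt_iff₀ hc] at hk
    have h2 := le_abs_self u
    nlinarith
  have hu : 0 ≤ u := by
    by_contra hc
    rw [not_le] at hc
    obtain ⟨ε, hε, hε2⟩ : ∃ ε : ℝ, 0 < ε ∧ ε * |g A| < -u := by
      refine ⟨-u / (|g A| + 1), div_pos (by linarith) (by positivity), ?_⟩
      rw [div_mul_eq_mul_div, div_lt_iff₀ (by positivity)]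
      nlinarith [abs_nonneg (g A)]
    have h1 := hg1 _ (f.amp.smul ε hε A h.AC)
    rw [map_smul, smul_eq_mul] at h1
    have h2 := neg_abs_le (g A)
    nlinarith
  have hgF : g F = 0 := by
    by_contra hc
    have h1 := hg2 _ ⟨(u - 1 - g x) / g F, rfl⟩
    rw [map_add, map_smul, smul_eq_mul, div_mul_cancel₀ _ hc] at h1
    linarith
  obtain ⟨ψ, hψ⟩ : ∃ ψ : V n →ₗ[ℝ] ℝ, ψ = -(g : V n →ₗ[ℝ] ℝ) := ⟨_, rfl⟩
  have ev : ∀ y, ψ y = - g y := fun y => by rw [hψ]; rfl
  have hcont : Continuous fun y : V n => ψ y := ψ.continuous_of_finiteDimensional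
  have hpos : ∀ y ∈ closure C, 0 ≤ ψ y := by
    intro y hy
    refine closure_minimal (t := {y | 0 ≤ ψ y}) ?_ (isClosed_le continuous_const hcont) hy
    intro z hz
    show 0 ≤ ψ z
    rw [ev]
    linarith [hgC z hz]
  have h1 := dray f h hG hpos (by rw [ev, hgF, neg_zero]) x
  rw [ev, ev] at h1
  have h2 := hg2 x ⟨0, by simp⟩
  have h3 := hg1 A h.AC
  have h4 := hgC A h.AC
  have h5 : g x = g A * lam x := by linarith
  have h6 : g A * lam x ≤ 0 := mul_nonpos_of_nonpos_of_nonneg h4 hx.le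
  have h7 : g A < 0 := by linarith
  have h8 : g A * lam x < 0 := mul_neg_of_neg_of_pos h7 hx
  linarith

end Pool.Agent.H60.MR
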