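import Pool.Agent.H60.MR.Def

/-!
# [H60 MR Pex] The exponential

`Nc N c = ∑ c i • N i`, `Ex K N c = ∑_{j < K} (Nc N c) ^ j / j!`.
* `Nc_nil`: `(Nc N c) ^ K = 0`: expand `(∑ c i • N i) ^ K` as a sum over words of length `K`: by induction on `k`: for every list `s` and every
  `x`: `(Nc N c) ^ k * (s.map N).prod` is a combination of `(s'.map N).prod` with `s'.length = s.length + k`; or: `(Nc N c) ^ k` is in the
  span of `{(s.map N).prod | s.length = k}` (`Submodule.span_induction`).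
* `Ex_add`: `Ex K N c = IsNilpotent.exp (Nc N c)` (`IsNilpotent.exp_eq_sum`, compare `ℚ` and `ℝ` scalars), `IsNilpotent.exp_add_of_commute`.
* `Ex_cont`: a finite sum; `(c, x) ↦ (Nc N c) ^ j x` is continuous by induction on `j` (`Nc N c x = ∑ i, c i • N i x`,
  `LinearMap.continuous_of_finiteDimensional`).
* `Nc_pow`: induction on `j` with `Nc_mul`; `Nc N c F = 0`.
* `Ex_line`: `(Nc N c) ^ j x = 0` for `j ≥ 2`.  `K ≥ 2` or `y = 0`: if `K ≤ 1` then `nil` gives `N i = 0` for all `i`; `K ≠ 0` because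
  `nil` for the empty list would give `1 = 0` on `F ≠ 0`.
-/

set_option autoImplicit false

namespace Pool.Agent.H60.MR

open Pool.Agent.H57.KM Pool.Agent.H20.FV Pool.Agent.H60.P3

variable {n r K : ℕ} {C : Set (V n)} {G : Subgroup (GL (Fin n) ℤ)} {T : V n →ₗ[ℝ] V n →ₗ[ℝ] V n →ₗ[ℝ] ℝ} {l : V n →ₗ[ℝ] ℝ}
  {β : Multiplicative (Fin r → ℤ) →* GL (Fin n) ℤ} {N : Fin r → Module.End ℝ (V n)} {A F : V n} {lam : V n →ₗ[ℝ] ℝ}

theorem Nc_apply (N : Fin r → Module.End ℝ (V n)) (c : Fin r → ℝ) (x : V n) : Nc N c x = ∑ i, c i • N i x := by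
  simp [Nc]

theorem Nc_add (N : Fin r → Module.End ℝ (V n)) (c c' : Fin r → ℝ) : Nc N (c + c') = Nc N c + Nc N c' := by
  unfold Nc
  rw [← Finset.sum_add_distrib]
  exact Finset.sum_congr rfl fun i _ => by rw [Pi.add_apply, add_smul]

theorem Nc_smul (N : Fin r → Module.End ℝ (V n)) (a : ℝ) (c : Fin r → ℝ) : Nc N (a • c) = a • Nc N c := by
  unfold Nc
  rw [Finset.smul_sum]
  exact Finset.sum_congr rfl fun i _ => by rw [Pi.smul_apply, smul_eq_mul, mul_smul]

theorem Nc_single (N : Fin r → Module.End ℝ (V n)) (i : Fin r) : Nc N (Pi.single i 1) = N i := by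
  unfold Nc
  rw [Finset.sum_eq_single i]
  · rw [Pi.single_eq_same, one_smul]
  · intro j _ hj
    rw [Pi.single_eq_of_ne hj, zero_smul]
  · intro h
    exact absurd (Finset.mem_univ i) h

theorem Nc_comm (h : PD C β K N A F lam) (c c' : Fin r → ℝ) : Nc N c * Nc N c' = Nc N c' * Nc N c := by
  have h1 : Commute (Nc N c) (Nc N c') := by
    refine Commute.sum_left _ _ _ fun i _ => Commute.sum_right _ _ _ fun j _ => ?_
    exact ((show Commute (N i) (N j) from h.comm i j).smul_left _).smul_right _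
  exact h1

theorem Nc_F (h : PD C β K N A F lam) (c : Fin r → ℝ) : Nc N c F = 0 := by
  rw [Nc_apply]
  exact Finset.sum_eq_zero fun i _ => by rw [h.NF, smul_zero]

theorem lam_Nc (h : PD C β K N A F lam) (c : Fin r → ℝ) (x : V n) : lam (Nc N c x) = 0 := by
  rw [Nc_apply, map_sum]
  exact Finset.sum_eq_zero fun i _ => by rw [map_smul, h.lN, smul_zero]

/-- products -/
theorem Nc_mul (h : PD C β K N A F lam) (c c' : Fin r → ℝ) :
    ∃ (c'' : Fin r → ℝ) (d : ℝ), ∀ x, Nc N c (Nc N c' x) = Nc N c'' x + (d * lam x) • F := by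
  choose p q hpq using h.prd
  refine ⟨∑ i, ∑ j, (c i * c' j) • p i j, ∑ i, ∑ j, c i * c' j * q i j, fun x => ?_⟩
  have e1 : Nc N (∑ i, ∑ j, (c i * c' j) • p i j) x = ∑ i, ∑ j, (c i * c' j) • Nc N (p i j) x := by
    have h1 : ∀ (s : Finset (Fin r)) (v : Fin r → (Fin r → ℝ)), Nc N (∑ i ∈ s, v i) x = ∑ i ∈ s, Nc N (v i) x := by
      intro s v
      induction s using Finset.induction_on with
      | empty => simp [Nc]
      | insert i s hi ih => rw [Finset.sum_insert hi, Finset.sum_insert hi, Nc_add, LinearMap.add_apply, ih]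
    rw [h1]
    refine Finset.sum_congr rfl fun i _ => ?_
    rw [h1]
    exact Finset.sum_congr rfl fun j _ => by rw [Nc_smul, LinearMap.smul_apply]
  rw [e1, Finset.sum_mul, Finset.sum_smul, ← Finset.sum_add_distrib, Nc_apply]
  refine Finset.sum_congr rfl fun i _ => ?_
  rw [Finset.sum_mul, Finset.sum_smul, ← Finset.sum_add_distrib, Nc_apply, map_sum, Finset.smul_sum]
  refine Finset.sum_congr rfl fun j _ => ?_
  rw [map_smul, hpq, smul_smul, smul_add, smul_smul]
  ring_nf

/-- powers -/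
theorem Nc_pow (h : PD C β K N A F lam) (c : Fin r → ℝ) {j : ℕ} (hj : 1 ≤ j) :
    ∃ (c' : Fin r → ℝ) (d : ℝ), ∀ x, ((Nc N c) ^ j) x = Nc N c' x + (d * lam x) • F := by
  induction j, hj using Nat.le_induction with
  | base => exact ⟨c, 0, fun x => by rw [pow_one, zero_mul, zero_smul, add_zero]⟩
  | succ j hj ih =>
    obtain ⟨c', d, h1⟩ := ih
    obtain ⟨c'', d', h2⟩ := Nc_mul h c c'
    refine ⟨c'', d', fun x => ?_⟩
    rw [pow_succ', Module.End.mul_apply, h1, map_add, map_smul, Nc_F h, smul_zero, add_zero, h2]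

theorem Nc_nil (h : PD C β K N A F lam) (c : Fin r → ℝ) : (Nc N c) ^ K = 0 := by
  have key : ∀ k : ℕ, ∀ s : List (Fin r), K ≤ k + s.length → (Nc N c) ^ k * (s.map N).prod = 0 := by
    intro k
    induction k with
    | zero =>
      intro s hs
      rw [pow_zero, one_mul]
      exact h.nil s (by omega)
    | succ k ih =>
      intro s hs
      rw [pow_succ, mul_assoc]
      have h1 : Nc N c * (s.map N).prod = ∑ i, c i • ((i :: s).map N).prod := by
        unfold Nc
        rw [Finset.sum_mul]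
        exact Finset.sum_congr rfl fun i _ => by rw [List.map_cons, List.prod_cons, smul_mul_assoc]
      rw [h1, Finset.mul_sum]
      refine Finset.sum_eq_zero fun i _ => ?_
      rw [mul_smul_comm, ih (i :: s) (by rw [List.length_cons]; omega), smul_zero]
  have h1 := key K [] (by simp)
  rwa [List.map_nil, List.prod_nil, mul_one] at h1

theorem K_pos (h : PD C β K N A F lam) : 1 ≤ K := by
  by_contra hK
  have h1 := h.nil [] (by simp; omega)
  rw [List.map_nil, List.prod_nil] at h1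
  have h2 := LinearMap.congr_fun h1 F
  rw [Module.End.one_apply, LinearMap.zero_apply] at h2
  exact h.F0 h2

theorem Ex_exp (h : PD C β K N A F lam) (c : Fin r → ℝ) : Ex K N c = IsNilpotent.exp (Nc N c) := by
  rw [IsNilpotent.exp_eq_sum (Nc_nil h c)]
  unfold Ex
  refine Finset.sum_congr rfl fun j _ => ?_
  rw [← Rat.cast_smul_eq_qsmul ℝ]
  push_cast
  rfl

theorem Ex_zero (h : PD C β K N A F lam) : Ex K N 0 = 1 := by
  have h1 : Nc N (0 : Fin r → ℝ) = 0 := by simp [Nc]
  rw [Ex_exp h, h1, IsNilpotent.exp_zero]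

theorem Ex_add (h : PD C β K N A F lam) (c c' : Fin r → ℝ) : Ex K N (c + c') = Ex K N c * Ex K N c' := by
  rw [Ex_exp h, Ex_exp h, Ex_exp h, Nc_add]
  exact IsNilpotent.exp_add_of_commute (Nc_comm h c c') ⟨K, Nc_nil h c⟩ ⟨K, Nc_nil h c'⟩

theorem Ex_neg (h : PD C β K N A F lam) (c : Fin r → ℝ) (x : V n) : Ex K N (-c) (Ex K N c x) = x := by
  rw [← Module.End.mul_apply, ← Ex_add h, neg_add_cancel, Ex_zero h, Module.End.one_apply]

theorem Ex_apply (K : ℕ) (N : Fin r → Module.End ℝ (V n)) (c : Fin r → ℝ) (x : V n) :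
    Ex K N c x = ∑ j ∈ Finset.range K, ((j.factorial : ℝ))⁻¹ • ((Nc N c) ^ j) x := by
  simp [Ex]

theorem lam_Ex (h : PD C β K N A F lam) (c : Fin r → ℝ) (x : V n) : lam (Ex K N c x) = lam x := by
  rw [Ex_apply, map_sum]
  obtain ⟨k, hk⟩ : ∃ k, K = k + 1 := ⟨K - 1, by have := K_pos h; omega⟩
  rw [hk, Finset.sum_range_succ']
  rw [Finset.sum_eq_zero]
  · simp
  · intro j _
    rw [map_smul, pow_succ', Module.End.mul_apply, lam_Nc h, smul_zero]

theorem Nc_cont (N : Fin r → Module.End ℝ (V n)) (j : ℕ) :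
    Continuous fun p : (Fin r → ℝ) × V n => ((Nc N p.1) ^ j) p.2 := by
  induction j with
  | zero => simpa using continuous_snd
  | succ j ih =>
    have h1 : (fun p : (Fin r → ℝ) × V n => ((Nc N p.1) ^ (j + 1)) p.2) =
        fun p => ∑ i, p.1 i • N i (((Nc N p.1) ^ j) p.2) := by
      funext p
      rw [pow_succ', Module.End.mul_apply, Nc_apply]
    rw [h1]
    refine continuous_finsetSum _ fun i _ => ?_
    exact ((continuous_apply i).comp continuous_fst).smul
      ((LinearMap.continuous_of_finiteDimensional (N i)).comp ih)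

theorem Ex_cont (K : ℕ) (N : Fin r → Module.End ℝ (V n)) :
    Continuous fun p : (Fin r → ℝ) × V n => Ex K N p.1 p.2 := by
  have h1 : (fun p : (Fin r → ℝ) × V n => Ex K N p.1 p.2) = fun p => ∑ j ∈ Finset.range K,
      ((j.factorial : ℝ))⁻¹ • ((Nc N p.1) ^ j) p.2 := by
    funext p
    exact Ex_apply K N p.1 p.2
  rw [h1]
  exact continuous_finsetSum _ fun j _ => (Nc_cont N j).const_smul ((j.factorial : ℝ)⁻¹)

/-- lines -/
theorem Ex_line (h : PD C β K N A F lam) {c : Fin r → ℝ} {x y : V n} (h1 : Nc N c x = y) (h2 : Nc N c y = 0) (s : ℝ) :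
    Ex K N (s • c) x = x + s • y := by
  have hj : ∀ j, 2 ≤ j → ((Nc N (s • c)) ^ j) x = 0 := by
    intro j hj
    obtain ⟨k, rfl⟩ : ∃ k, j = k + 2 := ⟨j - 2, by omega⟩
    rw [pow_add, Module.End.mul_apply, pow_two, Module.End.mul_apply, Nc_smul, LinearMap.smul_apply, LinearMap.smul_apply, h1,
      map_smul (Nc N c), h2, smul_zero, smul_zero, map_zero]
  have hK := K_pos h
  rcases Nat.lt_or_ge 1 K with hK1 | hK1
  · obtain ⟨k, rfl⟩ : ∃ k, K = k + 2 := ⟨K - 2, by omega⟩
    rw [Ex_apply, Finset.sum_range_succ', Finset.sum_range_succ', Finset.sum_eq_zero]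
    · simp [Nc_smul, h1, add_comm]
    · intro j _
      rw [hj _ (by omega), smul_zero]
  · have hK2 : K = 1 := by omega
    have hy : y = 0 := by
      have h3 := Nc_nil h c
      rw [hK2, pow_one] at h3
      rw [← h1, h3, LinearMap.zero_apply]
    rw [Ex_apply, hK2, hy]
    simp

/-- vectors killed by all `N i` are fixed -/
theorem Ex_fix (h : PD C β K N A F lam) (c : Fin r → ℝ) {y : V n} (hy : ∀ i, N i y = 0) : Ex K N c y = y := by
  have h1 : Nc N c y = 0 := by
    rw [Nc_apply]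
    exact Finset.sum_eq_zero fun i _ => by rw [hy, smul_zero]
  have h2 := Ex_line h h1 (map_zero _) 1
  rwa [one_smul, smul_zero, add_zero] at h2

theorem Ex_F (h : PD C β K N A F lam) (c : Fin r → ℝ) : Ex K N c F = F := Ex_fix h c h.NF

/-- the action of the integral points -/
theorem Ex_mem (f : Fr C G T l) (h : PD C β K N A F lam) (hG : ∀ t, β t ∈ G) (t : Fin r → ℤ) {x : V n} (hx : x ∈ closure C) :
    Ex K N (tR t) x ∈ closure C := by
  rw [← h.act]
  exact f.pres.closure _ (hG _) _ hx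

/-- the other sign of `F` -/
theorem PD_neg (h : PD C β K N A F lam) : PD C β K N A (-F) lam where
  r1 := h.r1
  AC := h.AC
  comm := h.comm
  nil := h.nil
  prd i j := by
    obtain ⟨c, d, h1⟩ := h.prd i j
    exact ⟨c, -d, fun x => by rw [h1, neg_mul, smul_neg, neg_smul, neg_neg]⟩
  NF i := by rw [map_neg, h.NF, neg_zero]
  lN := h.lN
  lA := h.lA
  lF := by rw [map_neg, h.lF, neg_zero]
  F0 := neg_ne_zero.2 h.F0
  bas x := by
    obtain ⟨c, s, h1⟩ := h.bas x
    exact ⟨c, -s, by rw [smul_neg, neg_smul, neg_neg]; exact h1⟩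
  inj c s hx := by
    rw [smul_neg, ← neg_smul] at hx
    obtain ⟨h1, h2⟩ := h.inj _ _ hx
    exact ⟨h1, neg_eq_zero.1 h2⟩
  soc := h.soc
  act := h.act
  intF := by
    obtain ⟨d, hd⟩ := h.intF
    exact ⟨-d, by rw [toR_neg, hd]⟩

end Pool.Agent.H60.MR
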