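import Pool.Agent.H60.MR.Pex

/-!
# [H60 MR Plim] Limits

`u = Nc N (tR t)`, `t` integral; for `k ∈ ℕ`: `k • tR t = tR (k • t)`, `Ex K N (k • tR t) y ∈ closure C` (`Ex_mem`),
`Ex K N (k • tR t) y = ∑_{i < K} (k ^ i / i!) • u ^ i y`, `= ∑_{i ≤ j}` if `u ^ (j + 1) y = 0`.  Multiply by `j! / k ^ j` and let `k → ∞`:
`u ^ j y ∈ closure C` (`mem_closure_of_tendsto`, or `isClosed_closure.mem_of_tendsto`).  Tip: prove a general lemma: `a : ℕ → W`,
`j! k ^ (-j) ∑_{i < K} (k ^ i / i!) • a i → a j` if `a i = 0` for `i > j` (`W = V n` and `W = ℝ`; each summand with `i < j`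
tends to zero, `j < K` or `a j = 0`).
`lim_dual`: `ψ (Ex K N (k • tR t) x) ≥ 0`, the same with the real numbers `ψ (u ^ i x)`.
-/

set_option autoImplicit false

namespace Pool.Agent.H60.MR

open Pool.Agent.H57.KM Pool.Agent.H20.FV Pool.Agent.H60.P3

variable {n r K : ℕ} {C : Set (V n)} {G : Subgroup (GL (Fin n) ℤ)} {T : V n →ₗ[ℝ] V n →ₗ[ℝ] V n →ₗ[ℝ] ℝ} {l : V n →ₗ[ℝ] ℝ}
  {β : Multiplicative (Fin r → ℤ) →* GL (Fin n) ℤ} {N : Fin r → Module.End ℝ (V n)} {A F : V n} {lam : V n →ₗ[ℝ] ℝ}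

/-- the limit of the normalised sums -/
private theorem lim_sum {W : Type} [AddCommGroup W] [Module ℝ W] [TopologicalSpace W]
    [ContinuousAdd W] [ContinuousSMul ℝ W] (K j : ℕ) (a : ℕ → W) (ha : ∀ i, j < i → a i = 0)
    (hK : K ≤ j → a j = 0) :
    Filter.Tendsto (fun k : ℕ => ((j.factorial : ℝ) * ((k : ℝ) ^ j)⁻¹) •
      ∑ i ∈ Finset.range K, ((i.factorial : ℝ)⁻¹ * (k : ℝ) ^ i) • a i) Filter.atTop (nhds (a j)) := by
  have h1 : ∀ i ∈ Finset.range K, Filter.Tendsto (fun k : ℕ =>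
      ((j.factorial : ℝ) * ((k : ℝ) ^ j)⁻¹) • (((i.factorial : ℝ)⁻¹ * (k : ℝ) ^ i) • a i))
      Filter.atTop (nhds (if i = j then a j else 0)) := by
    intro i _
    rcases lt_trichotomy i j with hij | hij | hij
    · rw [if_neg hij.ne]
      have h2 : Filter.Tendsto (fun k : ℕ => (1 / (k : ℝ)) ^ (j - i)) Filter.atTop (nhds 0) := by
        have h3 := (tendsto_one_div_atTop_nhds_zero_nat (𝕜 := ℝ)).pow (j - i)
        rwa [zero_pow (by omega)] at h3
      have h4 : Filter.Tendsto (fun k : ℕ => ((j.factorial : ℝ) * (i.factorial : ℝ)⁻¹ *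
          (1 / (k : ℝ)) ^ (j - i)) • a i) Filter.atTop
          (nhds (((j.factorial : ℝ) * (i.factorial : ℝ)⁻¹ * 0) • a i)) :=
        (h2.const_mul _).smul_const _
      rw [mul_zero, zero_smul] at h4
      refine h4.congr' ?_
      filter_upwards [Filter.eventually_gt_atTop 0] with k hk
      have hk0 : (k : ℝ) ≠ 0 := by
        have : k ≠ 0 := by omega
        exact_mod_cast this
      rw [smul_smul]
      congr 1
      have e : (k : ℝ) ^ j = (k : ℝ) ^ (j - i) * (k : ℝ) ^ i := by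
        rw [← pow_add, Nat.sub_add_cancel hij.le]
      rw [e, one_div, inv_pow, mul_inv]
      field_simp
    · subst hij
      rw [if_pos rfl]
      refine tendsto_const_nhds.congr' ?_
      filter_upwards [Filter.eventually_gt_atTop 0] with k hk
      have hk0 : (k : ℝ) ≠ 0 := by
        have : k ≠ 0 := by omega
        exact_mod_cast this
      have hf : (i.factorial : ℝ) ≠ 0 := by
        exact_mod_cast i.factorial_ne_zero
      rw [smul_smul]
      have e : (i.factorial : ℝ) * ((k : ℝ) ^ i)⁻¹ * ((i.factorial : ℝ)⁻¹ * (k : ℝ) ^ i) = 1 := by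
        field_simp
      rw [e, one_smul]
    · rw [if_neg hij.ne', ha i hij]
      simp only [smul_zero]
      exact tendsto_const_nhds
  have h5 := tendsto_finsetSum (Finset.range K) h1
  have h6 : ∑ i ∈ Finset.range K, (if i = j then a j else 0) = a j := by
    rw [Finset.sum_ite_eq' (Finset.range K) j fun _ => a j]
    split_ifs with h7
    · rfl
    · exact (hK (by rw [Finset.mem_range] at h7; omega)).symm
  rw [h6] at h5
  refine h5.congr fun k => ?_
  rw [Finset.smul_sum]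

/-- the exponential of a multiple -/
private theorem Ex_mul (t : Fin r → ℤ) (k : ℕ) (x : V n) :
    Ex K N (tR fun i => (k : ℤ) * t i) x =
      ∑ i ∈ Finset.range K, ((i.factorial : ℝ)⁻¹ * (k : ℝ) ^ i) • ((Nc N (tR t)) ^ i) x := by
  have h1 : tR (fun i => (k : ℤ) * t i) = (k : ℝ) • tR t := by
    funext i
    simp [tR]
  unfold Ex
  rw [h1, Nc_smul, LinearMap.sum_apply]
  refine Finset.sum_congr rfl fun i _ => ?_
  rw [smul_pow, LinearMap.smul_apply, LinearMap.smul_apply, smul_smul]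

theorem lim_mem (f : Fr C G T l) (h : PD C β K N A F lam) (hG : ∀ t, β t ∈ G) {y : V n} (hy : y ∈ closure C) (t : Fin r → ℤ)
    (j : ℕ) (hj : ((Nc N (tR t)) ^ (j + 1)) y = 0) : ((Nc N (tR t)) ^ j) y ∈ closure C := by
  have h1 := lim_sum K j (fun i => ((Nc N (tR t)) ^ i) y) (fun i hi => by
      obtain ⟨c, rfl⟩ := Nat.exists_eq_add_of_lt hi
      have e : (Nc N (tR t)) ^ (j + c + 1) = (Nc N (tR t)) ^ c * (Nc N (tR t)) ^ (j + 1) := by
        rw [← pow_add]
        congr 1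
        omega
      rw [e, Module.End.mul_apply, hj, map_zero])
    (fun hKj => by
      obtain ⟨c, rfl⟩ := Nat.exists_eq_add_of_le hKj
      rw [pow_add, Nc_nil h, zero_mul, LinearMap.zero_apply])
  refine isClosed_closure.mem_of_tendsto h1 (Filter.Eventually.of_forall fun k => ?_)
  refine f.amp.closure_smul _ (by positivity) _ ?_
  rw [← Ex_mul]
  exact Ex_mem f h hG _ hy

theorem lim_dual (f : Fr C G T l) (h : PD C β K N A F lam) (hG : ∀ t, β t ∈ G) {ψ : V n →ₗ[ℝ] ℝ}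
    (hψ : ∀ x ∈ closure C, 0 ≤ ψ x) (t : Fin r → ℤ) (j : ℕ) (hj : ∀ x, ψ (((Nc N (tR t)) ^ (j + 1)) x) = 0) :
    ∀ x ∈ closure C, 0 ≤ ψ (((Nc N (tR t)) ^ j) x) := by
  intro x hx
  have h1 := lim_sum K j (fun i => ψ (((Nc N (tR t)) ^ i) x)) (fun i hi => by
      obtain ⟨c, rfl⟩ := Nat.exists_eq_add_of_lt hi
      have e : (Nc N (tR t)) ^ (j + c + 1) = (Nc N (tR t)) ^ (j + 1) * (Nc N (tR t)) ^ c := by
        rw [← pow_add]
        congr 1
        omega
      rw [e, Module.End.mul_apply, hj])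
    (fun hKj => by
      obtain ⟨c, rfl⟩ := Nat.exists_eq_add_of_le hKj
      rw [pow_add, Nc_nil h, zero_mul, LinearMap.zero_apply, map_zero])
  refine ge_of_tendsto' h1 fun k => ?_
  have h2 : ∑ i ∈ Finset.range K, ((i.factorial : ℝ)⁻¹ * (k : ℝ) ^ i) • ψ (((Nc N (tR t)) ^ i) x) =
      ψ (Ex K N (tR fun i => (k : ℤ) * t i) x) := by
    rw [Ex_mul, map_sum]
    exact Finset.sum_congr rfl fun i _ => (map_smul ψ _ _).symm
  rw [h2, smul_eq_mul]
  exact mul_nonneg (by positivity) (hψ _ (Ex_mem f h hG _ hx))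

end Pool.Agent.H60.MR
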