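import Pool.Agent.H60.MR.Plim
import Pool.Agent.H60.MR.Ptrk

/-!
# [H60 MR Pray] Nef classes with `lam = 0`

`ray`: `w ∈ closure C`, `lam w = 0`: `w ∈ ℝ F`.  Induction on `m`, claim `P m`: if moreover `(s.map N).prod w = 0` for all lists `s` of
length `≥ m` then `w ∈ ℝ F` (`m = 0`: `w = 0`; `PD.nil`: the claim for `m = K` is the theorem).
`P m → P (m + 1)`: if `N i w = 0` for all `i`: `w = Nc N c A + s F` (`bas`, `lam w = 0`), `N i (Nc N c A) = 0` for all `i`, so `c = 0`
(`soc`) and `w = s F`.  Otherwise choose `i` with `N i w ≠ 0` and `j ≥ 1` maximal with `y = (N i) ^ j w ≠ 0`.  `y ∈ closure C` (`lim_mem`,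
`t = Pi.single i 1`, `Nc N (tR t) = N i`), `lam y = 0`, words of length `≥ m` kill `y` (word times `(N i) ^ j`, `comm` is not needed:
`(s.map N).prod ((N i) ^ j w) = ((s ++ replicate j i).map N).prod w`), so `y = κ F` by `P m`, `κ ≠ 0`.  By `Nc_pow` `y = Nc N c' w` (`lam w = 0`),
so `trk` (`N i F = 0`) gives `y = 0`: contradiction.
`top`: `i = 0` (`r ≥ 1`), `N i A ≠ 0` (`inj` with `c = Pi.single i 1`); `j ≥ 1` maximal with `y = (N i) ^ j A ≠ 0`; `y ∈ closure C`
(`lim_mem`), `lam y = 0` (`j ≥ 1`), so `y = κ F` by `ray`.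
-/

set_option autoImplicit false

namespace Pool.Agent.H60.MR

open Pool.Agent.H57.KM Pool.Agent.H20.FV Pool.Agent.H60.P3

variable {n r K : ℕ} {C : Set (V n)} {G : Subgroup (GL (Fin n) ℤ)} {T : V n →ₗ[ℝ] V n →ₗ[ℝ] V n →ₗ[ℝ] ℝ} {l : V n →ₗ[ℝ] ℝ}
  {β : Multiplicative (Fin r → ℤ) →* GL (Fin n) ℤ} {N : Fin r → Module.End ℝ (V n)} {A F : V n} {lam : V n →ₗ[ℝ] ℝ}

private theorem tR_single (i : Fin r) : tR (Pi.single i 1 : Fin r → ℤ) = Pi.single i 1 := by
  funext k
  unfold tR
  by_cases hk : k = i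
  · subst hk
    rw [Pi.single_eq_same, Pi.single_eq_same, Int.cast_one]
  · rw [Pi.single_eq_of_ne hk, Pi.single_eq_of_ne hk, Int.cast_zero]

private theorem Nc_tR (N : Fin r → Module.End ℝ (V n)) (i : Fin r) : Nc N (tR (Pi.single i 1)) = N i := by
  rw [tR_single, Nc_single]

private theorem pow_words (N : Fin r → Module.End ℝ (V n)) (i : Fin r) (j : ℕ) :
    ((List.replicate j i).map N).prod = (N i) ^ j := by
  rw [List.map_replicate, List.prod_replicate]

/-- the last power which does not vanish -/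
private theorem last_pow (h : PD C β K N A F lam) (i : Fin r) {w : V n} (hw : N i w ≠ 0) :
    ∃ j : ℕ, 1 ≤ j ∧ ((N i) ^ j) w ≠ 0 ∧ ((N i) ^ (j + 1)) w = 0 := by
  classical
  have hK : ((N i) ^ K) w = 0 := by
    have := h.nil (List.replicate K i) (by rw [List.length_replicate])
    rw [pow_words] at this
    rw [this, LinearMap.zero_apply]
  have hex : ∃ m : ℕ, ((N i) ^ m) w = 0 := ⟨K, hK⟩
  have hm := Nat.find_spec hex
  have hmin : ∀ m, m < Nat.find hex → ((N i) ^ m) w ≠ 0 := fun m hm => Nat.find_min hex hm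
  have h0 : Nat.find hex ≠ 0 := by
    intro h0
    rw [h0, pow_zero, Module.End.one_apply] at hm
    rw [hm, map_zero] at hw
    exact hw rfl
  have h1 : Nat.find hex ≠ 1 := by
    intro h1
    rw [h1, pow_one] at hm
    exact hw hm
  refine ⟨Nat.find hex - 1, by omega, hmin _ (by omega), ?_⟩
  rw [Nat.sub_add_cancel (by omega)]
  exact hm

private theorem lam_pow (h : PD C β K N A F lam) (i : Fin r) {j : ℕ} (hj : 1 ≤ j) (x : V n) :
    lam (((N i) ^ j) x) = 0 := by
  obtain ⟨k, rfl⟩ := Nat.exists_eq_add_of_le hj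
  rw [pow_add, pow_one, Module.End.mul_apply, h.lN]

theorem ray (f : Fr C G T l) (h : PD C β K N A F lam) (hG : ∀ t, β t ∈ G) {w : V n} (hw : w ∈ closure C)
    (h0 : lam w = 0) : ∃ s : ℝ, w = s • F := by
  have key : ∀ (m : ℕ) (w : V n), w ∈ closure C → lam w = 0 →
      (∀ s : List (Fin r), m ≤ s.length → (s.map N).prod w = 0) → ∃ s : ℝ, w = s • F := by
    intro m
    induction m with
    | zero =>
      intro w _ _ hm
      have := hm [] le_rfl
      rw [List.map_nil, List.prod_nil, Module.End.one_apply] at this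
      exact ⟨0, by rw [this, zero_smul]⟩
    | succ m ih =>
      intro w hw hl hm
      by_cases hN : ∀ i, N i w = 0
      · obtain ⟨c, s, hcs⟩ := h.bas w
        rw [hl, zero_smul, zero_add] at hcs
        have hc : c = 0 := by
          refine h.soc c fun i => ?_
          have h1 := hN i
          rw [hcs, map_add, map_smul, h.NF, smul_zero, add_zero] at h1
          exact h1
        refine ⟨s, ?_⟩
        have e : Nc N (0 : Fin r → ℝ) A = 0 := by
          rw [Nc_apply]
          exact Finset.sum_eq_zero fun i _ => by rw [Pi.zero_apply, zero_smul]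
        rw [hcs, hc, e, zero_add]
      · push Not at hN
        obtain ⟨i, hi⟩ := hN
        obtain ⟨j, hj1, hj2, hj3⟩ := last_pow h i hi
        exfalso
        have hy : ((N i) ^ j) w ∈ closure C := by
          have := lim_mem f h hG hw (Pi.single i 1) j (by rw [Nc_tR]; exact hj3)
          rwa [Nc_tR] at this
        obtain ⟨κ, hκ⟩ := ih (((N i) ^ j) w) hy (lam_pow h i hj1 w) fun s hs => by
          have := hm (s ++ List.replicate j i) (by
            rw [List.length_append, List.length_replicate]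
            omega)
          rw [List.map_append, List.prod_append, pow_words, Module.End.mul_apply] at this
          exact this
        obtain ⟨c', d, hcd⟩ := Nc_pow h (Pi.single i 1) hj1
        have h1 : Nc N c' w = ((N i) ^ j) w := by
          have := hcd w
          rw [Nc_single, hl, mul_zero, zero_smul, add_zero] at this
          exact this.symm
        refine hj2 (trk f h hG hw h1 fun k => ?_)
        rw [hκ, map_smul, h.NF, smul_zero]
  exact key K w hw h0 fun s hs => by rw [h.nil s hs, LinearMap.zero_apply]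

theorem top (f : Fr C G T l) (h : PD C β K N A F lam) (hG : ∀ t, β t ∈ G) :
    ∃ (i : Fin r) (j : ℕ) (κ : ℝ), 1 ≤ j ∧ κ ≠ 0 ∧ ((N i) ^ j) A = κ • F ∧ κ • F ∈ closure C := by
  obtain ⟨i⟩ : Nonempty (Fin r) := ⟨⟨0, h.r1⟩⟩
  have hA : N i A ≠ 0 := by
    intro h1
    have h2 := (h.inj (Pi.single i 1) 0 (by rw [Nc_single, h1, zero_smul, add_zero])).1
    have h3 := congrFun h2 i
    rw [Pi.single_eq_same, Pi.zero_apply] at h3
    exact one_ne_zero h3
  obtain ⟨j, hj1, hj2, hj3⟩ := last_pow h i hA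
  have hy : ((N i) ^ j) A ∈ closure C := by
    have := lim_mem f h hG (subset_closure h.AC) (Pi.single i 1) j (by rw [Nc_tR]; exact hj3)
    rwa [Nc_tR] at this
  obtain ⟨κ, hκ⟩ := ray f h hG hy (lam_pow h i hj1 A)
  refine ⟨i, j, κ, hj1, ?_, hκ, hκ ▸ hy⟩
  rintro rfl
  rw [zero_smul] at hκ
  exact hj2 hκ

end Pool.Agent.H60.MR
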