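import Pool.Agent.H60.MR.Def

/-!
# [H60 MR Rex] Real extension of rational linear maps

`rx f` is the real linear map with the matrix of the rational linear map `f`; `rx f (qR q) = qR (f q)`.

* `rx_qR`: `Matrix.mulVec`, `LinearMap.toMatrix'_mulVec`, casts of sums (`push_cast`).
* `ext_qR`: two real linear maps which agree on the vectors `qR q` are equal (`qR (Pi.single i 1) = Pi.single i 1`,
  `LinearMap.pi_ext'` or `pi_ext`).
* `rx_comp`, `rx_id`, `rx_add`, `rx_smul`: by `ext_qR`.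
* `rx_inj`: an injective `f` has a left inverse (`LinearMap.exists_leftInverse_of_injective`), so `rx f` has one.
-/

set_option autoImplicit false

namespace Pool.Agent.H60.MR

open Pool.Agent.H57.KM

variable {a b c : ℕ}

/-- the real extension of a rational linear map -/
noncomputable def rx (f : (Fin a → ℚ) →ₗ[ℚ] (Fin b → ℚ)) : V a →ₗ[ℝ] V b :=
  Matrix.mulVecLin ((LinearMap.toMatrix' f).map (fun q : ℚ => (q : ℝ)))

theorem rx_qR (f : (Fin a → ℚ) →ₗ[ℚ] (Fin b → ℚ)) (q : Fin a → ℚ) : rx f (qR q) = qR (f q) := by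
  have h1 : f q = (LinearMap.toMatrix' f).mulVec q := by
    rw [LinearMap.toMatrix'_mulVec]
  rw [h1]
  funext i
  simp only [rx, Matrix.mulVecLin_apply, Matrix.mulVec, dotProduct, Matrix.map_apply, qR]
  push_cast
  rfl

theorem ext_qR {W : Type} [AddCommGroup W] [Module ℝ W] {f g : V a →ₗ[ℝ] W} (h : ∀ q : Fin a → ℚ, f (qR q) = g (qR q)) :
    f = g := by
  refine LinearMap.pi_ext' fun i => LinearMap.ext_ring ?_
  have h1 := h (Pi.single i 1)
  have h2 : (qR (Pi.single i (1 : ℚ)) : V a) = Pi.single i (1 : ℝ) := by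
    funext j
    unfold qR
    by_cases hij : j = i
    · subst hij
      rw [Pi.single_eq_same, Pi.single_eq_same, Rat.cast_one]
    · rw [Pi.single_eq_of_ne hij, Pi.single_eq_of_ne hij, Rat.cast_zero]
  rw [h2] at h1
  exact h1

theorem rx_id : rx (LinearMap.id : (Fin a → ℚ) →ₗ[ℚ] (Fin a → ℚ)) = LinearMap.id := by
  refine ext_qR fun q => ?_
  rw [rx_qR]
  rfl

theorem rx_comp (g : (Fin b → ℚ) →ₗ[ℚ] (Fin c → ℚ)) (f : (Fin a → ℚ) →ₗ[ℚ] (Fin b → ℚ)) :
    rx (g ∘ₗ f) = rx g ∘ₗ rx f := by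
  refine ext_qR fun q => ?_
  rw [rx_qR, LinearMap.comp_apply, LinearMap.comp_apply, rx_qR, rx_qR]

theorem rx_add (f g : (Fin a → ℚ) →ₗ[ℚ] (Fin b → ℚ)) : rx (f + g) = rx f + rx g := by
  refine ext_qR fun q => ?_
  rw [rx_qR, LinearMap.add_apply, LinearMap.add_apply, rx_qR, rx_qR]
  funext i
  simp [qR]

theorem rx_smul (s : ℚ) (f : (Fin a → ℚ) →ₗ[ℚ] (Fin b → ℚ)) : rx (s • f) = (s : ℝ) • rx f := by
  refine ext_qR fun q => ?_
  rw [rx_qR, LinearMap.smul_apply, LinearMap.smul_apply, rx_qR]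
  funext i
  simp [qR]

theorem rx_inj {f : (Fin a → ℚ) →ₗ[ℚ] (Fin b → ℚ)} (h : Function.Injective f) : Function.Injective (rx f) := by
  obtain ⟨g, hg⟩ := LinearMap.exists_leftInverse_of_injective f (LinearMap.ker_eq_bot.2 h)
  have h1 : rx g ∘ₗ rx f = LinearMap.id := by rw [← rx_comp, hg, rx_id]
  exact fun x y hxy => by
    have h2 := congrArg (rx g) hxy
    have h3 := LinearMap.congr_fun h1
    simp only [LinearMap.comp_apply, LinearMap.id_apply] at h3
    rwa [h3, h3] at h2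

end Pool.Agent.H60.MR
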