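import Pool.Agent.H60.MR.Def
import Pool.Agent.H57.KM.Struct

/-!
# [H60 MR Str] The algebra

COPY the proof of `Pool.Agent.H57.KM.struct` (file `H57/KM/Struct.lean`) with `n` for `r + 1`, `β` for `f`, up to the point before
`alg_field`: `E = MonoidAlgebra ℚ (Multiplicative (Fin r → ℤ)) ⧸ N`, `N = {e | L e = 0}`, `L e = (Φ e).mulVec xq`.  There the dimension is
used only for `xq ≠ 0`; here `xq ≠ 0` because `0 ∉ C`: `l 0 = 0` and `f.lpos`.
NEW: the augmentation `ε`: `aug = MonoidAlgebra.lift ℚ ℚ _ (1 : Multiplicative (Fin r → ℤ) →* ℚ)` (an algebra homomorphism to `ℚ`);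
`l (qR (L e)) = aug e * l (qR xq)` for all `e` (both sides are additive and `ℚ`-linear in `e`: `MonoidAlgebra.induction_on` or
`MonoidAlgebra.induction_linear`; for `e = of t`: `qR (L e) = act (β t) (qR xq)` and `f.linv`).  So `L e = 0` gives `aug e = 0`
(`l (qR xq) > 0`), and `aug` factors through the quotient (`Ideal.Quotient.liftₐ`).
-/

set_option autoImplicit false

namespace Pool.Agent.H60.MR

open Pool.Agent.H57.KM Pool.Agent.H20.FV Pool.Agent.H60.P3

private theorem one_add_pow {K : Type} [CommRing K] {z : K} (hz : z ^ 2 = 0) (k : ℕ) :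
    (1 + z) ^ k = 1 + (k : K) * z := by
  induction k with
  | zero => simp
  | succ k ih =>
    rw [pow_succ, ih]
    push_cast
    linear_combination (k : K) * hz

private theorem nat_mul_eq {K : Type} [CommRing K] [Algebra ℚ K] (k : ℕ) (z : K) :
    (k : K) * z = (k : ℚ) • z := by
  rw [Algebra.smul_def, map_natCast]

private theorem neg_sq_zero {K : Type} [CommRing K] {z : K} (hz : z ^ 2 = 0) : (-z) ^ 2 = 0 := by
  rw [neg_sq, hz]

private theorem inv_eq {K : Type} [CommRing K] {z : K} (hz : z ^ 2 = 0) (u : Kˣ) (hu : (u : K) = 1 + z) :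
    ((u⁻¹ : Kˣ) : K) = 1 + -z := by
  refine Units.inv_eq_of_mul_eq_one_right ?_
  rw [hu]
  linear_combination -hz

private theorem pow_inj {r : ℕ} {t : Multiplicative (Fin r → ℤ)} (ht : t ≠ 1) :
    Function.Injective (fun k : ℕ => t ^ k) := by
  intro k l hkl
  have h0 : Multiplicative.toAdd t ≠ 0 := fun h => ht (by
    apply Multiplicative.toAdd.injective
    rw [h]; rfl)
  have h1 : k • Multiplicative.toAdd t = l • Multiplicative.toAdd t := by
    have := congrArg Multiplicative.toAdd hkl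
    simpa using this
  obtain ⟨i, hi⟩ := Function.ne_iff.1 h0
  have h2 := congrFun h1 i
  simp only [Pi.smul_apply, nsmul_eq_mul] at h2
  have h3 := mul_right_cancel₀ hi h2
  exact_mod_cast h3

private theorem lim_mem {n : ℕ} {C : Set (V n)} (h : IsAmp C) {x w : V n}
    (hx : ∀ k : ℕ, x + (k : ℝ) • w ∈ C) : w ∈ closure C := by
  have h1 : Filter.Tendsto (fun k : ℕ => ((1 : ℝ) / ((k : ℝ) + 1)) • x + w) Filter.atTop (nhds w) := by
    have h2 := (tendsto_one_div_add_atTop_nhds_zero_nat (𝕜 := ℝ)).smul_const x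
    have h3 := h2.add_const w
    simpa using h3
  refine mem_closure_of_tendsto h1 (Filter.Eventually.of_forall (fun k => ?_))
  have h4 := h.smul (1 / ((k : ℝ) + 1)) (by positivity) _ (hx (k + 1))
  convert h4 using 1
  rw [smul_add, smul_smul]
  congr 1
  have h5 : (0 : ℝ) < (k : ℝ) + 1 := by positivity
  push_cast
  rw [one_div, inv_mul_cancel₀ h5.ne', one_smul]

private theorem qR_add' {n : ℕ} (a b : Fin n → ℚ) : qR (a + b) = qR a + qR b := by
  funext i
  simp [qR]

private theorem qR_smul' {n : ℕ} (c : ℚ) (a : Fin n → ℚ) : qR (c • a) = (c : ℝ) • qR a := by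
  funext i
  simp [qR]

variable {n r : ℕ} {C : Set (V n)} {G : Subgroup (GL (Fin n) ℤ)} {T : V n →ₗ[ℝ] V n →ₗ[ℝ] V n →ₗ[ℝ] ℝ} {l : V n →ₗ[ℝ] ℝ}
  {β : Multiplicative (Fin r → ℤ) →* GL (Fin n) ℤ}

theorem str (f : Fr C G T l) (hβ : Function.Injective β) (hG : ∀ t, β t ∈ G) :
    ∃ (E : Type) (_ : CommRing E) (_ : Algebra ℚ E) (α : Multiplicative (Fin r → ℤ) →* Eˣ) (φ : E →ₗ[ℚ] (Fin n → ℚ))
      (ε : E →ₐ[ℚ] ℚ), ED C l β E α φ ε := by
  have h := f.amp
  have hfC : ∀ t, ∀ x ∈ C, act (β t) x ∈ C := fun t x hx => f.pres _ (hG t) x hx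
  classical
  obtain ⟨s0, hs0⟩ := h.exists_int
  obtain ⟨xq, hxq⟩ : ∃ xq : Fin n → ℚ, xq = fun i => (s0 i : ℚ) := ⟨_, rfl⟩
  have hx0 : qR xq = toR s0 := by
    funext i
    rw [hxq]
    simp [qR, toR]
  have hxC : qR xq ∈ C := by rw [hx0]; exact hs0
  have hxne : xq ≠ 0 := by
    intro h0
    have h1 := f.lpos _ hxC
    have h2 : qR xq = 0 := by
      rw [h0]
      funext i
      simp [qR]
    rw [h2, map_zero] at h1
    exact lt_irrefl _ h1
  let cast : Matrix (Fin n) (Fin n) ℤ →+* Matrix (Fin n) (Fin n) ℚ :=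
    (Int.castRingHom ℚ).mapMatrix
  let Mq : Multiplicative (Fin r → ℤ) →* Matrix (Fin n) (Fin n) ℚ :=
    (cast : Matrix (Fin n) (Fin n) ℤ →* Matrix (Fin n) (Fin n) ℚ).comp
      ((Units.coeHom _).comp β)
  let R := MonoidAlgebra ℚ (Multiplicative (Fin r → ℤ))
  let Φ : R →ₐ[ℚ] Matrix (Fin n) (Fin n) ℚ := MonoidAlgebra.lift ℚ _ _ Mq
  have hΦof : ∀ t, Φ (MonoidAlgebra.of ℚ _ t) = Mq t := fun t => MonoidAlgebra.lift_of Mq t
  have hact : ∀ t q, act (β t) (qR q) = qR ((Mq t).mulVec q) := fun t q => act_qR (β t) q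
  let L : R →ₗ[ℚ] (Fin n → ℚ) :=
    { toFun := fun e => (Φ e).mulVec xq
      map_add' := fun a b => by rw [map_add, Matrix.add_mulVec]
      map_smul' := fun c a => by rw [map_smul, Matrix.smul_mulVec, RingHom.id_apply] }
  have hLdef : ∀ e, L e = (Φ e).mulVec xq := fun e => rfl
  have hLmul : ∀ a e, L (a * e) = (Φ a).mulVec (L e) := by
    intro a e
    rw [hLdef, hLdef, map_mul, Matrix.mulVec_mulVec]
  have hL1 : L 1 = xq := by
    rw [hLdef, map_one, Matrix.one_mulVec]
  let N : Ideal R :=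
    { carrier := {e | L e = 0}
      add_mem' := by
        intro a b ha hb
        simp only [Set.mem_ofPred_eq] at *
        rw [map_add, ha, hb, add_zero]
      zero_mem' := by
        simp only [Set.mem_ofPred_eq]
        exact map_zero L
      smul_mem' := by
        intro c e he
        simp only [Set.mem_ofPred_eq, smul_eq_mul] at *
        rw [hLmul, he, Matrix.mulVec_zero] }
  have hN : ∀ e, e ∈ N ↔ L e = 0 := fun e => Iff.rfl
  let ψ0 : (R ⧸ N) →ₗ[ℚ] (Fin n → ℚ) :=
    ((N.restrictScalars ℚ).liftQ L (fun e he => he)).comp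
      (Submodule.Quotient.restrictScalarsEquiv ℚ N).symm.toLinearMap
  have hψ : ∀ e, ψ0 (Ideal.Quotient.mk N e) = L e := fun e => rfl
  have hinj : Function.Injective ψ0 := by
    rw [injective_iff_map_eq_zero]
    intro x hx
    obtain ⟨e, rfl⟩ := Ideal.Quotient.mk_surjective x
    rw [hψ] at hx
    exact Ideal.Quotient.eq_zero_iff_mem.2 ((hN e).2 hx)
  have hψ1 : ψ0 1 = xq := by
    rw [← map_one (Ideal.Quotient.mk N), hψ, hL1]
  have hfin : Module.Finite ℚ (R ⧸ N) := Module.Finite.of_injective ψ0 hinj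
  have hnt : Nontrivial (R ⧸ N) := by
    refine ⟨1, 0, fun h0 => hxne ?_⟩
    rw [← hψ1, h0, map_zero]
  let α : Multiplicative (Fin r → ℤ) →* (R ⧸ N)ˣ :=
    MonoidHom.toHomUnits (((Ideal.Quotient.mk N : R →+* R ⧸ N) : R →* R ⧸ N).comp (MonoidAlgebra.of ℚ _))
  have hα : ∀ t, ((α t : (R ⧸ N)ˣ) : R ⧸ N) = Ideal.Quotient.mk N (MonoidAlgebra.of ℚ _ t) := fun t => rfl
  have hψmul : ∀ t k, ψ0 (((α t : (R ⧸ N)ˣ) : R ⧸ N) * k) = (Mq t).mulVec (ψ0 k) := by
    intro t k
    obtain ⟨e, rfl⟩ := Ideal.Quotient.mk_surjective k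
    rw [hα, ← map_mul, hψ, hψ, hLmul, hΦof]
  have hψact : ∀ t k, qR (ψ0 (((α t : (R ⧸ N)ˣ) : R ⧸ N) * k)) = act (β t) (qR (ψ0 k)) := by
    intro t k
    rw [hψmul, hact]
  have hψα : ∀ t, qR (ψ0 ((α t : (R ⧸ N)ˣ) : R ⧸ N)) = act (β t) (qR xq) := by
    intro t
    have := hψact t 1
    rw [mul_one, hψ1] at this
    exact this
  have hαinj : Function.Injective α := by
    rw [injective_iff_map_eq_one]
    intro t ht
    by_contra htne
    have hfix : ∀ k : ℕ, act (β (t ^ k)) (qR xq) = qR xq := by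
      intro k
      rw [← hψα, map_pow, ht, one_pow, Units.val_one, hψ1]
    have hfinite := proper h β.range (by
      rintro g ⟨t, rfl⟩ x hx
      exact hfC t x hx) (isCompact_singleton (x := qR xq)) (by
      intro y hy
      rw [Set.mem_singleton_iff] at hy
      rw [hy]
      exact hxC) ‖qR xq‖
    have hinf := Set.infinite_of_injective_forall_mem (hβ.comp (pow_inj htne))
      (s := {g : GL (Fin n) ℤ | g ∈ β.range ∧ ∃ x ∈ ({qR xq} : Set (V n)),
        ‖act g x‖ ≤ ‖qR xq‖}) (by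
      intro k
      refine ⟨⟨_, rfl⟩, qR xq, Set.mem_singleton _, ?_⟩
      simp only [Function.comp_apply]
      rw [hfix])
    exact hinf hfinite
  have hint : ∀ t, IsIntegral ℤ ((α t : (R ⧸ N)ˣ) : R ⧸ N) := by
    intro t
    set A : Matrix (Fin n) (Fin n) ℤ := (β t : Matrix (Fin n) (Fin n) ℤ) with hA
    refine ⟨A.charpoly, Matrix.charpoly_monic A, ?_⟩
    have e1 : algebraMap ℤ (R ⧸ N) = (Ideal.Quotient.mk N).comp (Int.castRingHom R) := RingHom.ext_int _ _
    rw [hα, e1, ← Polynomial.hom_eval₂, Ideal.Quotient.eq_zero_iff_mem, hN, hLdef]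
    have e2 : Φ (A.charpoly.eval₂ (Int.castRingHom R) (MonoidAlgebra.of ℚ _ t)) =
        A.charpoly.eval₂ (((Φ : R →+* Matrix (Fin n) (Fin n) ℚ)).comp (Int.castRingHom R))
          (Mq t) := by
      rw [← hΦof]
      exact Polynomial.hom_eval₂ _ _ (Φ : R →+* Matrix (Fin n) (Fin n) ℚ) _
    have e3 : ((Φ : R →+* Matrix (Fin n) (Fin n) ℚ)).comp (Int.castRingHom R) =
        cast.comp (algebraMap ℤ (Matrix (Fin n) (Fin n) ℤ)) := RingHom.ext_int _ _
    have e4 : Mq t = cast A := rfl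
    rw [e2, e3, e4, ← Polynomial.hom_eval₂]
    have e5 : Polynomial.eval₂ (algebraMap ℤ (Matrix (Fin n) (Fin n) ℤ)) A A.charpoly = 0 :=
      Matrix.aeval_self_charpoly A
    rw [e5, map_zero, Matrix.zero_mulVec]
  have hcond : ∀ t, ∀ z : R ⧸ N, z ^ 2 = 0 → ((α t : (R ⧸ N)ˣ) : R ⧸ N) = 1 + z → z = 0 := by
    intro t z hz ht
    have hkey : ∀ (t : Multiplicative (Fin r → ℤ)) (z : R ⧸ N), z ^ 2 = 0 →
        ((α t : (R ⧸ N)ˣ) : R ⧸ N) = 1 + z → qR (ψ0 z) ∈ closure C := by
      intro t z hz ht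
      refine lim_mem h (x := qR xq) (fun k => ?_)
      have e1 : ((α (t ^ k) : (R ⧸ N)ˣ) : R ⧸ N) = 1 + (k : R ⧸ N) * z := by
        rw [map_pow, Units.val_pow_eq_pow_val, ht, one_add_pow hz]
      have e2 : qR xq + (k : ℝ) • qR (ψ0 z) = act (β (t ^ k)) (qR xq) := by
        rw [← hψα, e1, map_add, hψ1]
        have e3 : (k : R ⧸ N) * z = (k : ℚ) • z := nat_mul_eq k z
        rw [e3, map_smul]
        funext i
        simp [qR]
      rw [e2]
      exact hfC _ _ hxC
    have h1 := hkey t z hz ht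
    have h2 : qR (ψ0 (-z)) ∈ closure C := by
      refine hkey t⁻¹ (-z) (neg_sq_zero hz) ?_
      rw [map_inv]
      exact inv_eq hz _ ht
    have h3 : qR (ψ0 z) = 0 := by
      refine h.pointed _ h1 ?_
      convert h2 using 1
      rw [map_neg]
      funext i
      simp [qR]
    have h4 : ψ0 z = 0 := by
      funext i
      have := congrFun h3 i
      simp only [qR, Pi.zero_apply] at this
      simpa using this
    exact hinj (by rw [h4, map_zero])
  let aug : R →ₐ[ℚ] ℚ := MonoidAlgebra.lift ℚ ℚ _ (1 : Multiplicative (Fin r → ℤ) →* ℚ)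
  have haugof : ∀ t, aug (MonoidAlgebra.of ℚ _ t) = 1 := fun t => MonoidAlgebra.lift_of _ t
  have hlL : ∀ e, l (qR (L e)) = (aug e : ℝ) * l (qR xq) := by
    intro e
    induction e using MonoidAlgebra.induction_on with
    | of t =>
      rw [haugof, hLdef, hΦof, ← hact, f.linv _ (hG t)]
      simp
    | add a b ha hb =>
      rw [map_add, map_add, qR_add', map_add, ha, hb]
      push_cast
      ring
    | smul c a ha =>
      rw [map_smul, map_smul, qR_smul', map_smul, ha]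
      simp only [smul_eq_mul]
      push_cast
      ring
  have hNaug : ∀ e, e ∈ N → aug e = 0 := by
    intro e he
    have h1 := hlL e
    rw [(hN e).1 he] at h1
    have h2 : qR (0 : Fin n → ℚ) = 0 := by funext i; simp [qR]
    rw [h2, map_zero] at h1
    have h3 := (mul_eq_zero.1 h1.symm).resolve_right (f.lpos _ hxC).ne'
    exact_mod_cast h3
  let ε : (R ⧸ N) →ₐ[ℚ] ℚ := Ideal.Quotient.liftₐ N aug hNaug
  have hε : ∀ e, ε (Ideal.Quotient.mk N e) = aug e := fun e => rfl
  refine ⟨R ⧸ N, inferInstance, inferInstance, α, ψ0, ε, ?_⟩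
  exact {
    fin := hfin
    ainj := hαinj
    pinj := hinj
    amp := by rw [hψ1]; exact hxC
    int := hint
    cond := hcond
    mul := hψact
    aug := fun t => by rw [hα, hε, haugof]
    lin := fun e => by
      obtain ⟨e, rfl⟩ := Ideal.Quotient.mk_surjective e
      rw [hψ, hε, hψ1]
      exact hlL e }

end Pool.Agent.H60.MR
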